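import Pool.Agent.N975.ChE2

/-!
# The quadratic character of the positive even discriminants `n` as a primitive Dirichlet character
-/

set_option autoImplicit false

open Finset

namespace Pool.Agent.N974.Gen.ChP

open Pool.Agent.N975.ChE (prim_of jac_prod jac_sqfree)

/-- `n` is a positive even fundamental discriminant -/
def Ev (n : ℕ) : Prop := ∃ m : ℕ, n = 4 * m ∧ Squarefree m ∧ (m % 4 = 3 ∨ m % 4 = 2)

/-- the factor at `2` of the character -/
def c2 (n : ℕ) (u : ℤ) : ℤ := if u % 2 = 0 then 0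
  else if n % 16 = 12 then (if u % 4 = 1 then 1 else -1)
  else if n % 32 = 8 then (if u % 8 = 1 ∨ u % 8 = 7 then 1 else -1)
  else (if u % 8 = 1 ∨ u % 8 = 3 then 1 else -1)

/-- the character of `ℚ(√n)`, `n = 4 m` -/
def chE (n : ℕ) (u : ℤ) : ℤ := c2 n u * ∏ p ∈ n.primeFactors.erase 2, jacobiSym u p

/-! ### the factor at `2` -/

theorem c2_eq (n : ℕ) (u : ℤ) : c2 n u =
    if n % 16 = 12 then ZMod.χ₄ (u : ZMod 4)
    else if n % 32 = 8 then ZMod.χ₈ (u : ZMod 8) else ZMod.χ₈' (u : ZMod 8) := by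
  unfold c2
  rw [ZMod.χ₄_int_eq_if_mod_four, ZMod.χ₈'_int_eq_if_mod_eight, ZMod.χ₈_int_eq_if_mod_eight]
  split_ifs <;> rfl

theorem c2_mul (n : ℕ) (u v : ℤ) : c2 n (u * v) = c2 n u * c2 n v := by
  rw [c2_eq, c2_eq, c2_eq]
  split_ifs <;> (push_cast; exact map_mul _ _ _)

theorem c2_one (n : ℕ) : c2 n 1 = 1 := by
  rw [c2_eq]
  split_ifs <;> (push_cast; exact map_one _)

theorem c2_mod {n : ℕ} (hn : n % 16 = 12 ∨ n % 16 = 8) {u v : ℤ} (h : (n : ℤ) ∣ u - v) :
    c2 n u = c2 n v := by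
  obtain ⟨k, hk⟩ := h
  unfold c2
  rcases hn with hn | hn
  · have h4 : (4 : ℤ) ∣ u - v := ⟨(n / 4 : ℕ) * k, by
      rw [hk]
      have : (n : ℤ) = 4 * (n / 4 : ℕ) := by omega
      rw [this]; ring⟩
    have e1 : u % 4 = v % 4 := by omega
    have e2 : u % 2 = v % 2 := by omega
    rw [e1, e2, if_pos hn, if_pos hn]
  · have h8 : (8 : ℤ) ∣ u - v := ⟨(n / 8 : ℕ) * k, by
      rw [hk]
      have : (n : ℤ) = 8 * (n / 8 : ℕ) := by omega
      rw [this]; ring⟩
    have e1 : u % 8 = v % 8 := by omega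
    have e2 : u % 2 = v % 2 := by omega
    rw [e1, e2, if_neg (by omega : ¬ n % 16 = 12), if_neg (by omega : ¬ n % 16 = 12)]

theorem c2_pm (n : ℕ) {u : ℤ} (h : u % 2 = 1) : c2 n u = 1 ∨ c2 n u = -1 := by
  unfold c2
  rw [if_neg (by omega)]
  split_ifs <;> simp

theorem c2_even (n : ℕ) {u : ℤ} (h : u % 2 = 0) : c2 n u = 0 := by
  unfold c2
  rw [if_pos h]

/-! ### the character -/

theorem ev_mod {n : ℕ} (hn : Ev n) : n % 16 = 12 ∨ n % 16 = 8 := by
  obtain ⟨m, rfl, -, h⟩ := hn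
  omega

theorem ev_pos {n : ℕ} (hn : Ev n) : 0 < n := by
  have := ev_mod hn
  omega

theorem chE_mul (n : ℕ) (u v : ℤ) : chE n (u * v) = chE n u * chE n v := by
  unfold chE
  rw [c2_mul]
  have : ∏ p ∈ n.primeFactors.erase 2, jacobiSym (u * v) p =
      (∏ p ∈ n.primeFactors.erase 2, jacobiSym u p) *
        ∏ p ∈ n.primeFactors.erase 2, jacobiSym v p := by
    rw [← Finset.prod_mul_distrib]
    exact Finset.prod_congr rfl fun p _ => jacobiSym.mul_left _ _ _
  rw [this]
  ring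

theorem chE_one (n : ℕ) : chE n 1 = 1 := by
  unfold chE
  rw [c2_one, one_mul]
  exact Finset.prod_eq_one fun p _ => jacobiSym.one_left _

theorem chE_mod {n : ℕ} (hn : n % 16 = 12 ∨ n % 16 = 8) {u v : ℤ} (h : (n : ℤ) ∣ u - v) :
    chE n u = chE n v := by
  unfold chE
  rw [c2_mod hn h]
  congr 1
  refine Finset.prod_congr rfl fun p hp => ?_
  have hpn : (p : ℤ) ∣ n := by
    exact_mod_cast Nat.dvd_of_mem_primeFactors (Finset.mem_of_mem_erase hp)
  rw [jacobiSym.mod_left, jacobiSym.mod_left v]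
  congr 1
  exact Int.emod_eq_emod_iff_emod_sub_eq_zero.2 (Int.emod_eq_zero_of_dvd (hpn.trans h))

theorem chE_zero {n : ℕ} (hn : n % 16 = 12 ∨ n % 16 = 8) {u : ℕ} (h : ¬ Nat.Coprime u n) :
    chE n u = 0 := by
  rw [Nat.Prime.not_coprime_iff_dvd] at h
  obtain ⟨p, hp, hpu, hpn⟩ := h
  unfold chE
  by_cases h2 : p = 2
  · subst h2
    rw [c2_even n (by omega), zero_mul]
  · have hmem : p ∈ n.primeFactors.erase 2 :=
      Finset.mem_erase.2 ⟨h2, Nat.mem_primeFactors.2 ⟨hp, hpn, by omega⟩⟩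
    have : ∏ p ∈ n.primeFactors.erase 2, jacobiSym (u : ℤ) p = 0 := by
      refine Finset.prod_eq_zero hmem ?_
      have : NeZero p := ⟨hp.ne_zero⟩
      rw [jacobiSym.eq_zero_iff_not_coprime, Int.gcd_natCast_natCast, Nat.gcd_eq_right hpu]
      exact hp.one_lt.ne'
    rw [this, mul_zero]

theorem chE_pm {n : ℕ} (hn : n % 16 = 12 ∨ n % 16 = 8) {u : ℕ} (h : Nat.Coprime u n) :
    chE n u = 1 ∨ chE n u = -1 := by
  have hodd : (u : ℤ) % 2 = 1 := by
    have h2 : Nat.Coprime u 2 := h.coprime_dvd_right (by omega)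
    have := Nat.coprime_two_right.1 h2
    have := Nat.odd_iff.1 this
    omega
  have key : ∀ S : Finset ℕ, (∀ p ∈ S, Nat.Coprime u p) →
      (∏ p ∈ S, jacobiSym (u : ℤ) p = 1 ∨ ∏ p ∈ S, jacobiSym (u : ℤ) p = -1) := by
    intro S
    classical
    induction S using Finset.induction_on with
    | empty => intro _; left; simp
    | insert a S ha ih =>
      intro hS
      rw [Finset.prod_insert ha]
      have h1 := jacobiSym.eq_one_or_neg_one (a := (u : ℤ)) (b := a) (by
        rw [Int.gcd_natCast_natCast]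
        exact hS a (Finset.mem_insert_self _ _))
      have h2 := ih fun p hp => hS p (Finset.mem_insert_of_mem hp)
      rcases h1 with h1 | h1 <;> rcases h2 with h2 | h2 <;> rw [h1, h2] <;> simp
  have h1 := c2_pm n hodd
  have h2 := key (n.primeFactors.erase 2) fun p hp =>
    h.coprime_dvd_right (Nat.dvd_of_mem_primeFactors (Finset.mem_of_mem_erase hp))
  unfold chE
  rcases h1 with h1 | h1 <;> rcases h2 with h2 | h2 <;> rw [h1, h2] <;> simp

/-- the character -/
noncomputable def chi (n : ℕ) [NeZero n] (hn : n % 16 = 12 ∨ n % 16 = 8) : DirichletCharacter ℂ n where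
  toFun a := ((chE n (a.val : ℤ) : ℤ) : ℂ)
  map_one' := by
    have h1 : (1 : ZMod n).val = 1 % n := ZMod.val_one_eq_one_mod n
    have : 1 % n = 1 := Nat.mod_eq_of_lt (by omega)
    rw [h1, this]
    push_cast
    rw [chE_one]
    norm_num
  map_mul' a b := by
    rw [← Int.cast_mul, ← chE_mul]
    congr 1
    refine chE_mod hn ?_
    rw [ZMod.val_mul]
    push_cast
    exact Int.ModEq.dvd ((Int.mod_modEq _ _).symm.symm).symm
  map_nonunit' a ha := by
    have h1 : ¬ Nat.Coprime a.val n := by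
      intro h2
      apply ha
      have := (ZMod.isUnit_iff_coprime a.val n).2 h2
      rwa [ZMod.natCast_zmod_val] at this
    rw [chE_zero hn h1]
    norm_num

theorem chi_nat (n : ℕ) [NeZero n] (hn : n % 16 = 12 ∨ n % 16 = 8) (m : ℕ) :
    chi n hn (m : ZMod n) = ((chE n m : ℤ) : ℂ) := by
  change ((chE n (((m : ZMod n).val : ℕ) : ℤ) : ℤ) : ℂ) = _
  rw [ZMod.val_natCast]
  congr 1
  refine chE_mod hn ?_
  push_cast
  exact Int.ModEq.dvd (Int.mod_modEq _ _).symm

theorem chi_inv (n : ℕ) [NeZero n] (hn : n % 16 = 12 ∨ n % 16 = 8) : (chi n hn)⁻¹ = chi n hn := by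
  rw [inv_eq_iff_mul_eq_one]
  ext a
  rw [MulChar.mul_apply, MulChar.one_apply_coe]
  have h : ((a : ZMod n).val : ZMod n) = a := ZMod.natCast_zmod_val _
  rw [← h, chi_nat]
  have hco : Nat.Coprime (a : ZMod n).val n := ZMod.val_coe_unit_coprime a
  rcases chE_pm hn hco with h1 | h1
  · rw [h1]; norm_num
  · rw [h1]; norm_num

theorem exists_neg {n : ℕ} (hE : Ev n) {p : ℕ} (hp : p.Prime) (hpn : p ∣ n) :
    ∃ a : ℕ, a % (n / p) = 1 % (n / p) ∧ chE n a = -1 := by
  have hn := ev_mod hE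
  obtain ⟨m0, hnm, hsq, h4⟩ := hE
  by_cases h2 : p = 2
  · subst h2
    refine ⟨1 + n / 2, by rw [Nat.add_mod_right], ?_⟩
    unfold chE
    have h1 : c2 n ((1 + n / 2 : ℕ) : ℤ) = -1 := by
      unfold c2
      rcases hn with hn | hn
      · rw [if_neg (by omega), if_pos hn, if_neg (by omega)]
      · rw [if_neg (by omega), if_neg (by omega)]
        split_ifs <;> omega
    rw [h1]
    have h3 : ∏ q ∈ n.primeFactors.erase 2, jacobiSym ((1 + n / 2 : ℕ) : ℤ) q = 1 := by
      refine Finset.prod_eq_one fun q hq => ?_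
      obtain ⟨hq2, hq⟩ := Finset.mem_erase.1 hq
      have hqp := Nat.prime_of_mem_primeFactors hq
      have hqn := Nat.dvd_of_mem_primeFactors hq
      have hq3 : q ∣ n / 2 := by
        have h5 : n = 2 * (n / 2) := by omega
        rw [h5] at hqn
        rcases (Nat.Prime.dvd_mul hqp).1 hqn with h6 | h6
        · exact absurd ((Nat.prime_dvd_prime_iff_eq hqp Nat.prime_two).1 h6) hq2
        · exact h6
      obtain ⟨k, hk⟩ := hq3
      rw [jacobiSym.mod_left, hk]
      have : ((1 + q * k : ℕ) : ℤ) % q = 1 % q := by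
        push_cast
        rw [Int.add_mul_emod_self_left]
      rw [this, ← jacobiSym.mod_left, jacobiSym.one_left]
    rw [h3]
    norm_num
  · -- an odd prime
    obtain ⟨m, hm⟩ := hpn
    have hm0 : 0 < m := Nat.pos_of_ne_zero (by rintro rfl; omega)
    have hpm : ¬ p ∣ m := by
      intro h5
      have h6 : p * p ∣ 4 * m0 := by
        rw [← hnm, hm]
        exact Nat.mul_dvd_mul_left p h5
      have h7 : Nat.Coprime (p * p) 4 := by
        have : Nat.Coprime p 2 := (Nat.coprime_primes hp Nat.prime_two).2 h2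
        have h8 : Nat.Coprime (p * p) 2 := Nat.Coprime.mul_left this this
        exact Nat.Coprime.mul_right h8 h8
      have h9 := h7.dvd_of_dvd_mul_left h6
      exact hp.one_lt.ne' (Nat.isUnit_iff.1 (hsq p h9))
    have hcop : Nat.Coprime p m := (Nat.Prime.coprime_iff_not_dvd hp).2 hpm
    have : Fact p.Prime := ⟨hp⟩
    obtain ⟨g, hg⟩ : ∃ g : ℕ, jacobiSym (g : ℤ) p = -1 := by
      have hchar : ringChar (ZMod p) ≠ 2 := by
        rw [ZMod.ringChar_zmod_n]; exact h2
      obtain ⟨a, ha⟩ := quadraticChar_exists_neg_one hchar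
      refine ⟨a.val, ?_⟩
      rw [← jacobiSym.legendreSym.to_jacobiSym, legendreSym]
      simpa using ha
    obtain ⟨a, ha1, ha2⟩ := Nat.chineseRemainder hcop.symm 1 g
    have e0 : n / p = m := by rw [hm, Nat.mul_div_cancel_left _ hp.pos]
    refine ⟨a, by rw [e0]; exact ha1, ?_⟩
    unfold chE
    have hma : ∀ k : ℕ, k ∣ m → (a : ℤ) % k = 1 % k := by
      intro k hk
      have := Nat.ModEq.of_dvd hk ha1
      exact_mod_cast this
    have hm8 : n % 16 = 12 ∧ 4 ∣ m ∨ n % 16 = 8 ∧ 8 ∣ m := by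
      have hpo : p % 2 = 1 := Nat.odd_iff.1 (hp.odd_of_ne_two h2)
      rcases hn with hn | hn
      · refine Or.inl ⟨hn, ?_⟩
        have h5 : Nat.Coprime 4 p := by
          have : Nat.Coprime 2 p := ((Nat.coprime_primes hp Nat.prime_two).2 h2).symm
          exact Nat.Coprime.mul_left this this
        exact h5.dvd_of_dvd_mul_left (by rw [← hm]; omega)
      · refine Or.inr ⟨hn, ?_⟩
        have h5 : Nat.Coprime 8 p := by
          have : Nat.Coprime 2 p := ((Nat.coprime_primes hp Nat.prime_two).2 h2).symm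
          exact Nat.Coprime.mul_left (Nat.Coprime.mul_left this this) this
        exact h5.dvd_of_dvd_mul_left (by rw [← hm]; omega)
    have h1 : c2 n (a : ℤ) = 1 := by
      unfold c2
      rcases hm8 with ⟨k1, k2⟩ | ⟨k1, k2⟩
      · have := hma 4 k2
        push_cast at this
        rw [if_neg (by omega), if_pos k1, if_pos (by omega)]
      · have := hma 8 k2
        push_cast at this
        rw [if_neg (by omega), if_neg (by omega)]
        split_ifs <;> first | rfl | omega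
    have hmem : p ∈ n.primeFactors.erase 2 :=
      Finset.mem_erase.2 ⟨h2, Nat.mem_primeFactors.2 ⟨hp, ⟨m, hm⟩, by omega⟩⟩
    rw [h1, one_mul, ← Finset.mul_prod_erase _ _ hmem]
    have h3 : jacobiSym (a : ℤ) p = -1 := by
      rw [jacobiSym.mod_left]
      have h4 : ((a : ℤ) % p) = ((g : ℤ) % p) := by exact_mod_cast ha2
      rw [h4, ← jacobiSym.mod_left, hg]
    rw [h3]
    have h5 : ∏ q ∈ (n.primeFactors.erase 2).erase p, jacobiSym (a : ℤ) q = 1 := by
      refine Finset.prod_eq_one fun q hq => ?_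
      obtain ⟨hqp, hq⟩ := Finset.mem_erase.1 hq
      obtain ⟨hq2, hq⟩ := Finset.mem_erase.1 hq
      have hqpr := Nat.prime_of_mem_primeFactors hq
      have hqn := Nat.dvd_of_mem_primeFactors hq
      have hqm : q ∣ m := by
        rw [hm] at hqn
        rcases (Nat.Prime.dvd_mul hqpr).1 hqn with h6 | h6
        · exact absurd ((Nat.prime_dvd_prime_iff_eq hqpr hp).1 h6) hqp
        · exact h6
      rw [jacobiSym.mod_left, hma q hqm, ← jacobiSym.mod_left, jacobiSym.one_left]
    rw [h5]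
    norm_num

theorem chi_primitive {n : ℕ} [NeZero n] (hE : Ev n) : (chi n (ev_mod hE)).IsPrimitive := by
  refine prim_of _ fun p hp hpn => ?_
  obtain ⟨a, ha1, ha2⟩ := exists_neg hE hp hpn
  refine ⟨a, ha1, ?_, ?_⟩ <;> rw [chi_nat, ha2] <;> norm_num

/-- the odd part -/
theorem ev_odd {n : ℕ} (hE : Ev n) : ∃ k : ℕ, Squarefree k ∧ k % 2 = 1 ∧
    (n = 4 * k ∧ k % 4 = 3 ∨ n = 8 * k) ∧ n.primeFactors.erase 2 = k.primeFactors := by
  have hpf : ∀ (e k : ℕ), k % 2 = 1 → 0 < e → (2 ^ e * k).primeFactors.erase 2 = k.primeFactors := by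
    intro e k hk he
    have hk0 : k ≠ 0 := by rintro rfl; omega
    rw [Nat.primeFactors_mul (by positivity) hk0, Nat.primeFactors_prime_pow he.ne' Nat.prime_two]
    ext p
    simp only [Finset.mem_erase, Finset.mem_union, Finset.mem_singleton]
    constructor
    · rintro ⟨h1, h2 | h2⟩
      · exact absurd h2 h1
      · exact h2
    · intro h
      refine ⟨?_, Or.inr h⟩
      rintro rfl
      have := Nat.dvd_of_mem_primeFactors h
      omega
  obtain ⟨m, rfl, hsq, h4⟩ := hE
  rcases h4 with h4 | h4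
  · exact ⟨m, hsq, by omega, Or.inl ⟨rfl, h4⟩, hpf 2 m (by omega) (by norm_num)⟩
  · obtain ⟨k, rfl⟩ : 2 ∣ m := by omega
    refine ⟨k, hsq.squarefree_of_dvd (Dvd.intro_left _ rfl), by omega, Or.inr (by ring), ?_⟩
    have : 4 * (2 * k) = 2 ^ 3 * k := by ring
    rw [this]
    exact hpf 3 k (by omega) (by norm_num)

theorem chE_prime {n : ℕ} (hE : Ev n) {p : ℕ} (hp : p.Prime) (hp2 : p ≠ 2) :
    chE n p = jacobiSym ((n / 4 : ℕ) : ℤ) p := by
  have hpo : Odd p := hp.odd_of_ne_two hp2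
  have hpo' := Nat.odd_iff.1 hpo
  obtain ⟨k, hsq, hk, hcase, hpf⟩ := ev_odd hE
  have hko : Odd k := Nat.odd_iff.2 hk
  unfold chE
  rw [hpf, jac_sqfree _ hsq, c2_eq]
  have r3 : k % 4 = 3 → jacobiSym (k : ℤ) p = ZMod.χ₄ p * jacobiSym (p : ℤ) k := by
    intro h
    rcases (by omega : p % 4 = 1 ∨ p % 4 = 3) with h5 | h5
    · rw [ZMod.χ₄_nat_one_mod_four h5, one_mul]
      exact (jacobiSym.quadratic_reciprocity_one_mod_four h5 hko).symm
    · rw [ZMod.χ₄_nat_three_mod_four h5]
      rw [jacobiSym.quadratic_reciprocity_three_mod_four h5 h]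
      ring
  rcases hcase with ⟨rfl, h1⟩ | rfl
  · rw [if_pos (by omega)]
    have e1 : 4 * k / 4 = k := by omega
    rw [e1, r3 h1]
    rfl
  · rw [if_neg (by omega)]
    have e1 : 8 * k / 4 = 2 * k := by omega
    rw [e1]
    have hk4 : k % 4 = 1 ∨ k % 4 = 3 := by omega
    rcases hk4 with h | h
    · rw [if_pos (by omega)]
      push_cast
      rw [jacobiSym.mul_left, jacobiSym.at_two hpo]
      congr 1
      exact (jacobiSym.quadratic_reciprocity_one_mod_four h hpo).symm
    · rw [if_neg (by omega)]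
      push_cast
      rw [jacobiSym.mul_left, r3 h, ← mul_assoc]
      congr 1
      have h8 := jacobiSym.at_neg_two hpo
      rw [show (-2 : ℤ) = -1 * 2 by norm_num, jacobiSym.mul_left, jacobiSym.at_neg_one hpo,
        jacobiSym.at_two hpo] at h8
      rw [jacobiSym.at_two hpo, mul_comm]
      exact h8.symm

end Pool.Agent.N974.Gen.ChP
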