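import Pool.Agent.N974.Gen.Act

/-!
# The Weierstrass parametrisation and the values of the integrals
-/

set_option autoImplicit false
set_option linter.unusedSectionVars false

open UpperHalfPlane MatrixGroups CongruenceSubgroup Filter Topology MeasureTheory Set
open scoped ModularForm Pointwise

namespace Pool.Agent.N974.Gen

open Pool.Agent.W97.TW
open Pool.Agent.W97.MT (qq qq_ne norm_qq norm_qq_lt z_ne H_open QV iI iI_pos iI_gt iI_eventually
  tendsto_qq tpi_ne hasDerivAt_qq const_of_deriv line_im line_re tendsto_im exists_qq wA wA_same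
  wA_eq wA_analytic)
open Pool.Agent.N974.MF (Hor line_hor hor_neBot hor_gt hor_pos ne_of_im mob_hor mob_inf_hor
  mob_hor_inf im_inv iI_neBot den_ne)

variable {N : ℕ} [NeZero N] (f : CuspForm (Gamma0 N : Subgroup (GL (Fin 2) ℝ)) 2)

/-- the function `X` is the Weierstrass function of `2πi ∫ f` for the lattice `L` -/
structure Param (L : PeriodPair) (X : ℂ → ℂ) : Prop where
  diff : ∀ z : ℂ, 0 < z.im → DifferentiableAt ℂ X z
  inv : ∀ a b c d : ℤ, a * d - b * ((N : ℤ) * c) = 1 → ∀ z : ℂ, 0 < z.im →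
    X ((a * z + b) / ((N : ℂ) * c * z + d)) = X z
  ode : ∀ z : ℂ, 0 < z.im → deriv X z ^ 2 = (2 * Real.pi * Complex.I * ff f z) ^ 2 *
    (4 * X z ^ 3 - L.g₂ * X z - L.g₃)
  exp : ∃ ξ : ℂ → ℂ, AnalyticAt ℂ ξ 0 ∧ ξ 0 = 1 ∧ ∀ᶠ z in iI, X z = ξ (qq z) / qq z ^ 2
  one : (qExpansion 1 f).coeff 1 = 1

section param

variable {f} {L : PeriodPair} {X : ℂ → ℂ} (h : Param f L X)
include h

lemma X_analytic {z : ℂ} (hz : 0 < z.im) : AnalyticAt ℂ X z :=
  (show DifferentiableOn ℂ X {z : ℂ | 0 < z.im} from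
    fun w hw => (h.diff w hw).differentiableWithinAt).analyticAt (H_open.mem_nhds hz)

lemma near_inf : ∀ᶠ z in iI, F f z ∉ L.lattice ∧ L.weierstrassP (F f z) = X z := by
  obtain ⟨ξ, hξ, h0, hX⟩ := h.exp
  obtain ⟨T, hT, hXT⟩ := iI_eventually.1 hX
  have key := Pool.Agent.W349.MT.s_ode L (Phi f) ξ (Phi_analytic f) hξ (Phi_zero f)
    (by rw [(Phi_deriv f (by simp : ‖(0 : ℂ)‖ < 1)).deriv, phi_zero, h.one]) h0 ?_
  · rw [eventually_nhdsWithin_iff] at key
    have h1 := tendsto_qq.eventually key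
    filter_upwards [h1, hX] with z hz hx
    obtain ⟨h2, h3⟩ := hz (qq_ne z)
    exact ⟨h2, h3.trans hx.symm⟩
  · obtain ⟨r, hr, hξr⟩ := hξ.exists_ball_analyticOnNhd
    rw [eventually_nhdsWithin_iff]
    have hpos : 0 < Real.exp (-2 * Real.pi * T) := Real.exp_pos _
    filter_upwards [Metric.ball_mem_nhds (0 : ℂ) one_pos, Metric.ball_mem_nhds (0 : ℂ) hr,
      Metric.ball_mem_nhds (0 : ℂ) hpos] with q hq1 hq2 hq3 hq0
    have hq1' : ‖q‖ < 1 := by simpa using hq1
    have hq3' : ‖q‖ < Real.exp (-2 * Real.pi * T) := by simpa using hq3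
    have hq0' : q ≠ 0 := hq0
    obtain ⟨z, hz, rfl⟩ := exists_qq hq1' hq0'
    have hzT : T < z.im := by
      rw [norm_qq, Real.exp_lt_exp] at hq3'
      have := Real.pi_pos
      nlinarith
    have hd : DifferentiableAt ℂ (fun t => ξ t / t ^ 2) (qq z) :=
      (hξr _ hq2).differentiableAt.div (by fun_prop) (pow_ne_zero 2 hq0')
    have h1 := hd.hasDerivAt.comp z (hasDerivAt_qq z)
    have h2 : X =ᶠ[𝓝 z] (fun t => ξ t / t ^ 2) ∘ qq := by
      filter_upwards [(isOpen_lt continuous_const Complex.continuous_im).mem_nhds hzT] with w hw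
      exact hXT w hw
    have h3 := (h1.congr_of_eventuallyEq h2).deriv
    have h4 := h.ode z hz
    rw [h3, ff_q f hz] at h4
    rw [(Phi_deriv f hq1').deriv, ← hXT z hzT]
    have h5 : (2 * Real.pi * Complex.I) ^ 2 * (qq z * deriv (fun t => ξ t / t ^ 2) (qq z)) ^ 2 =
        (2 * Real.pi * Complex.I) ^ 2 * ((qq z * phi f (qq z)) ^ 2 *
          (4 * X z ^ 3 - L.g₂ * X z - L.g₃)) := by
      linear_combination h4
    exact mul_left_cancel₀ (pow_ne_zero 2 tpi_ne) h5

/-- the parametrisation -/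
theorem wp_F : ∀ z : ℂ, 0 < z.im → F f z ∉ L.lattice ∧ L.weierstrassP (F f z) = X z := by
  set V : Set ℂ := {z : ℂ | 0 < z.im} ∩
    {z : ℂ | ∀ᶠ w in 𝓝 z, F f w ∉ L.lattice ∧ L.weierstrassP (F f w) = X w} with hV
  have hVo : IsOpen V := H_open.inter isOpen_setOfPred_eventually_nhds
  have hne : ({z : ℂ | 0 < z.im} ∩ V).Nonempty := by
    obtain ⟨T, hT, h1⟩ := iI_eventually.1 (near_inf h)
    have him : 0 < (((T + 1 : ℝ) : ℂ) * Complex.I).im := by simp; linarith
    refine ⟨((T + 1 : ℝ) : ℂ) * Complex.I, him, him, ?_⟩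
    have : {w : ℂ | T < w.im} ∈ 𝓝 (((T + 1 : ℝ) : ℂ) * Complex.I) :=
      (isOpen_lt continuous_const Complex.continuous_im).mem_nhds (by simp)
    filter_upwards [this] with w hw
    exact h1 w hw
  have hcl : closure V ∩ {z : ℂ | 0 < z.im} ⊆ V := by
    rintro z0 ⟨hz0, him⟩
    have him' : 0 < z0.im := him
    refine ⟨him, ?_⟩
    by_cases hl : F f z0 ∈ L.lattice
    · exfalso
      set O : Set ℂ := {z : ℂ | 0 < z.im} ∩ F f ⁻¹' (((L.lattice : Set ℂ) \ {F f z0})ᶜ) with hO
      have hOo : IsOpen O := (F_cont f).isOpen_inter_preimage H_open L.isOpen_compl_lattice_sdiff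
      have hz0O : z0 ∈ O := ⟨him, by simp⟩
      obtain ⟨ε, hε, hball⟩ := Metric.isOpen_iff.1 hOo z0 hz0O
      obtain ⟨v, hvB, hvV⟩ := mem_closure_iff.1 hz0 _ Metric.isOpen_ball (Metric.mem_ball_self hε)
      have hA : AnalyticOnNhd ℂ (fun w => wA L (F f z0) (F f w)) (Metric.ball z0 ε) := fun w hw =>
        (wA_analytic L (F f z0) (hball hw).2).fun_comp (F_analytic f (hball hw).1)
      have hB : AnalyticOnNhd ℂ (fun w => (F f w - F f z0) ^ 2 * X w) (Metric.ball z0 ε) :=
        fun w hw => by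
          have h1 := F_analytic f (hball hw).1
          have h2 := X_analytic h (hball hw).1
          fun_prop
      have heq : (fun w => wA L (F f z0) (F f w)) =ᶠ[𝓝 v] fun w => (F f w - F f z0) ^ 2 * X w := by
        filter_upwards [hvV.2] with w hw
        rw [wA_eq L hl (fun h => hw.1 (by rw [h]; exact hl)), hw.2]
      have h3 := hA.eqOn_of_preconnected_of_eventuallyEq hB
        (convex_ball z0 ε).isPreconnected hvB heq (Metric.mem_ball_self hε)
      simp only [wA_same, sub_self] at h3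
      norm_num at h3
    · set O : Set ℂ := {z : ℂ | 0 < z.im} ∩ F f ⁻¹' ((L.lattice : Set ℂ)ᶜ) with hO
      have hOo : IsOpen O := (F_cont f).isOpen_inter_preimage H_open L.isClosed_lattice.isOpen_compl
      have hz0O : z0 ∈ O := ⟨him, hl⟩
      obtain ⟨ε, hε, hball⟩ := Metric.isOpen_iff.1 hOo z0 hz0O
      obtain ⟨v, hvB, hvV⟩ := mem_closure_iff.1 hz0 _ Metric.isOpen_ball (Metric.mem_ball_self hε)
      have hA : AnalyticOnNhd ℂ (fun w => L.weierstrassP (F f w)) (Metric.ball z0 ε) := fun w hw =>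
        (L.analyticOnNhd_weierstrassP (F f w) (hball hw).2).fun_comp (F_analytic f (hball hw).1)
      have hB : AnalyticOnNhd ℂ X (Metric.ball z0 ε) := fun w hw => X_analytic h (hball hw).1
      have heq : (fun w => L.weierstrassP (F f w)) =ᶠ[𝓝 v] X := by
        filter_upwards [hvV.2] with w hw
        exact hw.2
      have h3 := hA.eqOn_of_preconnected_of_eventuallyEq hB
        (convex_ball z0 ε).isPreconnected hvB heq
      filter_upwards [Metric.ball_mem_nhds z0 hε] with w hw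
      exact ⟨(hball hw).2, h3 hw⟩
  have hsub := (convex_halfSpace_im_gt 0).isPreconnected.subset_of_closure_inter_subset hVo hne hcl
  intro z hz
  exact (hsub hz).2.self_of_nhds

/-- the periods are in the lattice -/
theorem period_mem {a b c d : ℤ} (hd : a * d - b * ((N : ℤ) * c) = 1) {p : ℂ}
    (hp : ∀ z : ℂ, 0 < z.im → F f ((a * z + b) / ((N : ℂ) * c * z + d)) = F f z + p) :
    p ∈ L.lattice := by
  have hw := wp_F h
  by_contra hpL
  have h1 : ∀ z : ℂ, 0 < z.im → 2 * F f z + p ∈ L.lattice := by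
    intro z hz
    have hm := (gam_pos hd hz).1
    obtain ⟨e1, e2⟩ := hw z hz
    obtain ⟨e3, e4⟩ := hw _ hm
    rw [h.inv a b c d hd z hz, ← e2] at e4
    rw [hp z hz] at e3 e4
    rcases Pool.Agent.W646.MT.s_inj L _ _ e3 e1 e4 with h5 | h5
    · exact absurd (by simpa using h5) hpL
    · have : F f z + p + F f z = 2 * F f z + p := by ring
      rwa [this] at h5
  have h2 : Tendsto (fun z => 2 * F f z + p) iI (𝓝 (2 * 0 + p)) :=
    ((F_QV f).tendsto.const_mul 2).add_const p
  have h3 := L.isClosed_lattice.mem_of_tendsto h2 (iI_pos.mono fun z hz => h1 z hz)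
  apply hpL
  simpa using h3

/-- the values at the cusps where `X` is finite -/
theorem II_value {r : ℚ} {x : ℂ} (hX : Tendsto X (Hor (r : ℂ)) (𝓝 x)) :
    II f r ∉ L.lattice ∧ L.weierstrassP (II f r) = x := by
  have hw := wp_F h
  have hC := F_hor f r
  have hne : (Hor (r : ℂ)).NeBot := hor_neBot _ (by simp)
  have hCL : II f r ∉ L.lattice := by
    intro hCL
    have h1 : Tendsto (fun z => wA L (II f r) (F f z)) (Hor (r : ℂ)) (𝓝 (wA L (II f r) (II f r))) :=
      (wA_analytic L (II f r) (by simp)).continuousAt.tendsto.comp hC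
    rw [wA_same] at h1
    have h2 : Tendsto (fun z => (F f z - II f r) ^ 2 * X z) (Hor (r : ℂ))
        (𝓝 ((II f r - II f r) ^ 2 * x)) := ((hC.sub_const (II f r)).pow 2).mul hX
    have h3 : (fun z => wA L (II f r) (F f z)) =ᶠ[Hor (r : ℂ)]
        fun z => (F f z - II f r) ^ 2 * X z := by
      filter_upwards [hor_pos (r : ℂ)] with z hz
      obtain ⟨e1, e2⟩ := hw _ hz
      rw [wA_eq L hCL (fun h => e1 (by rw [h]; exact hCL)), e2]
    have h4 := tendsto_nhds_unique (h1.congr' h3) h2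
    norm_num at h4
  refine ⟨hCL, ?_⟩
  have h1 : Tendsto (fun z => L.weierstrassP (F f z)) (Hor (r : ℂ)) (𝓝 (L.weierstrassP (II f r))) :=
    (L.analyticOnNhd_weierstrassP (II f r) hCL).continuousAt.tendsto.comp hC
  refine tendsto_nhds_unique h1 (hX.congr' ?_)
  filter_upwards [hor_pos (r : ℂ)] with z hz
  exact (hw _ hz).2.symm

/-- the integrals from equivalent cusps -/
theorem II_equiv {a b c d : ℤ} (hd : a * d - b * ((N : ℤ) * c) = 1) (r : ℚ)
    (h0 : (N : ℚ) * c * r + d ≠ 0) :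
    II f ((a * r + b) / ((N : ℚ) * c * r + d)) - II f r ∈ L.lattice := by
  obtain ⟨p, hp⟩ := F_gamma f hd
  rw [II_gamma f hd hp r h0, add_sub_cancel_left]
  exact period_mem h hd hp

/-- the cusps equivalent to infinity -/
theorem II_inf (r : ℚ) (hr : (N : ℤ) ∣ r.den) : II f r ∈ L.lattice := by
  obtain ⟨a, b, c, d, hdet, hc, -, hden, hnum⟩ := rat_bez r
  obtain ⟨c', hc'⟩ := hr
  have hc'0 : c' ≠ 0 := by
    rintro rfl
    rw [mul_zero] at hc'
    exact hc (by rw [hden, hc'])
  have hd : a * d - b * ((N : ℤ) * c') = 1 := by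
    rw [← hc', ← hden]
    exact hdet
  obtain ⟨p, hp⟩ := F_gamma f hd
  have h1 := II_gamma_inf f hd hp hc'0
  have e : (a : ℚ) / ((N : ℚ) * c') = r := by
    have h2 : ((N : ℚ) * c') = r.den := by exact_mod_cast hc'.symm
    rw [h2, hnum]
    exact Rat.num_div_den r
  rw [e] at h1
  rw [h1]
  exact period_mem h hd hp

end param

end Pool.Agent.N974.Gen
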