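import Pool.Agent.N974.Gen.New
import Pool.Agent.N974.Gen.Lat

/-!
# The integral modular symbol of an eigenform
-/

set_option autoImplicit false
set_option linter.unusedSectionVars false

open UpperHalfPlane MatrixGroups CongruenceSubgroup Filter Topology MeasureTheory Set

namespace Pool.Agent.N974.Gen

open Pool.Agent.W97.TW

/-- the odd part of an integral symbol of level `N` -/
structure SymbG (N : ℕ) (s : ℚ → ℤ) (a : ℕ → ℤ) : Prop where
  per : ∀ x, s (x + 1) = s x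
  neg : ∀ x, s (-x) = -s x
  hecke : ∀ q : ℕ, q.Prime → ¬ q ∣ N → ∀ x,
    a q * s x = s (q * x) + ∑ b ∈ Finset.range q, s ((x + b) / q)
  heckeU : ∀ q : ℕ, q.Prime → q ∣ N → ∀ x,
    a q * s x = ∑ b ∈ Finset.range q, s ((x + b) / q)
  aff : ∀ {A B C D : ℤ}, A * D - B * ((N : ℤ) * C) = 1 → ∀ r : ℚ, (N : ℚ) * C * r + D ≠ 0 →
    s ((A * r + B) / ((N : ℚ) * C * r + D)) = s r + s ((B : ℚ) / D)
  aff_inf : ∀ {A B C D : ℤ}, A * D - B * ((N : ℤ) * C) = 1 → C ≠ 0 →
    s ((A : ℚ) / ((N : ℚ) * C)) = s ((B : ℚ) / D)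

variable {N : ℕ} [NeZero N] {f : CuspForm (Gamma0 N : Subgroup (GL (Fin 2) ℝ)) 2} {a : ℕ → ℤ}

/-- the imaginary parts of the integrals are multiples of one number -/
theorem symbG_of_im (h : Eigen f a) (hN : 1 < N) {κ : ℝ} (hκ : κ ≠ 0) {s : ℚ → ℤ}
    (hs : ∀ r : ℚ, (II f r).im = κ * s r) : SymbG N s a := by
  have inj : ∀ x y : ℤ, κ * (x : ℝ) = κ * y → x = y := fun x y h => by
    exact_mod_cast mul_left_cancel₀ hκ h
  have z0 := II_zero_im f h.real
  refine ⟨?_, ?_, ?_, ?_, ?_, ?_⟩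
  · intro x
    apply inj
    rw [← hs, ← hs, II_add_one]
  · intro x
    apply inj
    push_cast
    rw [← hs, mul_neg, ← hs, II_conj f h.real, Complex.conj_im]
  · intro q hq hqN x
    apply inj
    push_cast
    have h1 := congrArg Complex.im (II_hecke f hq (h.hecke' q hq) x)
    rw [if_neg hqN, Complex.add_im, Complex.im_sum] at h1
    have h2 : ((a q : ℂ) * II f x).im = (a q : ℝ) * (II f x).im := by
      simp
    rw [h2] at h1
    have h3 : ∀ b ∈ Finset.range q, κ * (s ((x + b) / q) : ℝ) = (II f ((x + b) / q)).im :=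
      fun b _ => (hs _).symm
    rw [mul_add, Finset.mul_sum, Finset.sum_congr rfl h3, ← hs, ← h1, hs]
    ring
  · intro q hq hqN x
    apply inj
    push_cast
    have h1 := congrArg Complex.im (II_hecke f hq (h.hecke' q hq) x)
    rw [if_pos hqN, zero_add, Complex.im_sum] at h1
    have h2 : ((a q : ℂ) * II f x).im = (a q : ℝ) * (II f x).im := by
      simp
    rw [h2] at h1
    have h3 : ∀ b ∈ Finset.range q, κ * (s ((x + b) / q) : ℝ) = (II f ((x + b) / q)).im :=
      fun b _ => (hs _).symm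
    rw [Finset.mul_sum, Finset.sum_congr rfl h3, ← h1, hs]
    ring
  · intro A B C D hdet r h0
    apply inj
    push_cast
    have h1 := congrArg Complex.im (II_aff f hN hdet r h0)
    rw [Complex.sub_im, Complex.add_im, z0] at h1
    rw [← hs, h1, mul_add, ← hs, ← hs]
    ring
  · intro A B C D hdet hC
    apply inj
    have h1 := congrArg Complex.im (II_aff_inf f hN hdet hC)
    rw [Complex.sub_im, z0] at h1
    rw [← hs, h1, ← hs, sub_zero]

/-! ### nonvanishing -/

theorem sum_ne_im {ι : Type} (S : Finset ι) (w : ι → ℤ) (r : ι → ℚ) {s : ℚ → ℤ} {κ : ℝ}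
    (hs : ∀ r : ℚ, (II f r).im = κ * s r) (hκ : κ ≠ 0)
    (hne : ∑ a ∈ S, w a * s (r a) ≠ 0) :
    ∑ a ∈ S, (w a : ℂ) * II f (r a) ≠ 0 := by
  intro h0
  have h1 := congrArg Complex.im h0
  rw [Complex.im_sum, Complex.zero_im] at h1
  have h2 : ∀ a ∈ S, ((w a : ℂ) * II f (r a)).im = κ * ((w a * s (r a) : ℤ) : ℝ) := by
    intro a _
    have : ((w a : ℂ) * II f (r a)).im = (w a : ℝ) * (II f (r a)).im := by simp
    rw [this, hs]
    push_cast
    ring
  rw [Finset.sum_congr rfl h2, ← Finset.mul_sum] at h1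
  rcases mul_eq_zero.1 h1 with h3 | h3
  · exact hκ h3
  · apply hne
    exact_mod_cast h3

theorem sum_ne_re {ι : Type} (S : Finset ι) (w : ι → ℤ) (r : ι → ℚ) {s : ℚ → ℤ} {κ : ℝ}
    (hs : ∀ r : ℚ, (II f r).re = κ * s r) (hκ : κ ≠ 0)
    (hne : ∑ a ∈ S, w a * s (r a) ≠ 0) :
    ∑ a ∈ S, (w a : ℂ) * II f (r a) ≠ 0 := by
  intro h0
  have h1 := congrArg Complex.re h0
  rw [Complex.re_sum, Complex.zero_re] at h1
  have h2 : ∀ a ∈ S, ((w a : ℂ) * II f (r a)).re = κ * ((w a * s (r a) : ℤ) : ℝ) := by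
    intro a _
    have : ((w a : ℂ) * II f (r a)).re = (w a : ℝ) * (II f (r a)).re := by simp
    rw [this, hs]
    push_cast
    ring
  rw [Finset.sum_congr rfl h2, ← Finset.mul_sum] at h1
  rcases mul_eq_zero.1 h1 with h3 | h3
  · exact hκ h3
  · apply hne
    exact_mod_cast h3

end Pool.Agent.N974.Gen
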