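import Pool.Agent.N974.Gen.Lfin
import Pool.Agent.N974.Gen.Symb
import Pool.Agent.N975.LfinE

/-!
# The `L`-functions of the quadratic twists, even discriminants; nonvanishing from the symbol
-/

set_option autoImplicit false
set_option linter.unusedSectionVars false
set_option linter.style.haveILetI false

open Complex Filter Topology Set UpperHalfPlane MatrixGroups CongruenceSubgroup ZMod

namespace Pool.Agent.N974.Gen

open Pool.Agent.N969.P15 (Ev chE un)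
open Pool.Agent.Y687 (cnt cnt_eq fac rr SS)
open Pool.Agent.N975.ChE
open Pool.Agent.N975.LfinE (cnt_twistL sum_unC)

variable {N : ℕ} [NeZero N] {f : CuspForm (Gamma0 N : Subgroup (GL (Fin 2) ℝ)) 2}

/-- the `L`-function of the twist by the even discriminant `-n`, `n = 4 m` -/
theorem exists_fE {a : ℕ → ℤ} (h : Eigen f a) (A B : ℤ) (hΔ : 4 * A ^ 3 + 27 * B ^ 2 ≠ 0)
    (hN : ∀ p : ℕ, p.Prime → p ∣ N → (p : ℤ) ∣ 2 * (4 * A ^ 3 + 27 * B ^ 2))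
    (hE : ∀ p : ℕ, p.Prime → ¬ (p : ℤ) ∣ 2 * (4 * A ^ 3 + 27 * B ^ 2) →
      (p : ℤ) - cnt A B p = a p)
    {n : ℕ} (hEv : Ev n) :
    ∃ (F : ℂ → ℂ) (g1 : ℂ), Differentiable ℂ F ∧
      (∀ s : ℂ, (3 : ℝ) / 2 < s.re →
        HasProd (fun p : {p : ℕ // p.Prime ∧
            ¬ ((p : ℤ) ∣ 2 * (4 * (A * (-((n / 4 : ℕ) : ℤ)) ^ 2) ^ 3 +
              27 * (B * (-((n / 4 : ℕ) : ℤ)) ^ 3) ^ 2))} =>
          fac (A * (-((n / 4 : ℕ) : ℤ)) ^ 2) (B * (-((n / 4 : ℕ) : ℤ)) ^ 3) s p) (F s)) ∧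
      (g1 ≠ 0 → F 1 ≠ 0) ∧
      ∃ τ : ℂ, τ * g1 = ∑ u ∈ un n, ((chE n u : ℤ) : ℂ) * II f ((u : ℚ) / n) := by
  have hn := ev_mod hEv
  have : NeZero n := ⟨by omega⟩
  have habs : (-((n / 4 : ℕ) : ℤ)).natAbs = n / 4 := by rw [Int.natAbs_neg, Int.natAbs_natCast]
  have hdvd : ∀ p : ℕ, p.Prime → p ≠ 2 → (p ∣ n / 4 ↔ p ∣ n) := by
    intro p hp h2
    have e : n = 4 * (n / 4) := by omega
    have hc : Nat.Coprime p 4 := by
      have : Nat.Coprime p 2 := (Nat.coprime_primes hp Nat.prime_two).2 h2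
      exact Nat.Coprime.mul_right this this
    constructor
    · intro h
      rw [e]
      exact h.mul_left 4
    · intro h
      rw [e] at h
      exact hc.dvd_of_dvd_mul_left h
  have q2 : ∀ p : ℕ, ¬ (p : ℤ) ∣ 2 * (4 * A ^ 3 + 27 * B ^ 2) → p ≠ 2 := by
    rintro p hp rfl
    exact hp (dvd_mul_right _ _)
  obtain ⟨F, g1, k1, k2, k3, k4⟩ := exists_fG h A B hΔ hN (-((n / 4 : ℕ) : ℤ)) (chi n hn)
    (chi_primitive hEv) (fun p => chE n p) (fun p _ => chi_nat n hn p)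
    (fun p hp => by
      by_cases hpn : p ∣ n
      · exact Or.inl (chE_zero hn (fun h => hp.one_lt.ne' (Nat.eq_one_of_dvd_coprimes h dvd_rfl hpn)))
      · exact Or.inr (chE_pm hn ((Nat.Prime.coprime_iff_not_dvd hp).2 hpn)))
    (fun p hp hpΔ hpD => by
      rw [habs, hdvd p hp (q2 p hpΔ)] at hpD
      exact chE_zero hn (fun h => hp.one_lt.ne' (Nat.eq_one_of_dvd_coprimes h dvd_rfl hpD)))
    (fun p hp hpΔ hpD => by
      have : Fact p.Prime := ⟨hp⟩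
      have h2 := q2 p hpΔ
      rw [habs, hdvd p hp h2] at hpD
      refine ⟨?_, ?_⟩
      · rcases chE_pm hn ((Nat.Prime.coprime_iff_not_dvd hp).2 hpD) with h | h <;>
          rw [h] <;> norm_num
      · have h5 := cnt_twistL A B (-((n / 4 : ℕ) : ℤ)) p h2 (by
          rw [dvd_neg, Int.natCast_dvd_natCast, hdvd p hp h2]
          exact hpD)
        rw [hE p hp hpΔ, ← chE_prime hEv hp h2] at h5
        exact h5)
  refine ⟨F, g1, k1, k2, k3, gaussSum (chi n hn)⁻¹ (stdAddChar (N := n)), ?_⟩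
  rw [k4, chi_inv n hn, sum_unC]
  refine Finset.sum_congr rfl fun u _ => ?_
  rw [← chi_nat n hn, ZMod.natCast_zmod_val]

/-- nonvanishing for odd discriminants -/
theorem exists_f_neO {a : ℕ → ℤ} (h : Eigen f a) (A B : ℤ) (hΔ : 4 * A ^ 3 + 27 * B ^ 2 ≠ 0)
    (hN : ∀ p : ℕ, p.Prime → p ∣ N → (p : ℤ) ∣ 2 * (4 * A ^ 3 + 27 * B ^ 2))
    (hE : ∀ p : ℕ, p.Prime → ¬ (p : ℤ) ∣ 2 * (4 * A ^ 3 + 27 * B ^ 2) →
      (p : ℤ) - cnt A B p = a p)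
    (D : ℤ) (hsq : Squarefree D) (h1 : 1 < D.natAbs) (h4 : D % 4 = 1)
    {s : ℚ → ℤ} {κ : ℝ} (hs : ∀ r : ℚ, (II f r).im = κ * s r) (hκ : κ ≠ 0)
    (hne : ∑ u ∈ un D.natAbs, jacobiSym u D.natAbs * s ((u : ℚ) / D.natAbs) ≠ 0) :
    ∃ F : ℂ → ℂ, Differentiable ℂ F ∧
      (∀ s : ℂ, (3 : ℝ) / 2 < s.re →
        HasProd (fun p : {p : ℕ // p.Prime ∧
            ¬ ((p : ℤ) ∣ 2 * (4 * (A * D ^ 2) ^ 3 + 27 * (B * D ^ 3) ^ 2))} =>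
          fac (A * D ^ 2) (B * D ^ 3) s p) (F s)) ∧
      F 1 ≠ 0 := by
  obtain ⟨F, g1, hf1, hf2, hf3, τ, hτ⟩ := exists_fO h A B hΔ hN hE D hsq h1 h4
  refine ⟨F, hf1, hf2, hf3 ?_⟩
  rintro rfl
  rw [mul_zero] at hτ
  exact sum_ne_im (rr D.natAbs) (fun u => jacobiSym (u : ℤ) D.natAbs)
    (fun u => (u : ℚ) / D.natAbs) hs hκ hne hτ.symm

/-- nonvanishing for even discriminants -/
theorem exists_f_neE {a : ℕ → ℤ} (h : Eigen f a) (A B : ℤ) (hΔ : 4 * A ^ 3 + 27 * B ^ 2 ≠ 0)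
    (hN : ∀ p : ℕ, p.Prime → p ∣ N → (p : ℤ) ∣ 2 * (4 * A ^ 3 + 27 * B ^ 2))
    (hE : ∀ p : ℕ, p.Prime → ¬ (p : ℤ) ∣ 2 * (4 * A ^ 3 + 27 * B ^ 2) →
      (p : ℤ) - cnt A B p = a p)
    {n : ℕ} (hEv : Ev n)
    {s : ℚ → ℤ} {κ : ℝ} (hs : ∀ r : ℚ, (II f r).im = κ * s r) (hκ : κ ≠ 0)
    (hne : ∑ u ∈ un n, chE n u * s ((u : ℚ) / n) ≠ 0) :
    ∃ F : ℂ → ℂ, Differentiable ℂ F ∧
      (∀ s : ℂ, (3 : ℝ) / 2 < s.re →
        HasProd (fun p : {p : ℕ // p.Prime ∧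
            ¬ ((p : ℤ) ∣ 2 * (4 * (A * (-((n / 4 : ℕ) : ℤ)) ^ 2) ^ 3 +
              27 * (B * (-((n / 4 : ℕ) : ℤ)) ^ 3) ^ 2))} =>
          fac (A * (-((n / 4 : ℕ) : ℤ)) ^ 2) (B * (-((n / 4 : ℕ) : ℤ)) ^ 3) s p) (F s)) ∧
      F 1 ≠ 0 := by
  obtain ⟨F, g1, hf1, hf2, hf3, τ, hτ⟩ := exists_fE h A B hΔ hN hE hEv
  refine ⟨F, hf1, hf2, hf3 ?_⟩
  rintro rfl
  rw [mul_zero] at hτ
  exact sum_ne_im (un n) (fun u => chE n u) (fun u => (u : ℚ) / n) hs hκ hne hτ.symm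

end Pool.Agent.N974.Gen
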