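import Pool.Agent.N974.Gen.Models
import Pool.Agent.N974.Gen.LfinE
import Pool.Agent.N975.LatRh

/-!
# The odd symbol of level 17
-/

set_option autoImplicit false
set_option linter.unusedSectionVars false

open UpperHalfPlane MatrixGroups CongruenceSubgroup Filter Topology MeasureTheory Set

namespace Pool.Agent.N974.Gen

open Pool.Agent.W97.MT (ap affCount)
open Pool.Agent.Y687 (cnt cnt_eq)

section cop

variable {N : ℕ} [NeZero N] {f : CuspForm (Gamma0 N : Subgroup (GL (Fin 2) ℝ)) 2}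
  {L : PeriodPair} {X : ℂ → ℂ}

/-- the cusps with denominator prime to the level -/
theorem II_cop (h : Param f L X) (r : ℚ) (hr : Nat.Coprime N r.den) :
    II f r - II f 0 ∈ L.lattice := by
  have h1 : IsCoprime ((N : ℤ) * r.num) (r.den : ℤ) := by
    refine IsCoprime.mul_left ?_ ?_
    · exact_mod_cast hr.isCoprime
    · exact (Int.isCoprime_iff_gcd_eq_one.2 (by
        have := r.reduced
        rw [Int.gcd, Int.natAbs_natCast]
        exact this))
  obtain ⟨u, v, huv⟩ := h1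
  have hd : v * (r.den : ℤ) - r.num * ((N : ℤ) * (-u)) = 1 := by linear_combination huv
  have hden : (r.den : ℚ) ≠ 0 := by exact_mod_cast r.den_ne_zero
  have h2 := II_equiv h hd 0 (by simpa using hden)
  have e : (((v : ℤ) : ℚ) * 0 + ((r.num : ℤ) : ℚ)) /
      ((N : ℚ) * ((-u : ℤ) : ℚ) * 0 + (((r.den : ℕ) : ℤ) : ℚ)) = r := by
    rw [mul_zero, mul_zero, zero_add, zero_add]
    exact_mod_cast Rat.num_div_den r
  rw [e] at h2
  exact h2

end cop

/-- the odd symbol of level `17` -/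
structure Sym17 (s : ℚ → ℤ) : Prop where
  g : SymbG 17 s (fun p => ap E17 p)
  h2 : ∀ x, -s x = s (2 * x) + s (x / 2) + s ((x + 1) / 2)
  h3 : ∀ x, 0 = s (3 * x) + s (x / 3) + s ((x + 1) / 3) + s ((x + 2) / 3)

variable {f : CuspForm (Gamma0 17 : Subgroup (GL (Fin 2) ℝ)) 2} {X : ℂ → ℂ}

/-- the imaginary parts of the integrals are integral multiples of one number -/
theorem exists_sym17 (h : Eigen f (fun p => ap E17 p))
    (hP : ∀ L : PeriodPair, L.g₂ = 11 / 4 → L.g₃ = 12015 / 216 → Param f L X) :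
    ∃ (s : ℚ → ℤ) (κ : ℝ), 0 < κ ∧ (∀ r : ℚ, (II f r).im = κ * s r) ∧ Sym17 s := by
  obtain ⟨L, Op, Om, hOp, hOm, g2, g3, hL⟩ := Pool.Agent.N975.LatRh.lat17
  have hp := hP L g2 g3
  have z0 := II_zero_im f h.real
  have mem_ofI : ∀ w : ℂ, w ∈ L.lattice → ∃ k : ℤ, w.im = Om * k := by
    intro w hw
    obtain ⟨a, b, -, hab⟩ := (hL w).1 hw
    exact ⟨b, by rw [hab]; simp [mul_comm]⟩
  have him : ∀ r : ℚ, ∃ k : ℤ, (II f r).im = Om * k := by
    intro r
    by_cases hr : (17 : ℤ) ∣ r.den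
    · exact mem_ofI _ (II_inf hp r (by exact_mod_cast hr))
    · have hc : Nat.Coprime 17 r.den := by
        rw [Nat.Prime.coprime_iff_not_dvd (by norm_num)]
        intro h
        exact hr (by exact_mod_cast h)
      obtain ⟨k, hk⟩ := mem_ofI _ (II_cop hp r hc)
      refine ⟨k, ?_⟩
      rw [Complex.sub_im, z0, sub_zero] at hk
      exact hk
  choose s hs using him
  have hg : SymbG 17 s (fun p => ap E17 p) := symbG_of_im h (by norm_num) hOm.ne' hs
  refine ⟨s, Om, hOm, hs, hg, ?_, ?_⟩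
  · intro x
    have h1 := hg.hecke 2 Nat.prime_two (by norm_num) x
    simp only [ap17_2, Finset.sum_range_succ, Finset.sum_range_zero] at h1
    push_cast at h1
    rw [add_zero] at h1
    linarith
  · intro x
    have h1 := hg.hecke 3 Nat.prime_three (by norm_num) x
    simp only [ap17_3, Finset.sum_range_succ, Finset.sum_range_zero] at h1
    push_cast at h1
    rw [add_zero] at h1
    linarith

/-- nonvanishing of the twists of level `17` by odd discriminants -/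
theorem ne17O (h : Eigen f (fun p => ap E17 p)) {s : ℚ → ℤ} {κ : ℝ} (hκ : 0 < κ)
    (hs : ∀ r : ℚ, (II f r).im = κ * s r)
    (D : ℤ) (hsq : Squarefree D) (h1 : 1 < D.natAbs) (h4 : D % 4 = 1)
    (hne : ∑ u ∈ N969.P15.un D.natAbs, jacobiSym u D.natAbs * s ((u : ℚ) / D.natAbs) ≠ 0) :
    ∃ F : ℂ → ℂ, Differentiable ℂ F ∧
      (∀ s : ℂ, (3 : ℝ) / 2 < s.re →
        HasProd (fun p : {p : ℕ // p.Prime ∧
            ¬ ((p : ℤ) ∣ 2 * (4 * (-91 * D ^ 2) ^ 3 + 27 * (-330 * D ^ 3) ^ 2))} =>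
          Y687.fac (-91 * D ^ 2) (-330 * D ^ 3) s p) (F s)) ∧
      F 1 ≠ 0 :=
  exists_f_neO h (-91) (-330) disc17 bad17 (fun _ => good17) D hsq h1 h4 hs hκ.ne' hne

/-- nonvanishing of the twists of level `17` by even discriminants -/
theorem ne17E (h : Eigen f (fun p => ap E17 p)) {s : ℚ → ℤ} {κ : ℝ} (hκ : 0 < κ)
    (hs : ∀ r : ℚ, (II f r).im = κ * s r) {n : ℕ} (hEv : N969.P15.Ev n)
    (hne : ∑ u ∈ N969.P15.un n, N969.P15.chE n u * s ((u : ℚ) / n) ≠ 0) :
    ∃ F : ℂ → ℂ, Differentiable ℂ F ∧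
      (∀ s : ℂ, (3 : ℝ) / 2 < s.re →
        HasProd (fun p : {p : ℕ // p.Prime ∧
            ¬ ((p : ℤ) ∣ 2 * (4 * (-91 * (-((n / 4 : ℕ) : ℤ)) ^ 2) ^ 3 +
              27 * (-330 * (-((n / 4 : ℕ) : ℤ)) ^ 3) ^ 2))} =>
          Y687.fac (-91 * (-((n / 4 : ℕ) : ℤ)) ^ 2) (-330 * (-((n / 4 : ℕ) : ℤ)) ^ 3) s p) (F s)) ∧
      F 1 ≠ 0 :=
  exists_f_neE h (-91) (-330) disc17 bad17 (fun _ => good17) hEv hs hκ.ne' hne

end Pool.Agent.N974.Gen
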