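import Pool.Agent.N974.Gen.Lat

/-!
# The classes of cusps for squarefree levels; maps which multiply the form by a constant
-/

set_option autoImplicit false
set_option linter.unusedSectionVars false

open UpperHalfPlane MatrixGroups CongruenceSubgroup Filter Topology MeasureTheory Set

namespace Pool.Agent.N974.Gen

open Pool.Agent.W97.TW
open Pool.Agent.W97.MT (const_of_deriv iI iI_pos H_open)
open Pool.Agent.N974.MF (Hor)

variable {N : ℕ} [NeZero N] {f : CuspForm (Gamma0 N : Subgroup (GL (Fin 2) ℝ)) 2}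
  {L : PeriodPair} {X : ℂ → ℂ}

/-- two rational numbers whose denominators have the same greatest common divisor with the
squarefree level are equivalent -/
theorem exists_class (hN : Squarefree N) {r r' : ℚ} (hg : Nat.gcd r.den N = Nat.gcd r'.den N) :
    ∃ a b c d : ℤ, a * d - b * ((N : ℤ) * c) = 1 ∧ (N : ℚ) * c * r + d ≠ 0 ∧
      (a * r + b) / ((N : ℚ) * c * r + d) = r' := by
  obtain ⟨b1, x1, d1, y1, h1, hd1, e1, hden1, hnum1⟩ := rat_bez r
  obtain ⟨b2, x2, d2, y2, h2, hd2, e2, hden2, hnum2⟩ := rat_bez r'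
  -- the numbers of the denominators
  obtain ⟨g, hgd⟩ : ∃ g, g = Nat.gcd r.den N := ⟨_, rfl⟩
  obtain ⟨e, he⟩ : g ∣ N := by rw [hgd]; exact Nat.gcd_dvd_right _ _
  have hcop : Nat.Coprime g e := by
    rw [he] at hN
    exact Nat.coprime_of_squarefree_mul hN
  have hN0 : N ≠ 0 := NeZero.ne N
  have hg0 : g ≠ 0 := by rintro rfl; rw [zero_mul] at he; exact hN0 he
  have ce : ∀ D : ℕ, Nat.gcd D N = g → Nat.Coprime D e := by
    intro D hD
    have h3 : Nat.gcd D e ∣ g := by
      rw [← hD]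
      exact Nat.dvd_gcd (Nat.gcd_dvd_left _ _) ((Nat.gcd_dvd_right _ _).trans (he ▸ dvd_mul_left e g))
    have h4 : Nat.gcd D e ∣ Nat.gcd g e := Nat.dvd_gcd h3 (Nat.gcd_dvd_right _ _)
    rw [hcop] at h4
    exact Nat.eq_one_of_dvd_one h4
  have c1 := ce r.den hgd.symm
  have c2 := ce r'.den (by rw [← hg, hgd])
  have c12 : IsCoprime (d1 * d2) (e : ℤ) := by
    rw [hden1, hden2]
    exact IsCoprime.mul_left (by exact_mod_cast c1.isCoprime) (by exact_mod_cast c2.isCoprime)
  have g1 : (g : ℤ) ∣ d1 := by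
    rw [hden1]
    exact_mod_cast (hgd ▸ Nat.gcd_dvd_left r.den N)
  have g2 : (g : ℤ) ∣ d2 := by
    rw [hden2]
    have : g = Nat.gcd r'.den N := by rw [hgd, hg]
    exact_mod_cast (this ▸ Nat.gcd_dvd_left r'.den N)
  obtain ⟨u, v, huv⟩ := c12
  -- the parameter
  obtain ⟨k, hk⟩ : ∃ k : ℤ, k = u * (d2 * y1 - d1 * y2) := ⟨_, rfl⟩
  have hdvd : (N : ℤ) ∣ d2 * y1 - (y2 + k * d2) * d1 := by
    have e3 : (N : ℤ) = g * e := by exact_mod_cast he
    rw [e3]
    refine IsCoprime.mul_dvd (by exact_mod_cast hcop.isCoprime) ?_ ?_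
    · exact (dvd_mul_of_dvd_left g2 _).sub (dvd_mul_of_dvd_right g1 _)
    · refine ⟨v * (d2 * y1 - d1 * y2), ?_⟩
      rw [hk]
      linear_combination (-(d2 * y1 - d1 * y2)) * huv
  obtain ⟨c, hc⟩ := hdvd
  -- the matrix
  refine ⟨b2 * y1 - (x2 + k * b2) * d1, -(b2 * x1) + (x2 + k * b2) * b1, c,
    -(d2 * x1) + (y2 + k * d2) * b1, ?_, ?_, ?_⟩
  · rw [← hc]
    linear_combination (b2 * y2 - d2 * x2) * h1 + h2
  · have e4 : (N : ℚ) * c * r + ((-(d2 * x1) + (y2 + k * d2) * b1 : ℤ) : ℚ) = d2 / d1 := by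
      have hd1' : (d1 : ℚ) ≠ 0 := by exact_mod_cast hd1
      have hr : r = b1 / d1 := by rw [← e1]; field_simp
      have hc' : (N : ℚ) * c = d2 * y1 - (y2 + k * d2) * d1 := by exact_mod_cast hc.symm
      have h1' : (b1 : ℚ) * y1 - x1 * d1 = 1 := by exact_mod_cast h1
      rw [hc', hr]
      push_cast
      field_simp
      linear_combination (d2 : ℚ) * h1'
    rw [e4]
    have hd1' : (d1 : ℚ) ≠ 0 := by exact_mod_cast hd1
    have hd2' : (d2 : ℚ) ≠ 0 := by exact_mod_cast hd2
    exact div_ne_zero hd2' hd1'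
  · have hd1' : (d1 : ℚ) ≠ 0 := by exact_mod_cast hd1
    have hd2' : (d2 : ℚ) ≠ 0 := by exact_mod_cast hd2
    have hr : r = b1 / d1 := by rw [← e1]; field_simp
    have hr' : r' = b2 / d2 := by rw [← e2]; field_simp
    have h1' : (b1 : ℚ) * y1 - x1 * d1 = 1 := by exact_mod_cast h1
    have e4 : (N : ℚ) * c * r + ((-(d2 * x1) + (y2 + k * d2) * b1 : ℤ) : ℚ) = d2 / d1 := by
      have hc' : (N : ℚ) * c = d2 * y1 - (y2 + k * d2) * d1 := by exact_mod_cast hc.symm
      rw [hc', hr]
      push_cast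
      field_simp
      linear_combination (d2 : ℚ) * h1'
    have e5 : ((b2 * y1 - (x2 + k * b2) * d1 : ℤ) : ℚ) * r +
        ((-(b2 * x1) + (x2 + k * b2) * b1 : ℤ) : ℚ) = b2 / d1 := by
      rw [hr]
      push_cast
      field_simp
      linear_combination (b2 : ℚ) * h1'
    rw [e4, e5, hr']
    field_simp

/-- the integrals from equivalent cusps -/
theorem II_class (h : Param f L X) (hN : Squarefree N) {r r' : ℚ}
    (hg : Nat.gcd r.den N = Nat.gcd r'.den N) : II f r' - II f r ∈ L.lattice := by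
  obtain ⟨a, b, c, d, hdet, h0, hr⟩ := exists_class hN hg
  have := II_equiv h hdet r h0
  rwa [hr] at this

/-- the values at equivalent cusps -/
theorem value_class (h : Param f L X) (hN : Squarefree N) {r : ℚ} {x : ℂ}
    (hX : Tendsto X (Hor (r : ℂ)) (𝓝 x)) {r' : ℚ}
    (hg : Nat.gcd r.den N = Nat.gcd r'.den N) :
    II f r' ∉ L.lattice ∧ L.weierstrassP (II f r') = x := by
  obtain ⟨h1, h2⟩ := II_value h hX
  have h3 := II_class h hN hg
  constructor
  · intro h4
    apply h1
    have := sub_mem h4 h3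
    simpa using this
  · rw [← h2]
    have := L.weierstrassP_add_coe (II f r) ⟨II f r' - II f r, h3⟩
    simpa using this

/-- a map which multiplies the form by a constant -/
theorem F_mob {A B C D : ℝ} (hdet : 0 < A * D - B * C) {ε : ℂ}
    (hf : ∀ z : ℂ, 0 < z.im → ff f ((A * z + B) / (C * z + D)) * (A * D - B * C) =
      ε * (C * z + D) ^ 2 * ff f z) :
    ∃ p : ℂ, ∀ z : ℂ, 0 < z.im → F f ((A * z + B) / (C * z + D)) = ε * F f z + p := by
  obtain ⟨p, hp⟩ := const_of_deriv
    (g := fun z => F f ((A * z + B) / (C * z + D)) - ε * F f z)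
    fun z hz => by
      have h1 := gam_posR hdet hz
      have hcd : C ≠ 0 ∨ D ≠ 0 := by
        by_contra h
        push Not at h
        rw [h.1, h.2] at hdet
        simp at hdet
      have h0 : (C : ℂ) * z + D ≠ 0 := Pool.Agent.N974.MF.den_ne hcd hz
      have h3 := hasDerivAt_mob (A := A) (B := B) (C := C) (D := D) h0
      have h4 := (F_deriv f h1)
      have h2 := (h4.comp z h3).sub ((F_deriv f hz).const_mul ε)
      refine h2.congr_deriv ?_
      have := hf z hz
      set W := ff f ((A * z + B) / (C * z + D)) with hW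
      have e1 : ((A * D - B * C : ℝ) : ℂ) = A * D - B * C := by push_cast; rfl
      have e2 : ((C : ℂ) * z + D) ^ 2 * ((C * z + D) ^ 2)⁻¹ = 1 :=
        mul_inv_cancel₀ (pow_ne_zero 2 h0)
      rw [e1]
      linear_combination (2 * Real.pi * Complex.I * ((C * z + D) ^ 2)⁻¹) * this +
        (2 * Real.pi * Complex.I * ε * ff f z) * e2
  exact ⟨p, fun z hz => by rw [← hp z hz]; ring⟩

/-- the constant vanishes for an involution of sign `1` -/
theorem const_zero {m : ℂ → ℂ} {p : ℂ} (hF : ∀ z : ℂ, 0 < z.im → F f (m z) = F f z + p)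
    {z0 : ℂ} (hz : 0 < z0.im) (hm : m z0 = z0) : p = 0 := by
  have := hF z0 hz
  rw [hm] at this
  linear_combination -this

end Pool.Agent.N974.Gen
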