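import Pool.Agent.N974.MF.TORS

/-!
# Duplication on elliptic curves
-/

set_option autoImplicit false

namespace Pool.Agent.N974.Gen

open Pool.Agent.Helper487.ECM
open Pool.Agent.W349.MT (dwp_zero)

/-- duplication -/
theorem dup (L : PeriodPair) {u : ℂ}
    (hu : u ∉ L.lattice) {x s : ℂ} (hP : L.weierstrassP u = x)
    (hs : 4 * x ^ 3 - L.g₂ * x - L.g₃ = s) (hs0 : s ≠ 0) :
    2 * u ∉ L.lattice ∧ L.weierstrassP (2 * u) =
      -2 * x + (6 * x ^ 2 - L.g₂ / 2) ^ 2 / (4 * s) := by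
  have hu' : u ∈ Dom L := hu
  have hY1 : L.derivWeierstrassP u ^ 2 = s := by
    rw [L.derivWeierstrassP_sq u hu, hP, hs]
  have hY1ne : L.derivWeierstrassP u ≠ 0 := by
    intro h; rw [h] at hY1; exact hs0 (by rw [← hY1]; norm_num)
  have h2u : 2 * u ∉ L.lattice := fun h => hY1ne (dwp_zero L u h)
  have h2u' : u + u ∈ Dom L := by
    show u + u ∉ L.lattice
    rw [← two_mul]; exact h2u
  refine ⟨h2u, ?_⟩
  have h := wp_dup L hu' h2u' (by rw [wp_one_eq]; exact hY1ne)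
  rw [wp_two L hu', wp_one_eq, wp_zero_eq, hP, ← two_mul] at h
  rw [h, div_pow, mul_pow, hY1]
  ring

/-- points of order two -/
theorem two_tors (L : PeriodPair) {u : ℂ}
    (hu : u ∉ L.lattice) {x : ℂ} (hP : L.weierstrassP u = x)
    (hs : 4 * x ^ 3 - L.g₂ * x - L.g₃ = 0) : 2 * u ∈ L.lattice := by
  by_contra h6
  have h := Wg.wpd_ne L u h6
  apply h
  have hsq := L.derivWeierstrassP_sq _ hu
  rw [hP, hs] at hsq
  exact pow_eq_zero_iff (two_ne_zero) |>.1 hsq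

/-- the torsion points of 21a1 -/
theorem tors21 (L : PeriodPair) (g2 : L.g₂ = 193 / 12) (g3 : L.g₃ = 575 / 216) {u : ℂ}
    (hu : u ∉ L.lattice) :
    (L.weierstrassP u = 61 / 12 → 2 * u ∉ L.lattice ∧ L.weierstrassP (2 * u) = 25 / 12 ∧
      4 * u ∈ L.lattice) ∧
    (L.weierstrassP u = -11 / 12 → 2 * u ∉ L.lattice ∧ L.weierstrassP (2 * u) = 25 / 12 ∧
      4 * u ∈ L.lattice) ∧
    (L.weierstrassP u = -23 / 12 → 2 * u ∈ L.lattice) := by
  have four : 4 * u = 2 * (2 * u) := by ring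
  refine ⟨fun hP => ?_, fun hP => ?_, fun hP => ?_⟩
  · obtain ⟨h1, h2⟩ := dup L hu hP (s := 441) (by rw [g2, g3]; norm_num) (by norm_num)
    have h3 : L.weierstrassP (2 * u) = 25 / 12 := by rw [h2, g2]; norm_num
    exact ⟨h1, h3, by rw [four]; exact two_tors L h1 h3 (by rw [g2, g3]; norm_num)⟩
  · obtain ⟨h1, h2⟩ := dup L hu hP (s := 9) (by rw [g2, g3]; norm_num) (by norm_num)
    have h3 : L.weierstrassP (2 * u) = 25 / 12 := by rw [h2, g2]; norm_num
    exact ⟨h1, h3, by rw [four]; exact two_tors L h1 h3 (by rw [g2, g3]; norm_num)⟩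
  · exact two_tors L hu hP (by rw [g2, g3]; norm_num)

end Pool.Agent.N974.Gen
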