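import Pool.Agent.N974.Gen.Models
import Pool.Agent.N974.Gen.LfinE
import Pool.Agent.N974.Gen.Class
import Pool.Agent.N974.Gen.Tors
import Pool.Agent.N975.LatGen

/-!
# The odd symbol of level 21
-/

set_option autoImplicit false
set_option linter.unusedSectionVars false

open UpperHalfPlane MatrixGroups CongruenceSubgroup Filter Topology MeasureTheory Set

namespace Pool.Agent.N974.Gen

open Pool.Agent.W97.MT (ap affCount)
open Pool.Agent.Y687 (cnt cnt_eq)
open Pool.Agent.N974.MF (Hor)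

/-- the odd part of the integral symbol of `X_0(21)`, with the action of the group -/
structure Symb21 (s : ℚ → ℤ) (a : ℕ → ℤ) : Prop where
  per : ∀ x, s (x + 1) = s x
  neg : ∀ x, s (-x) = -s x
  hecke : ∀ q : ℕ, q.Prime → ¬ q ∣ 21 → ∀ x,
    a q * s x = s (q * x) + ∑ b ∈ Finset.range q, s ((x + b) / q)
  heckeU : ∀ q : ℕ, q.Prime → q ∣ 21 → ∀ x,
    a q * s x = ∑ b ∈ Finset.range q, s ((x + b) / q)
  aff : ∀ {A B C D : ℤ}, A * D - B * (21 * C) = 1 → ∀ r : ℚ, (21 : ℚ) * C * r + D ≠ 0 →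
    s ((A * r + B) / (21 * C * r + D)) = s r + s ((B : ℚ) / D)
  aff_inf : ∀ {A B C D : ℤ}, A * D - B * (21 * C) = 1 → C ≠ 0 →
    s ((A : ℚ) / (21 * C)) = s ((B : ℚ) / D)
  w21 : ∀ r : ℚ, r ≠ 0 → s (-1 / (21 * r)) = -s r
  w3 : ∀ r : ℚ, 21 * r - 9 ≠ 0 → s ((9 * r - 4) / (21 * r - 9)) = s (3 / 7) - s r
  even : ∀ r : ℚ, ¬ (3 : ℤ) ∣ r.den → ¬ (7 : ℤ) ∣ r.den → Even (s r)
  odd3 : ∀ r : ℚ, (3 : ℤ) ∣ r.den → ¬ (7 : ℤ) ∣ r.den → Odd (s r)
  odd7 : ∀ r : ℚ, ¬ (3 : ℤ) ∣ r.den → (7 : ℤ) ∣ r.den → Odd (s r)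
  even21 : ∀ r : ℚ, (3 : ℤ) ∣ r.den → (7 : ℤ) ∣ r.den → Even (s r)
  a2 : a 2 = -1
  a3 : a 3 = 1
  a5 : a 5 = -2
  a7 : a 7 = -1
  a11 : a 11 = 4
  a13 : a 13 = -2

/-- the greatest common divisor with `21` -/
theorem gcd21 (d d' : ℕ) (h3 : (3 : ℤ) ∣ d ↔ (3 : ℤ) ∣ d') (h7 : (7 : ℤ) ∣ d ↔ (7 : ℤ) ∣ d') :
    Nat.gcd d 21 = Nat.gcd d' 21 := by
  have h3' : 3 ∣ d ↔ 3 ∣ d' := by
    constructor
    · intro h; exact_mod_cast h3.1 (by exact_mod_cast h)
    · intro h; exact_mod_cast h3.2 (by exact_mod_cast h)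
  have h7' : 7 ∣ d ↔ 7 ∣ d' := by
    constructor
    · intro h; exact_mod_cast h7.1 (by exact_mod_cast h)
    · intro h; exact_mod_cast h7.2 (by exact_mod_cast h)
  have key : ∀ e : ℕ, Nat.gcd e 21 = (if 3 ∣ e then 3 else 1) * (if 7 ∣ e then 7 else 1) := by
    intro e
    have h1 : Nat.gcd e 21 = Nat.gcd (e % 21) 21 := by
      rw [Nat.gcd_comm, Nat.gcd_rec]
    have h2 : 3 ∣ e ↔ 3 ∣ e % 21 := by omega
    have h3 : 7 ∣ e ↔ 7 ∣ e % 21 := by omega
    rw [h1]
    simp only [h2, h3]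
    have h4 : e % 21 < 21 := Nat.mod_lt _ (by norm_num)
    generalize e % 21 = k at h4
    revert k
    decide
  rw [key, key]
  simp only [h3', h7']

variable {f : CuspForm (Gamma0 21 : Subgroup (GL (Fin 2) ℝ)) 2} {X : ℂ → ℂ}

/-- the imaginary parts of the integrals and the symbol -/
theorem exists_symb21 (h : Eigen f (fun p => ap E21 p))
    (hP : ∀ L : PeriodPair, L.g₂ = 193 / 12 → L.g₃ = 575 / 216 → Param f L X)
    (h0 : Tendsto X (Hor ((0 : ℚ) : ℂ)) (𝓝 (61 / 12)))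
    (h7 : Tendsto X (Hor ((1 / 7 : ℚ) : ℂ)) (𝓝 (-11 / 12)))
    (h3 : Tendsto X (Hor ((1 / 3 : ℚ) : ℂ)) (𝓝 (-23 / 12)))
    (hW21 : ∃ ε : ℂ, (ε = 1 ∨ ε = -1) ∧ ∃ p, ∀ z : ℂ, 0 < z.im → F f (-1 / (21 * z)) = ε * F f z + p)
    (hW3 : ∃ ε : ℂ, (ε = 1 ∨ ε = -1) ∧ ∃ p, ∀ z : ℂ, 0 < z.im →
      F f ((9 * z - 4) / (21 * z - 9)) = ε * F f z + p) :
    ∃ (s : ℚ → ℤ) (κ : ℝ), 0 < κ ∧ (∀ r : ℚ, (II f r).im = κ * s r) ∧
      Symb21 s (fun p => ap E21 p) := by
  obtain ⟨L, Op, Om, hOp, hOm, g2, g3, hL⟩ := Pool.Agent.N975.LatGen.lat21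
  have hp := hP L g2 g3
  have hsq : Squarefree 21 := by
    rw [show (21 : ℕ) = 3 * 7 by norm_num, Nat.squarefree_mul (by norm_num)]
    exact ⟨Nat.prime_three.squarefree, (by norm_num : Nat.Prime 7).squarefree⟩
  have k0 : ∀ r : ℚ, ¬ (3 : ℤ) ∣ r.den → ¬ (7 : ℤ) ∣ r.den → II f r ∉ L.lattice ∧
      2 * II f r ∉ L.lattice ∧ 4 * II f r ∈ L.lattice ∧ L.weierstrassP (II f r) = 61 / 12 ∧
      L.weierstrassP (2 * II f r) = 25 / 12 ∧ II f r - II f 0 ∈ L.lattice := by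
    intro r h3' h7'
    have hg : Nat.gcd (0 : ℚ).den 21 = Nat.gcd r.den 21 := gcd21 _ _ (by simp [h3']) (by simp [h7'])
    obtain ⟨e1, e2⟩ := value_class hp hsq h0 hg
    obtain ⟨e3, e4, e5⟩ := (tors21 L g2 g3 e1).1 e2
    exact ⟨e1, e3, e5, e2, e4, II_class hp hsq hg⟩
  have k7 : ∀ r : ℚ, ¬ (3 : ℤ) ∣ r.den → (7 : ℤ) ∣ r.den → II f r ∉ L.lattice ∧
      2 * II f r ∉ L.lattice ∧ 4 * II f r ∈ L.lattice ∧ L.weierstrassP (II f r) = -11 / 12 ∧
      L.weierstrassP (2 * II f r) = 25 / 12 := by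
    intro r h3' h7'
    have hg : Nat.gcd (1 / 7 : ℚ).den 21 = Nat.gcd r.den 21 :=
      gcd21 _ _ (by norm_num [h3']) (by norm_num [h7'])
    obtain ⟨e1, e2⟩ := value_class hp hsq h7 hg
    obtain ⟨e3, e4, e5⟩ := (tors21 L g2 g3 e1).2.1 e2
    exact ⟨e1, e3, e5, e2, e4⟩
  have k3 : ∀ r : ℚ, (3 : ℤ) ∣ r.den → ¬ (7 : ℤ) ∣ r.den → II f r ∉ L.lattice ∧
      2 * II f r ∈ L.lattice ∧ L.weierstrassP (II f r) = -23 / 12 := by
    intro r h3' h7'
    have hg : Nat.gcd (1 / 3 : ℚ).den 21 = Nat.gcd r.den 21 :=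
      gcd21 _ _ (by norm_num [h3']) (by norm_num [h7'])
    obtain ⟨e1, e2⟩ := value_class hp hsq h3 hg
    exact ⟨e1, (tors21 L g2 g3 e1).2.2 e2, e2⟩
  have k1 : ∀ r : ℚ, (3 : ℤ) ∣ r.den → (7 : ℤ) ∣ r.den → II f r ∈ L.lattice := by
    intro r h3' h7'
    exact II_inf hp r (by push_cast; omega)
  obtain ⟨z1, z2, z4, zw, zz, -⟩ := k0 0 (by simp) (by simp)
  have z0 := II_zero_im f h.real
  -- the real point of order four
  obtain ⟨m0, hm0, hm0odd⟩ : ∃ m0 : ℤ, 4 * II f 0 = m0 * Op ∧ Odd m0 := by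
    obtain ⟨a, b, hab⟩ := (hL _).1 z4
    have h1 := congrArg Complex.im hab
    have h2 : b = 0 := by
      simp [z0] at h1
      rcases h1 with h1 | h1
      · exact h1
      · exact absurd h1 hOm.ne'
    refine ⟨a, by rw [hab, h2]; simp, ?_⟩
    rw [← Int.not_even_iff_odd]
    rintro ⟨k, hk⟩
    apply z2
    refine (hL _).2 ⟨k, 0, ?_⟩
    have h3 : (4 : ℂ) * II f 0 = (k + k) * Op := by
      rw [hab, h2, hk]; push_cast; ring
    linear_combination (1 / 2 : ℂ) * h3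
  have mem_ofI : ∀ w : ℂ, w ∈ L.lattice → ∃ k : ℤ, w.im = k * Om := by
    intro w hw
    obtain ⟨a, b, hab⟩ := (hL w).1 hw
    exact ⟨b, by rw [hab]; simp⟩
  have mem_ofR : ∀ w : ℂ, w ∈ L.lattice → ∃ k : ℤ, w.re = k * Op := by
    intro w hw
    obtain ⟨a, b, hab⟩ := (hL w).1 hw
    exact ⟨a, by rw [hab]; simp⟩
  have two_diff : ∀ r : ℚ, ¬ (3 : ℤ) ∣ r.den → (7 : ℤ) ∣ r.den →
      2 * II f r - 2 * II f 0 ∈ L.lattice := by
    intro r h3' h7'
    obtain ⟨e1, e2, e4, ew, e5⟩ := k7 r h3' h7'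
    rcases Pool.Agent.W646.MT.s_inj L _ _ e2 z2 (by rw [e5, zz]) with h | h
    · exact h
    · have h6 := sub_mem h z4
      have : 2 * II f r + 2 * II f 0 - 4 * II f 0 = 2 * II f r - 2 * II f 0 := by ring
      rwa [this] at h6
  -- imaginary parts
  have him : ∀ r : ℚ, ∃ k : ℤ, (II f r).im = Om / 2 * k := by
    intro r
    by_cases h3' : (3 : ℤ) ∣ r.den
    · by_cases h7' : (7 : ℤ) ∣ r.den
      · obtain ⟨k, hk⟩ := mem_ofI _ (k1 r h3' h7')
        exact ⟨2 * k, by rw [hk]; push_cast; ring⟩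
      · obtain ⟨k, hk⟩ := mem_ofI _ (k3 r h3' h7').2.1
        refine ⟨k, ?_⟩
        have : (2 * II f r).im = 2 * (II f r).im := by simp
        rw [this] at hk
        linarith
    · by_cases h7' : (7 : ℤ) ∣ r.den
      · obtain ⟨k, hk⟩ := mem_ofI _ (two_diff r h3' h7')
        refine ⟨k, ?_⟩
        have : (2 * II f r - 2 * II f 0).im = 2 * (II f r).im := by simp [z0]
        rw [this] at hk
        linarith
      · obtain ⟨k, hk⟩ := mem_ofI _ (k0 r h3' h7').2.2.2.2.2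
        refine ⟨2 * k, ?_⟩
        rw [Complex.sub_im, z0, sub_zero] at hk
        rw [hk]; push_cast; ring
  choose s hs using him
  have hκ : Om / 2 ≠ 0 := by positivity
  have inj : ∀ x y : ℤ, Om / 2 * (x : ℝ) = Om / 2 * y → x = y := fun x y h => by
    exact_mod_cast mul_left_cancel₀ hκ h
  have G : SymbG 21 s (fun p => ap E21 p) := symbG_of_im h (by norm_num) hκ hs
  refine ⟨s, Om / 2, by positivity, hs, G.per, G.neg, G.hecke, G.heckeU, ?_, ?_, ?_, ?_, ?_, ?_, ?_,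
    ?_, ap21_2, ap21_3, ap21_5, ap21_7, ap21_11, ap21_13⟩
  · intro A B C D hdet r hr
    have := G.aff (A := A) (B := B) (C := C) (D := D) (by exact_mod_cast hdet) r (by exact_mod_cast hr)
    exact_mod_cast this
  · intro A B C D hdet hC
    have := G.aff_inf (A := A) (B := B) (C := C) (D := D) (by exact_mod_cast hdet) hC
    exact_mod_cast this
  · -- the Fricke involution
    intro r hr
    obtain ⟨ε, hε, p, hF⟩ := hW21
    have hdet : (0 : ℝ) < 0 * 0 - (-1) * 21 := by norm_num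
    have hF' : ∀ z : ℂ, 0 < z.im → F f ((((0 : ℝ) : ℂ) * z + ((-1 : ℝ) : ℂ)) /
        (((21 : ℝ) : ℂ) * z + ((0 : ℝ) : ℂ))) = ε * F f z + p := by
      intro z hz
      rw [← hF z hz]
      push_cast
      rw [zero_mul, zero_add, add_zero]
    have hp0 : II f 0 = p := mob_II_inf f hdet hF' 0 (by norm_num) (by norm_num)
    have hpole := mob_II_pole f hdet hF' 0 (by norm_num) (by norm_num)
    have hε1 : ε = -1 := by
      rcases hε with rfl | rfl
      · exfalso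
        apply z1
        have : (2 : ℂ) * II f 0 = 0 := by linear_combination hpole + hp0
        have h0' : II f 0 = 0 := by simpa using this
        rw [h0']
        exact zero_mem _
      · rfl
    have hr' : (r : ℝ) ≠ 0 := by exact_mod_cast hr
    have h4 := mob_II f hdet hF' r (-1 / (21 * r)) (by simpa using hr') (by
      push_cast
      field_simp
      ring)
    apply inj
    rw [← hs, h4, hε1, ← hp0]
    push_cast
    rw [mul_neg, ← hs, Complex.add_im, z0]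
    simp
  · -- the involution at `3`
    intro r hr
    obtain ⟨ε, hε, p, hF⟩ := hW3
    have hdet : (0 : ℝ) < 9 * (-9) - (-4) * 21 := by norm_num
    have hF' : ∀ z : ℂ, 0 < z.im → F f ((((9 : ℝ) : ℂ) * z + ((-4 : ℝ) : ℂ)) /
        (((21 : ℝ) : ℂ) * z + ((-9 : ℝ) : ℂ))) = ε * F f z + p := by
      intro z hz
      rw [← hF z hz]
      push_cast
      rw [← sub_eq_add_neg, ← sub_eq_add_neg]
    have hp0 : II f (3 / 7) = p := mob_II_inf f hdet hF' (3 / 7) (by norm_num) (by norm_num)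
    have hpole := mob_II_pole f hdet hF' (3 / 7) (by norm_num) (by norm_num)
    have hε1 : ε = -1 := by
      rcases hε with rfl | rfl
      · exfalso
        apply (k7 (3 / 7) (by norm_num) (by norm_num)).1
        have : (2 : ℂ) * II f (3 / 7) = 0 := by linear_combination hpole + hp0
        have h0' : II f (3 / 7) = 0 := by simpa using this
        rw [h0']
        exact zero_mem _
      · rfl
    have hr' : (21 * (r : ℝ) - 9) ≠ 0 := by exact_mod_cast hr
    have h4 := mob_II f hdet hF' r ((9 * r - 4) / (21 * r - 9)) (by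
      rw [← sub_eq_add_neg]; exact hr') (by
      push_cast
      rw [← sub_eq_add_neg, div_mul_cancel₀ _ hr']
      ring)
    apply inj
    rw [← hs, h4, hε1, ← hp0]
    push_cast
    rw [mul_sub, ← hs, ← hs, Complex.add_im]
    simp
    ring
  · -- prime to 21
    intro r h3' h7'
    obtain ⟨k, hk⟩ := mem_ofI _ (k0 r h3' h7').2.2.2.2.2
    refine ⟨k, ?_⟩
    apply inj
    rw [← hs]
    rw [Complex.sub_im, z0, sub_zero] at hk
    rw [hk]; push_cast; ring
  · -- divisible by 3 only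
    intro r h3' h7'
    rw [← Int.not_even_iff_odd]
    rintro ⟨k, hk⟩
    obtain ⟨e1, e2, ew⟩ := k3 r h3' h7'
    have hI : (II f r).im = k * Om := by
      have := hs r
      rw [hk] at this
      push_cast at this
      linarith
    obtain ⟨m, hm⟩ := mem_ofR _ e2
    have hre2 : 2 * (II f r).re = m * Op := by
      rw [← hm]; simp
    have er : II f r = k * Om * Complex.I + (m : ℂ) * Op / 2 := by
      apply Complex.ext
      · have : ((m : ℂ) * Op / 2) = ((m * Op / 2 : ℝ) : ℂ) := by push_cast; ring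
        rw [Complex.add_re, this, Complex.ofReal_re]
        simp
        linarith
      · have : ((m : ℂ) * Op / 2) = ((m * Op / 2 : ℝ) : ℂ) := by push_cast; ring
        rw [Complex.add_im, this, Complex.ofReal_im]
        simp [hI]
    have hmodd : Odd m := by
      rw [← Int.not_even_iff_odd]
      rintro ⟨l, hl⟩
      apply e1
      refine (hL _).2 ⟨l, k, ?_⟩
      rw [er, hl]; push_cast; ring
    obtain ⟨u, hu⟩ := hmodd
    obtain ⟨v, hv⟩ := hm0odd
    have h9 : II f r - 2 * II f 0 ∈ L.lattice := by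
      refine (hL _).2 ⟨u - v, k, ?_⟩
      have e0 : II f 0 = (m0 : ℂ) * Op / 4 := by linear_combination (1 / 4 : ℂ) * hm0
      rw [e0, er, hu, hv]; push_cast; ring
    have h8 : L.weierstrassP (II f r) = L.weierstrassP (2 * II f 0) := by
      have := L.weierstrassP_add_coe (2 * II f 0) ⟨II f r - 2 * II f 0, h9⟩
      rw [← this]
      congr 1
      simp
    rw [ew, zz] at h8
    norm_num at h8
  · -- divisible by 7 only
    intro r h3' h7'
    rw [← Int.not_even_iff_odd]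
    rintro ⟨k, hk⟩
    obtain ⟨e1, e2, e4, ew, -⟩ := k7 r h3' h7'
    -- the real translate
    have hI : (II f r).im = k * Om := by
      have := hs r
      rw [hk] at this
      push_cast at this
      linarith
    obtain ⟨m, hm'⟩ := mem_ofR _ e4
    have hm : 4 * (II f r).re = m * Op := by
      rw [← hm']; simp
    have hw0 : II f r = k * Om * Complex.I + (m : ℂ) * Op / 4 := by
      have e8 : ((m : ℂ) * Op / 4) = ((m * Op / 4 : ℝ) : ℂ) := by push_cast; ring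
      apply Complex.ext
      · rw [Complex.add_re, e8, Complex.ofReal_re]
        simp
        linarith
      · rw [Complex.add_im, e8, Complex.ofReal_im]
        simp [hI]
    have hmodd : Odd m := by
      rw [← Int.not_even_iff_odd]
      rintro ⟨l, hl⟩
      apply e2
      have h6 : 2 * II f r = 2 * (k * Om * Complex.I) + (l : ℂ) * Op := by
        rw [hw0, hl]; push_cast; ring
      rw [h6]
      exact (hL _).2 ⟨l, 2 * k, by push_cast; ring⟩
    have hpm : II f r - II f 0 ∈ L.lattice ∨ II f r + II f 0 ∈ L.lattice := by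
      have e0 : II f 0 = (m0 : ℂ) * Op / 4 := by linear_combination (1 / 4 : ℂ) * hm0
      obtain ⟨u, hu⟩ := hmodd
      obtain ⟨v, hv⟩ := hm0odd
      have h7 : (∃ l, m - m0 = 4 * l) ∨ ∃ l, m + m0 = 4 * l := by
        rcases Int.even_or_odd (u - v) with ⟨l, hl⟩ | ⟨l, hl⟩
        · left; exact ⟨l, by omega⟩
        · right; exact ⟨l + v + 1, by omega⟩
      rcases h7 with ⟨l, hl⟩ | ⟨l, hl⟩
      · left
        refine (hL _).2 ⟨l, k, ?_⟩
        have hl' : (m : ℂ) - m0 = 4 * l := by exact_mod_cast hl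
        rw [e0, hw0]
        linear_combination (Op / 4 : ℂ) * hl'
      · right
        refine (hL _).2 ⟨l, k, ?_⟩
        have hl' : (m : ℂ) + m0 = 4 * l := by exact_mod_cast hl
        rw [e0, hw0]
        linear_combination (Op / 4 : ℂ) * hl'
    have h8 : L.weierstrassP (II f r) = L.weierstrassP (II f 0) := by
      rcases hpm with h9 | h9
      · have := L.weierstrassP_add_coe (II f 0) ⟨II f r - II f 0, h9⟩
        rw [← this]
        congr 1
        simp
      · have := L.weierstrassP_add_coe (-II f 0) ⟨II f r + II f 0, h9⟩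
        rw [L.weierstrassP_neg] at this
        rw [← this]
        congr 1
        simp
    rw [ew, zw] at h8
    norm_num at h8
  · intro r h3' h7'
    obtain ⟨k, hk⟩ := mem_ofI _ (k1 r h3' h7')
    refine ⟨k, ?_⟩
    apply inj
    rw [← hs, hk]; push_cast; ring

/-- nonvanishing of the twists of level `21` by odd discriminants -/
theorem ne21O (h : Eigen f (fun p => ap E21 p)) {s : ℚ → ℤ} {κ : ℝ} (hκ : 0 < κ)
    (hs : ∀ r : ℚ, (II f r).im = κ * s r)
    (D : ℤ) (hsq : Squarefree D) (h1 : 1 < D.natAbs) (h4 : D % 4 = 1)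
    (hne : ∑ u ∈ N969.P15.un D.natAbs, jacobiSym u D.natAbs * s ((u : ℚ) / D.natAbs) ≠ 0) :
    ∃ F : ℂ → ℂ, Differentiable ℂ F ∧
      (∀ s : ℂ, (3 : ℝ) / 2 < s.re →
        HasProd (fun p : {p : ℕ // p.Prime ∧
            ¬ ((p : ℤ) ∣ 2 * (4 * (-5211 * D ^ 2) ^ 3 + 27 * (-31050 * D ^ 3) ^ 2))} =>
          Y687.fac (-5211 * D ^ 2) (-31050 * D ^ 3) s p) (F s)) ∧
      F 1 ≠ 0 :=
  exists_f_neO h (-5211) (-31050) disc21 bad21 (fun _ => good21) D hsq h1 h4 hs hκ.ne' hne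

/-- nonvanishing of the twists of level `21` by even discriminants -/
theorem ne21E (h : Eigen f (fun p => ap E21 p)) {s : ℚ → ℤ} {κ : ℝ} (hκ : 0 < κ)
    (hs : ∀ r : ℚ, (II f r).im = κ * s r) {n : ℕ} (hEv : N969.P15.Ev n)
    (hne : ∑ u ∈ N969.P15.un n, N969.P15.chE n u * s ((u : ℚ) / n) ≠ 0) :
    ∃ F : ℂ → ℂ, Differentiable ℂ F ∧
      (∀ s : ℂ, (3 : ℝ) / 2 < s.re →
        HasProd (fun p : {p : ℕ // p.Prime ∧
            ¬ ((p : ℤ) ∣ 2 * (4 * (-5211 * (-((n / 4 : ℕ) : ℤ)) ^ 2) ^ 3 +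
              27 * (-31050 * (-((n / 4 : ℕ) : ℤ)) ^ 3) ^ 2))} =>
          Y687.fac (-5211 * (-((n / 4 : ℕ) : ℤ)) ^ 2) (-31050 * (-((n / 4 : ℕ) : ℤ)) ^ 3) s p) (F s)) ∧
      F 1 ≠ 0 :=
  exists_f_neE h (-5211) (-31050) disc21 bad21 (fun _ => good21) hEv hs hκ.ne' hne

end Pool.Agent.N974.Gen
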