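import Pool.Agent.N974.Gen.New
import Pool.Agent.N974.MF.Mel

/-!
# The twisted `L`-functions for all primitive characters, by the Mellin transform
-/

set_option autoImplicit false
set_option linter.unusedSectionVars false
set_option linter.style.haveILetI false

open Complex Filter Topology Set UpperHalfPlane MatrixGroups CongruenceSubgroup ZMod MeasureTheory
  Asymptotics

namespace Pool.Agent.N974.Gen

open Pool.Agent.W440.TW Pool.Agent.W108.TW
open Pool.Agent.W97.MT (z_ne const_of_deriv iI iI_pos iI_eventually line_im qq tendsto_qq norm_qq)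
open Pool.Agent.N974.MF (bot_aux)

variable {N : ℕ} [NeZero N] (f : CuspForm (Gamma0 N : Subgroup (GL (Fin 2) ℝ)) 2)

/-- the form on the vertical line over `r` -/
noncomputable def vl (r : ℚ) (t : ℝ) : ℂ := ff f ((r : ℂ) + t * Complex.I)

lemma vl_cont (r : ℚ) : ContinuousOn (vl f r) (Ioi 0) :=
  (ff_cont f).comp (f := fun t : ℝ => (r : ℂ) + t * Complex.I) (s := Ioi 0) (by fun_prop)
    (fun u hu => by
      change 0 < ((r : ℂ) + u * Complex.I).im
      rw [line_im]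
      simpa using hu)

lemma vl_top (r : ℚ) : (vl f r) =O[atTop] fun t => Real.exp (-(2 * Real.pi) * t) := by
  obtain ⟨C, hC0, hC⟩ := ff_bound f (y := 1) one_pos
  refine IsBigO.of_bound C ?_
  filter_upwards [eventually_ge_atTop (1 : ℝ)] with t ht
  have him : ((r : ℂ) + t * Complex.I).im = t := by simp
  have h1 := hC ((r : ℂ) + t * Complex.I) (by rw [him]; exact ht)
  rw [him] at h1
  rw [Real.norm_of_nonneg (Real.exp_pos _).le]
  exact h1

lemma vl_bot (r : ℚ) (b : ℝ) : (vl f r) =O[𝓝[>] 0] fun t => t ^ (-b) := by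
  obtain ⟨A, B, C, D, hdet, hC0, hr, -, -⟩ := rat_bez r
  obtain ⟨k, hk, h1⟩ := exp_gen f hdet
  have hN := Npos (N := N)
  have hNr : (0 : ℝ) < N := by exact_mod_cast hN
  have hc' : (C : ℝ) ≠ 0 := by exact_mod_cast hC0
  set K : ℝ := (N : ℝ) * (C : ℝ) ^ 2 with hK
  have hK0 : 0 < K := by positivity
  have hb : ∀ᶠ w in iI, ‖k (qq w)‖ ≤ ‖k 0‖ + 1 := by
    have h2 : Tendsto (fun w : ℂ => ‖k (qq w)‖) iI (𝓝 ‖k 0‖) :=
      (hk.continuousAt.tendsto.comp tendsto_qq).norm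
    exact h2.eventually (eventually_le_nhds (by linarith))
  obtain ⟨T, hT, hkT⟩ := iI_eventually.1 hb
  refine IsBigO.trans ?_ (bot_aux hK0 b)
  refine IsBigO.of_bound (K * (‖k 0‖ + 1)) ?_
  have h0 : Tendsto (fun t : ℝ => (K * t)⁻¹) (𝓝[>] 0) atTop := by
    have e : (fun t : ℝ => (K * t)⁻¹) = fun t : ℝ => K⁻¹ * t⁻¹ := by
      ext t; rw [mul_inv]
    rw [e]
    exact tendsto_inv_nhdsGT_zero.const_mul_atTop (inv_pos.2 hK0)
  filter_upwards [self_mem_nhdsWithin, h0.eventually (eventually_gt_atTop T)] with t ht ht1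
  have ht0 : (0 : ℝ) < t := ht
  obtain ⟨w, hw, h4, -⟩ := ff_size f hdet hC0 h1 hr ht0
  unfold vl
  rw [h4, ← hK, norm_mul, norm_qq, hw]
  have h5 := hkT w (by rw [hw]; exact ht1)
  have e : -2 * Real.pi * ((N : ℝ) * (C : ℝ) ^ 2 * t)⁻¹ = -(2 * Real.pi) * (K * t)⁻¹ := by
    rw [hK]; ring
  rw [e, Real.norm_of_nonneg (by positivity : (0 : ℝ) ≤ (K * t)⁻¹ ^ 2 *
    Real.exp (-(2 * Real.pi) * (K * t)⁻¹))]
  calc K * ((K * t)⁻¹ ^ 2 * (Real.exp (-(2 * Real.pi) * (K * t)⁻¹) * ‖k (qq w)‖))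
      ≤ K * ((K * t)⁻¹ ^ 2 * (Real.exp (-(2 * Real.pi) * (K * t)⁻¹) * (‖k 0‖ + 1))) := by gcongr
    _ = K * (‖k 0‖ + 1) * ((K * t)⁻¹ ^ 2 * Real.exp (-(2 * Real.pi) * (K * t)⁻¹)) := by ring

/-- the weighted sum of the forms -/
noncomputable def Ph {q : ℕ} [NeZero q] (χ : DirichletCharacter ℂ q) (t : ℝ) : ℂ :=
  ∑ u : (ZMod q)ˣ, χ (u : ZMod q) * vl f (((u : ZMod q).val : ℚ) / q) t

section

variable {q : ℕ} [NeZero q] (χ : DirichletCharacter ℂ q)

lemma Ph_cont : ContinuousOn (Ph f χ) (Ioi 0) := by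
  unfold Ph
  exact continuousOn_finsetSum _ fun u _ => continuousOn_const.mul (vl_cont f _)

lemma Ph_top : (Ph f χ) =O[atTop] fun t => Real.exp (-(2 * Real.pi) * t) := by
  have h : (∑ u : (ZMod q)ˣ, fun t => χ (u : ZMod q) * vl f (((u : ZMod q).val : ℚ) / q) t)
      =O[atTop] fun t => Real.exp (-(2 * Real.pi) * t) :=
    IsBigO.sum fun u _ => (vl_top f _).const_mul_left _
  refine h.congr_left fun t => ?_
  rw [Finset.sum_apply]
  rfl

lemma Ph_bot (b : ℝ) : (Ph f χ) =O[𝓝[>] 0] fun t => t ^ (-b) := by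
  have h : (∑ u : (ZMod q)ˣ, fun t => χ (u : ZMod q) * vl f (((u : ZMod q).val : ℚ) / q) t)
      =O[𝓝[>] 0] fun t => t ^ (-b) :=
    IsBigO.sum fun u _ => (vl_bot f _ b).const_mul_left _
  refine h.congr_left fun t => ?_
  rw [Finset.sum_apply]
  rfl

lemma Ph_diff : Differentiable ℂ (mellin (Ph f χ)) := fun s =>
  mellin_differentiableAt_of_isBigO_rpow_exp (a := 2 * Real.pi) (b := s.re - 1) (by positivity)
    ((Ph_cont f χ).locallyIntegrableOn measurableSet_Ioi) (Ph_top f χ) (Ph_bot f χ _) (by linarith)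

/-- the expansion -/
lemma Ph_hasSum (hχ : χ.IsPrimitive) {t : ℝ} (ht : 0 < t) :
    HasSum (fun n : ℕ => gaussSum χ (stdAddChar (N := q)) * (χ⁻¹ (n : ZMod q) * cf f n) *
      (Real.exp (-(2 * Real.pi * n) * t) : ℂ)) (Ph f χ t) := by
  have hq : (q : ℂ) ≠ 0 := Nat.cast_ne_zero.2 (NeZero.ne q)
  have h1 : ∀ u : (ZMod q)ˣ, HasSum (fun n : ℕ => χ (u : ZMod q) * (cf f n *
      (stdAddChar ((u : ZMod q) * (n : ZMod q)) * (Real.exp (-(2 * Real.pi * n) * t) : ℂ))))
      (χ (u : ZMod q) * vl f (((u : ZMod q).val : ℚ) / q) t) := by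
    intro u
    have him : 0 < (((((u : ZMod q).val : ℚ) / q : ℚ) : ℂ) + t * Complex.I).im := by simpa using ht
    have h2 := Pool.Agent.W97.TW.hasSum_f f him
    refine HasSum.mul_left _ ?_
    unfold vl
    refine h2.congr_fun fun n => ?_
    change _ = cf f n * _
    congr 1
    have h3 : ((u : ZMod q) * (n : ZMod q)) = ((((u : ZMod q).val : ℤ) * n : ℤ) : ZMod q) := by
      push_cast
      rw [ZMod.natCast_zmod_val]
    rw [h3, stdAddChar_coe, Complex.ofReal_exp, ← Complex.exp_add]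
    congr 1
    push_cast
    have e : 2 * (Real.pi : ℂ) * Complex.I * n * (((u : ZMod q).val : ℂ) / q + t * Complex.I) =
        2 * Real.pi * Complex.I * (((u : ZMod q).val : ℂ) * n) / q + -(2 * Real.pi * n) * t +
          2 * Real.pi * n * t * (Complex.I ^ 2 + 1) := by
      field_simp
      ring
    rw [e, Complex.I_sq]
    ring
  have h2 := hasSum_sum (s := Finset.univ) fun u _ => h1 u
  unfold Ph
  refine h2.congr_fun fun n => ?_
  have h3 := gaussSum_mulShift_of_isPrimitive (stdAddChar (N := q)) hχ (n : ZMod q)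
  have h4 : gaussSum χ (stdAddChar.mulShift (n : ZMod q)) =
      ∑ u : (ZMod q)ˣ, χ (u : ZMod q) * stdAddChar ((n : ZMod q) * (u : ZMod q)) := by
    unfold gaussSum
    simp only [AddChar.mulShift_apply]
    symm
    apply Finset.sum_of_injOn (fun u : (ZMod q)ˣ => (u : ZMod q))
    · intro a _ b _ hab
      exact Units.ext hab
    · intro a _
      simp
    · intro a _ ha
      rw [MulChar.map_nonunit _ (fun hu => ha ⟨hu.unit, by simp, by simp⟩), zero_mul]
    · intro a _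
      rfl
  rw [h4] at h3
  have h5 : gaussSum χ (stdAddChar (N := q)) * (χ⁻¹ (n : ZMod q) * cf f n) *
      (Real.exp (-(2 * Real.pi * n) * t) : ℂ) =
      (χ⁻¹ (n : ZMod q) * gaussSum χ (stdAddChar (N := q))) *
      (cf f n * (Real.exp (-(2 * Real.pi * n) * t) : ℂ)) := by ring
  rw [h5, ← h3, Finset.sum_mul]
  apply Finset.sum_congr rfl
  intro u _
  rw [mul_comm (n : ZMod q)]
  ring

lemma Ph_mellin {a : ℕ → ℤ} (h : Eigen f a) (hχ : χ.IsPrimitive) {s : ℂ} (hs : 3 / 2 < s.re) :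
    mellin (Ph f χ) s = Complex.Gamma s * (2 * Real.pi : ℂ) ^ (-s) *
      (gaussSum χ (stdAddChar (N := q)) * ∑' n : ℕ, cf f n * χ⁻¹ n * (n : ℂ) ^ (-s)) := by
  have hpi := Real.pi_pos
  have h1 := hasSum_mellin (a := fun n : ℕ => gaussSum χ (stdAddChar (N := q)) *
      (χ⁻¹ (n : ZMod q) * cf f n)) (p := fun n : ℕ => 2 * Real.pi * n) (F := Ph f χ) (s := s)
    (fun n => by
      rcases Nat.eq_zero_or_pos n with rfl | hn
      · left
        simp only [cf_zero f]
        ring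
      · right
        have : (0 : ℝ) < n := by exact_mod_cast hn
        positivity) (by linarith) (fun t ht => Ph_hasSum f χ hχ ht) ?_
  · rw [← h1.tsum_eq, ← tsum_mul_left, ← tsum_mul_left]
    refine tsum_congr fun n => ?_
    rcases Nat.eq_zero_or_pos n with rfl | hn
    · simp [cf_zero f]
    · have hn' : (0 : ℝ) < n := by exact_mod_cast hn
      have e : ((2 * Real.pi * n : ℝ) : ℂ) ^ s = (2 * Real.pi : ℂ) ^ s * (n : ℂ) ^ s := by
        have : ((2 * Real.pi * n : ℝ) : ℂ) = ((2 * Real.pi : ℝ) : ℂ) * ((n : ℝ) : ℂ) := by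
          push_cast; ring
        rw [this, Complex.mul_cpow_ofReal_nonneg (by positivity) hn'.le]
        push_cast
        rfl
      rw [e, Complex.cpow_neg, Complex.cpow_neg]
      have h2 : ((2 * Real.pi : ℂ)) ^ s ≠ 0 := by
        rw [Ne, Complex.cpow_eq_zero_iff]
        rintro ⟨h', -⟩
        have : (Real.pi : ℂ) = 0 := by simpa using h'
        exact hpi.ne' (by exact_mod_cast this)
      have h3 : ((n : ℂ)) ^ s ≠ 0 := by
        rw [Ne, Complex.cpow_eq_zero_iff]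
        rintro ⟨h', -⟩
        exact hn.ne' (by exact_mod_cast h')
      field_simp
  · -- summability
    have h2 := (cf_summable h χ⁻¹ s hs).mul_left
      (‖gaussSum χ (stdAddChar (N := q))‖ * (2 * Real.pi) ^ (-s.re))
    refine h2.congr fun n => ?_
    rcases Nat.eq_zero_or_pos n with rfl | hn
    · simp [cf_zero f]
    · have hn' : (0 : ℝ) < n := by exact_mod_cast hn
      rw [norm_mul, norm_mul, norm_mul, norm_mul, Real.mul_rpow (by positivity) hn'.le]
      have h3 : ‖(n : ℂ) ^ (-s)‖ = (n : ℝ) ^ (-s.re) := by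
        rw [← Complex.ofReal_natCast, Complex.norm_cpow_eq_rpow_re_of_pos hn']
        simp
      rw [h3, Real.rpow_neg (by positivity), Real.rpow_neg hn'.le]
      field_simp

/-- the central value -/
lemma Ph_center : 2 * Real.pi * mellin (Ph f χ) 1 =
    ∑ u : (ZMod q)ˣ, χ (u : ZMod q) * II f (((u : ZMod q).val : ℚ) / q) := by
  have hint : ∀ r : ℚ, IntegrableOn (vl f r) (Ioi 0) := int_rat f
  have h1 : mellin (Ph f χ) 1 = ∫ t in Ioi (0 : ℝ), Ph f χ t := by
    unfold mellin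
    refine setIntegral_congr_fun measurableSet_Ioi fun t ht => ?_
    simp
  rw [h1]
  unfold Ph
  rw [integral_finsetSum _ (fun u _ => (hint _).const_mul _), Finset.mul_sum]
  refine Finset.sum_congr rfl fun u _ => ?_
  rw [integral_const_mul]
  unfold II vl
  ring

end

/-- the twisted `L`-function, all primitive characters -/
theorem exists_L_all {a : ℕ → ℤ} (h : Eigen f a) {q : ℕ} [NeZero q] (χ : DirichletCharacter ℂ q)
    (hχ : χ.IsPrimitive) :
    ∃ g : ℂ → ℂ, Differentiable ℂ g ∧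
      (∀ s : ℂ, 3 / 2 < s.re → HasProd (fun p : Nat.Primes =>
        (1 - (a p : ℂ) * χ p * (p : ℂ) ^ (-s) +
          (if (p : ℕ) ∣ N then 0 else (p : ℂ)) * (χ p) ^ 2 * (p : ℂ) ^ (-2 * s))⁻¹) (g s)) ∧
      gaussSum χ⁻¹ (stdAddChar (N := q)) * g 1 =
        ∑ u : (ZMod q)ˣ, χ⁻¹ (u : ZMod q) * II f (((u : ZMod q).val : ℚ) / q) := by
  have hpi := Real.pi_pos
  have h2pi : (2 * Real.pi : ℂ) ≠ 0 := by
    have : (Real.pi : ℂ) ≠ 0 := by exact_mod_cast hpi.ne'
    simpa using this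
  have hχi := inv_primitive χ hχ
  have hg0 : gaussSum χ⁻¹ (stdAddChar (N := q)) ≠ 0 := gauss_ne_zero χ⁻¹ hχi
  refine ⟨fun s => (gaussSum χ⁻¹ (stdAddChar (N := q)))⁻¹ * ((2 * Real.pi : ℂ) ^ s *
    ((Complex.Gamma s)⁻¹ * mellin (Ph f χ⁻¹) s)), ?_, ?_, ?_⟩
  · refine (Differentiable.mul ?_ (Complex.differentiable_one_div_Gamma.mul
      (Ph_diff f χ⁻¹))).const_mul _
    exact Differentiable.const_cpow differentiable_id (Or.inl h2pi)
  · intro s hs
    have h1 := cf_euler h χ s hs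
    have hG : Complex.Gamma s ≠ 0 := by
      refine Complex.Gamma_ne_zero_of_re_pos ?_
      linarith
    have h3 : (2 * Real.pi : ℂ) ^ s ≠ 0 := by
      rw [Ne, Complex.cpow_eq_zero_iff]
      rintro ⟨h', -⟩
      exact h2pi h'
    have h2 : (gaussSum χ⁻¹ (stdAddChar (N := q)))⁻¹ * ((2 * Real.pi : ℂ) ^ s *
        ((Complex.Gamma s)⁻¹ * mellin (Ph f χ⁻¹) s)) = ∑' n : ℕ, cf f n * χ n * (n : ℂ) ^ (-s) := by
      rw [Ph_mellin f χ⁻¹ h hχi hs, inv_inv, Complex.cpow_neg]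
      field_simp
    show HasProd _ ((gaussSum χ⁻¹ (stdAddChar (N := q)))⁻¹ * ((2 * Real.pi : ℂ) ^ s *
        ((Complex.Gamma s)⁻¹ * mellin (Ph f χ⁻¹) s)))
    rw [h2]
    exact h1
  · show gaussSum χ⁻¹ (stdAddChar (N := q)) * ((gaussSum χ⁻¹ (stdAddChar (N := q)))⁻¹ *
      ((2 * Real.pi : ℂ) ^ (1 : ℂ) * ((Complex.Gamma 1)⁻¹ * mellin (Ph f χ⁻¹) 1))) = _
    rw [← mul_assoc, mul_inv_cancel₀ hg0, one_mul, Complex.cpow_one, Complex.Gamma_one, inv_one,
      one_mul]
    exact Ph_center f χ⁻¹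

end Pool.Agent.N974.Gen
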