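import Pool.Agent.N974.Gen.Pts

/-!
# The curves of level 17 and 21
-/

set_option autoImplicit false

open Finset

namespace Pool.Agent.N974.Gen

open Pool.Agent.W97.MT (ap affCount)
open Pool.Agent.Y687 (cnt cnt_eq)

/-- the curve 17a1 -/
def E17 : WeierstrassCurve ℤ := ⟨1, -1, 1, -1, -14⟩

/-- the curve 21a1 -/
def E21 : WeierstrassCurve ℤ := ⟨1, 0, 0, -4, -1⟩

/-- 17a1 and its isogenous curve `y ^ 2 = x (x + 1) (x - 16)` in short form have the same numbers of
points -/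
theorem cnt17 {p : ℕ} (hpp : p.Prime) (hp : p ≠ 2) :
    (p : ℤ) - cnt (-91) (-330) p = ap E17 p := by
  have : Fact p.Prime := ⟨hpp⟩
  have n2 := two_ne hp
  have n4 : (4 : ZMod p) ≠ 0 := by
    rw [show (4 : ZMod p) = 2 * 2 by norm_num]
    exact mul_ne_zero n2 n2
  have n16 : (-16 : ZMod p) ≠ 0 := by
    rw [show (-16 : ZMod p) = -(4 * 4) by norm_num]
    exact neg_ne_zero.2 (mul_ne_zero n4 n4)
  have h1 : (p : ℤ) - cnt (-11) (-890) p = ap E17 p :=
    ap_short hp E17 (-11) (-890) (m := 4) (t := -1) (u := 4) n4 n4 (by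
      intro x
      simp only [E17, WeierstrassCurve.b₂, WeierstrassCurve.b₄, WeierstrassCurve.b₆]
      push_cast
      ring)
  rw [← h1, cnt_eq _ _ p hp, cnt_eq _ _ p hp]
  congr 1
  have h2 := char_isog hp (a := (-15 : ZMod p)) (b := -16) n16
  have h3 := char_aff hp (g := fun x : ZMod p => x * (x ^ 2 + (-15) * x + (-16)))
    (k := fun x : ZMod p => x ^ 3 + ((-91 : ℤ) : ZMod p) * x + ((-330 : ℤ) : ZMod p))
    (m := 1) (t := -5) (u := 1) one_ne_zero one_ne_zero (by intro x; push_cast; ring)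
  have h4 := char_aff hp
    (g := fun x : ZMod p => x * (x ^ 2 - 2 * (-15) * x + ((-15) ^ 2 - 4 * (-16))))
    (k := fun x : ZMod p => x ^ 3 + ((-11 : ℤ) : ZMod p) * x + ((-890 : ℤ) : ZMod p))
    (m := 1) (t := 10) (u := 1) one_ne_zero one_ne_zero (by intro x; push_cast; ring)
  rw [← h3, ← h4]
  exact h2

/-- the short form of 21a1 -/
theorem cnt21 {p : ℕ} (hpp : p.Prime) (hp : p ≠ 2) (h3 : p ≠ 3) :
    (p : ℤ) - cnt (-5211) (-31050) p = ap E21 p := by
  have : Fact p.Prime := ⟨hpp⟩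
  have n2 := two_ne hp
  have n3 : (3 : ZMod p) ≠ 0 := by
    intro h
    have : ((3 : ℕ) : ZMod p) = 0 := by exact_mod_cast h
    rw [ZMod.natCast_eq_zero_iff] at this
    exact h3 ((Nat.prime_dvd_prime_iff_eq hpp Nat.prime_three).1 this)
  have n36 : (36 : ZMod p) ≠ 0 := by
    rw [show (36 : ZMod p) = 2 ^ 2 * 3 ^ 2 by norm_num]
    exact mul_ne_zero (pow_ne_zero 2 n2) (pow_ne_zero 2 n3)
  have n108 : (108 : ZMod p) ≠ 0 := by
    rw [show (108 : ZMod p) = 2 ^ 2 * 3 ^ 3 by norm_num]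
    exact mul_ne_zero (pow_ne_zero 2 n2) (pow_ne_zero 3 n3)
  exact ap_short hp E21 (-5211) (-31050) (m := 36) (t := 3) (u := 108) n36 n108 (by
      intro x
      simp only [E21, WeierstrassCurve.b₂, WeierstrassCurve.b₄, WeierstrassCurve.b₆]
      push_cast
      ring)

/-- the number of affine points as a finite count -/
theorem aff_eq (W : WeierstrassCurve ℤ) (p : ℕ) [NeZero p] : affCount W p =
    (Finset.univ.filter (fun P : ZMod p × ZMod p => P.2 ^ 2 + (W.a₁ : ZMod p) * P.1 * P.2 +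
      (W.a₃ : ZMod p) * P.2 = P.1 ^ 3 + (W.a₂ : ZMod p) * P.1 ^ 2 + (W.a₄ : ZMod p) * P.1 +
      (W.a₆ : ZMod p))).card := by
  unfold affCount
  rw [← Fintype.card_subtype, ← Nat.card_eq_fintype_card]
  refine Nat.card_congr (Equiv.subtypeEquivRight fun P => ?_)
  rw [WeierstrassCurve.Affine.equation_iff]
  simp only [WeierstrassCurve.map, eq_intCast]

theorem ap17_2 : ap E17 2 = -1 := by
  have h : affCount E17 2 = 3 := by rw [aff_eq]; decide
  unfold ap
  rw [h]
  norm_num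

theorem ap17_3 : ap E17 3 = 0 := by
  have h : affCount E17 3 = 3 := by rw [aff_eq]; decide
  unfold ap
  rw [h]
  norm_num

theorem ap17_17 : ap E17 17 = 1 := by
  have h : affCount E17 17 = 16 := by rw [aff_eq]; decide +kernel
  unfold ap
  rw [h]
  norm_num

theorem ap21_2 : ap E21 2 = -1 := by
  have h : affCount E21 2 = 3 := by rw [aff_eq]; decide
  unfold ap
  rw [h]
  norm_num

theorem ap21_3 : ap E21 3 = 1 := by
  have h : affCount E21 3 = 2 := by rw [aff_eq]; decide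
  unfold ap
  rw [h]
  norm_num

theorem ap21_5 : ap E21 5 = -2 := by
  have h : affCount E21 5 = 7 := by rw [aff_eq]; decide
  unfold ap
  rw [h]
  norm_num

theorem ap21_7 : ap E21 7 = -1 := by
  have h : affCount E21 7 = 8 := by rw [aff_eq]; decide +kernel
  unfold ap
  rw [h]
  norm_num

theorem ap21_11 : ap E21 11 = 4 := by
  have h : affCount E21 11 = 7 := by rw [aff_eq]; decide +kernel
  unfold ap
  rw [h]
  norm_num

theorem ap21_13 : ap E21 13 = -2 := by
  have h : affCount E21 13 = 15 := by rw [aff_eq]; decide +kernel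
  unfold ap
  rw [h]
  norm_num

theorem disc17 : 4 * (-91 : ℤ) ^ 3 + 27 * (-330) ^ 2 ≠ 0 := by norm_num

theorem disc21 : 4 * (-5211 : ℤ) ^ 3 + 27 * (-31050) ^ 2 ≠ 0 := by norm_num

theorem bad17 (p : ℕ) (hp : p.Prime) (h : p ∣ 17) :
    (p : ℤ) ∣ 2 * (4 * (-91 : ℤ) ^ 3 + 27 * (-330) ^ 2) := by
  have := (Nat.prime_dvd_prime_iff_eq hp (by norm_num : Nat.Prime 17)).1 h
  subst this
  norm_num

theorem bad21 (p : ℕ) (hp : p.Prime) (h : p ∣ 21) :
    (p : ℤ) ∣ 2 * (4 * (-5211 : ℤ) ^ 3 + 27 * (-31050) ^ 2) := by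
  have h1 : p ∣ 3 * 7 := by simpa using h
  rcases (Nat.Prime.dvd_mul hp).1 h1 with h2 | h2
  · have := (Nat.prime_dvd_prime_iff_eq hp Nat.prime_three).1 h2
    subst this
    norm_num
  · have := (Nat.prime_dvd_prime_iff_eq hp (by norm_num : Nat.Prime 7)).1 h2
    subst this
    norm_num

/-- the primes which are good for the model are different from `2` -/
theorem good17 {p : ℕ} (hpp : p.Prime)
    (h : ¬ (p : ℤ) ∣ 2 * (4 * (-91 : ℤ) ^ 3 + 27 * (-330) ^ 2)) :
    (p : ℤ) - cnt (-91) (-330) p = ap E17 p := by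
  refine cnt17 hpp ?_
  rintro rfl
  exact h (dvd_mul_right _ _)

theorem good21 {p : ℕ} (hpp : p.Prime)
    (h : ¬ (p : ℤ) ∣ 2 * (4 * (-5211 : ℤ) ^ 3 + 27 * (-31050) ^ 2)) :
    (p : ℤ) - cnt (-5211) (-31050) p = ap E21 p := by
  refine cnt21 hpp ?_ ?_
  · rintro rfl
    exact h (dvd_mul_right _ _)
  · rintro rfl
    exact h (by norm_num)

end Pool.Agent.N974.Gen
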