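import Pool.Agent.N974.Gen.Act
import Pool.Agent.N974.MF.Lval

/-!
# The coefficients of an eigenform of weight two with integral eigenvalues
-/

set_option autoImplicit false
set_option linter.unusedSectionVars false
set_option linter.style.haveILetI false

open Complex Filter Topology Set UpperHalfPlane MatrixGroups CongruenceSubgroup ZMod
open scoped ModularForm Pointwise

namespace Pool.Agent.N974.Gen

open Pool.Agent.W97.TW
open Pool.Agent.N974.MF (euler_prod)

variable {N : ℕ} [NeZero N] (f : CuspForm (Gamma0 N : Subgroup (GL (Fin 2) ℝ)) 2)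

/-- an eigenform with the eigenvalues `a p` -/
structure Eigen (a : ℕ → ℤ) : Prop where
  one : (qExpansion 1 f).coeff 1 = 1
  hecke : ∀ p : ℕ, p.Prime → ∀ z : ℍ, heckeT N 2 p f z = (a p : ℂ) * f z
  good : ∀ p : ℕ, p.Prime → ¬ p ∣ N → |((a p : ℤ) : ℝ)| ≤ 2 * Real.sqrt p
  bad : ∀ p : ℕ, p.Prime → p ∣ N → |((a p : ℤ) : ℝ)| ≤ 1

/-- the coefficients -/
noncomputable def cf (n : ℕ) : ℂ := (qExpansion 1 f).coeff n

theorem cf_zero : cf f 0 = 0 := A_zero f

section eigen

variable {f} {a : ℕ → ℤ} (h : Eigen f a)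
include h

theorem Eigen.hecke' (p : ℕ) (hp : p.Prime) (z : ℍ) :
    Pool.Agent.W97.MT.hecke N p f z = (a p : ℂ) * f z := by
  rw [← h.hecke p hp z]
  unfold Pool.Agent.W97.MT.hecke heckeT
  norm_num

/-- the Hecke relation at `p` -/
theorem rec' (p : ℕ) (hp : p.Prime) (m : ℕ) :
    cf f (p * m) = (a p : ℂ) * cf f m - (if p ∣ N then 0 else
        (p : ℂ) * (if p ∣ m then cf f (m / p) else 0)) := by
  have h1 := hecke_rec f hp.pos (h.hecke p hp) m
  unfold B A at h1
  have e : (p : ℂ) ^ ((2 : ℤ) - 1) = p := by norm_num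
  rw [e] at h1
  unfold cf
  rw [← h1]
  split_ifs <;> ring

theorem cf_one : cf f 1 = 1 := h.one

theorem cf_prime (p : ℕ) (hp : p.Prime) : cf f p = (a p : ℂ) := by
  have h1 := rec' h p hp 1
  have h2 : ¬ p ∣ 1 := fun h => hp.one_lt.ne' (Nat.dvd_one.1 h)
  rw [mul_one, cf_one h, if_neg h2, mul_zero, mul_one, ite_self, sub_zero] at h1
  exact h1

theorem rec (p : ℕ) (hp : p.Prime) (m : ℕ) :
    cf f (p * m) = cf f p * cf f m - (if p ∣ N then 0 else
        (p : ℂ) * (if p ∣ m then cf f (m / p) else 0)) := by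
  rw [cf_prime h p hp, rec' h p hp m]

theorem cf_int (n : ℕ) : ∃ c : ℤ, cf f n = (c : ℂ) := by
  induction n using Nat.strong_induction_on with
  | _ n ih =>
    rcases Nat.eq_zero_or_pos n with rfl | hn
    · exact ⟨0, by rw [cf_zero]; simp⟩
    by_cases hn1 : n = 1
    · exact ⟨1, by rw [hn1, cf_one h]; simp⟩
    set p := n.minFac with hp
    have hpp : p.Prime := Nat.minFac_prime hn1
    obtain ⟨m, hm⟩ : p ∣ n := Nat.minFac_dvd n
    have hm0 : 0 < m := Nat.pos_of_ne_zero fun h0 => by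
      rw [h0, mul_zero] at hm
      omega
    have hmn : m < n := by
      rw [hm]
      have := hpp.one_lt
      nlinarith
    obtain ⟨c, hc⟩ := ih m hmn
    obtain ⟨d, hd⟩ := ih (m / p) (lt_of_le_of_lt (Nat.div_le_self _ _) hmn)
    rw [hm, rec' h p hpp m, hc, hd]
    refine ⟨a p * c - (if p ∣ N then 0 else p * (if p ∣ m then d else 0)), ?_⟩
    push_cast
    rfl

theorem Eigen.real : RealCoef f := by
  intro n
  obtain ⟨c, hc⟩ := cf_int h n
  unfold cf at hc
  rw [hc]
  simp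

theorem cf_re (n : ℕ) : cf f n = (((cf f n).re : ℝ) : ℂ) := by
  obtain ⟨c, hc⟩ := cf_int h n
  rw [hc]
  simp

theorem rec_pow (p : ℕ) (hp : p.Prime) (m : ℕ) (hm : ¬ p ∣ m) (j : ℕ) :
    cf f (p ^ j * m) = cf f (p ^ j) * cf f m := by
  induction j using Nat.strong_induction_on with
  | _ j ih =>
    match j with
    | 0 => rw [pow_zero, one_mul, cf_one h, one_mul]
    | 1 =>
      rw [pow_one, rec h p hp m, if_neg hm]
      split_ifs <;> ring
    | j + 2 =>
      have e1 : p ^ (j + 2) * m = p * (p ^ (j + 1) * m) := by ring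
      have e2 : p ^ (j + 2) = p * p ^ (j + 1) := by ring
      have d1 : p ∣ p ^ (j + 1) * m := Dvd.dvd.mul_right (dvd_pow_self p (by omega)) m
      have d2 : p ∣ p ^ (j + 1) := dvd_pow_self p (by omega)
      have q1 : p ^ (j + 1) * m / p = p ^ j * m := by
        rw [show p ^ (j + 1) * m = p * (p ^ j * m) by ring, Nat.mul_div_cancel_left _ hp.pos]
      have q2 : p ^ (j + 1) / p = p ^ j := by
        rw [show p ^ (j + 1) = p * p ^ j by ring, Nat.mul_div_cancel_left _ hp.pos]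
      rw [e1, e2, rec h p hp (p ^ (j + 1) * m), rec h p hp (p ^ (j + 1)), if_pos d1, if_pos d2, q1,
        q2, ih (j + 1) (by omega), ih j (by omega)]
      split_ifs <;> ring

theorem cf_mul (m n : ℕ) (hc : Nat.Coprime m n) : cf f (m * n) = cf f m * cf f n := by
  induction m using Nat.strong_induction_on generalizing n with
  | _ m ih =>
    rcases Nat.eq_zero_or_pos m with rfl | hm
    · have hn : n = 1 := by simpa using hc
      subst hn
      rw [mul_one, cf_one h, mul_one]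
    by_cases hm1 : m = 1
    · subst hm1
      rw [one_mul, cf_one h, one_mul]
    set p := m.minFac with hp
    have hpp : p.Prime := Nat.minFac_prime hm1
    obtain ⟨j, m', hm', he⟩ := Nat.exists_eq_pow_mul_and_not_dvd hm.ne' p hpp.ne_one
    have hj : j ≠ 0 := by
      rintro rfl
      rw [pow_zero, one_mul] at he
      exact hm' (he ▸ Nat.minFac_dvd m)
    have hpn : ¬ p ∣ n := by
      intro hd
      have := Nat.dvd_gcd (Nat.minFac_dvd m) hd
      rw [hc] at this
      exact hpp.one_lt.ne' (Nat.dvd_one.1 this)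
    have hm'0 : 0 < m' := Nat.pos_of_ne_zero fun h0 => hm' (h0 ▸ dvd_zero p)
    have hlt : m' < m := by
      rw [he]
      have : 1 < p ^ j := Nat.one_lt_pow hj hpp.one_lt
      nlinarith
    have hc' : Nat.Coprime m' n := Nat.Coprime.coprime_dvd_left (he ▸ Dvd.intro_left _ rfl) hc
    have hnd : ¬ p ∣ m' * n := by
      intro hd
      rcases (Nat.Prime.dvd_mul hpp).1 hd with h2 | h2
      · exact hm' h2
      · exact hpn h2
    rw [he, mul_assoc, rec_pow h p hpp (m' * n) hnd j, rec_pow h p hpp m' hm' j, ih m' hlt n hc']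
    ring

theorem cf_pow (p j : ℕ) (hp : p.Prime) : cf f (p ^ (j + 2)) =
    cf f p * cf f (p ^ (j + 1)) - (if p ∣ N then 0 else (p : ℂ) * cf f (p ^ j)) := by
  have e2 : p ^ (j + 2) = p * p ^ (j + 1) := by ring
  have d2 : p ∣ p ^ (j + 1) := dvd_pow_self p (by omega)
  have q2 : p ^ (j + 1) / p = p ^ j := by
    rw [show p ^ (j + 1) = p * p ^ j by ring, Nat.mul_div_cancel_left _ hp.pos]
  rw [e2, rec h p hp (p ^ (j + 1)), if_pos d2, q2]

theorem Eigen.coef : Pool.Agent.W192.CY.Coef N (fun n => (cf f n).re) := by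
  refine ⟨?_, ?_, ?_, ?_, ?_, ?_⟩
  · rw [cf_zero]; simp
  · rw [cf_one h]; simp
  · intro m n hmn
    have h1 : cf f (m * n) = cf f m * cf f n := cf_mul h m n hmn
    rw [cf_re h, cf_re h m, cf_re h n] at h1
    exact_mod_cast h1
  · intro p j hp
    have h1 : cf f (p ^ (j + 2)) = cf f p * cf f (p ^ (j + 1)) -
      (if p ∣ N then 0 else (p : ℂ) * cf f (p ^ j)) := cf_pow h p j hp
    rw [cf_re h, cf_re h p, cf_re h (p ^ (j + 1)), cf_re h (p ^ j)] at h1
    split_ifs at h1 ⊢ with hpN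
    · rw [sub_zero] at h1 ⊢
      exact_mod_cast h1
    · exact_mod_cast h1
  · intro p hp hpN
    rw [cf_prime h p hp, Complex.intCast_re]
    exact h.good p hp hpN
  · intro p hp hpN
    rw [cf_prime h p hp, Complex.intCast_re]
    exact h.bad p hp hpN

theorem cf_bound (ε : ℝ) (hε : 0 < ε) : ∃ C : ℝ, 0 < C ∧
    ∀ n : ℕ, 1 ≤ n → ‖cf f n‖ ≤ C * (n : ℝ) ^ (1 / 2 + ε) := by
  obtain ⟨m, hm⟩ := W612.CY.t_coef N _ h.coef
  obtain ⟨C, hC, h1, -⟩ := Pool.Agent.W216.CY.t_div ε hε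
  refine ⟨C, hC, fun n hn => ?_⟩
  have h2 := hm.cle n hn
  have h3 : ‖cf f n‖ = |(cf f n).re| := by
    conv_lhs => rw [cf_re h n, Complex.norm_real, Real.norm_eq_abs]
  rw [h3]
  have hn0 : (0 : ℝ) < n := by exact_mod_cast hn
  calc |(cf f n).re| ≤ n.divisors.card * Real.sqrt n := h2
    _ ≤ (C * (n : ℝ) ^ ε) * Real.sqrt n := by gcongr; exact h1 n hn
    _ = C * (n : ℝ) ^ (1 / 2 + ε) := by
      rw [Real.sqrt_eq_rpow, mul_assoc, ← Real.rpow_add hn0]
      ring_nf

theorem cf_summable {q : ℕ} (χ : DirichletCharacter ℂ q) (s : ℂ) (hs : 3 / 2 < s.re) :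
    Summable (fun n : ℕ => ‖cf f n * χ n * (n : ℂ) ^ (-s)‖) := by
  obtain ⟨C, hC, hb⟩ := cf_bound h ((s.re - 3 / 2) / 2) (by linarith)
  have hs2 : Summable (fun n : ℕ => C * (n : ℝ) ^ (1 / 2 + (s.re - 3 / 2) / 2 - s.re)) :=
    (Real.summable_nat_rpow.mpr (by linarith)).mul_left C
  refine Summable.of_nonneg_of_le (fun n => norm_nonneg _) (fun n => ?_) hs2
  rcases Nat.eq_zero_or_pos n with hn | hn
  · subst hn
    rw [cf_zero]
    simp only [zero_mul, norm_zero]
    positivity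
  · have hnpos : (0 : ℝ) < n := by exact_mod_cast hn
    rw [norm_mul, norm_mul]
    have h2 : ‖χ n‖ ≤ 1 := DirichletCharacter.norm_le_one χ _
    have h3 : ‖(n : ℂ) ^ (-s)‖ = (n : ℝ) ^ (-s.re) := by
      rw [← Complex.ofReal_natCast, Complex.norm_cpow_eq_rpow_re_of_pos hnpos]
      simp
    rw [h3]
    have hCn : 0 ≤ C * (n : ℝ) ^ (1 / 2 + (s.re - 3 / 2) / 2) := by positivity
    calc ‖cf f n‖ * ‖χ n‖ * (n : ℝ) ^ (-s.re)
        ≤ (C * (n : ℝ) ^ (1 / 2 + (s.re - 3 / 2) / 2)) * 1 * (n : ℝ) ^ (-s.re) := by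
          gcongr
          exact hb n hn
      _ = C * (n : ℝ) ^ (1 / 2 + (s.re - 3 / 2) / 2 - s.re) := by
          rw [mul_one, mul_assoc, ← Real.rpow_add hnpos]
          ring_nf

theorem cf_euler {q : ℕ} (χ : DirichletCharacter ℂ q) (s : ℂ) (hs : 3 / 2 < s.re) :
    HasProd (fun p : Nat.Primes =>
      (1 - (a p : ℂ) * χ p * (p : ℂ) ^ (-s) +
        (if (p : ℕ) ∣ N then 0 else (p : ℂ)) * (χ p) ^ 2 * (p : ℂ) ^ (-2 * s))⁻¹)
      (∑' n : ℕ, cf f n * χ n * (n : ℂ) ^ (-s)) := by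
  have h1 := euler_prod (fun p => if (p : ℕ) ∣ N then 0 else (p : ℂ)) (cf f) (cf_zero f) (cf_one h)
    (fun m n hmn => cf_mul h m n hmn) (fun p j => ?_) χ s (cf_summable h χ s hs)
  · refine (congrArg (fun g => HasProd g _) (funext fun p => ?_)).mp h1
    rw [cf_prime h p p.2]
  · rw [cf_pow h p j p.2]
    split_ifs <;> ring

end eigen

end Pool.Agent.N974.Gen
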