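import Pool.Agent.N974.Gen.LfinE
import Pool.Agent.N974.Gen.ChP

/-!
# The `L`-functions of the twists by positive even discriminants; nonvanishing from the real and
# imaginary parts of the character sums of the integrals
-/

set_option autoImplicit false
set_option linter.unusedSectionVars false
set_option linter.style.haveILetI false

open Complex Filter Topology Set UpperHalfPlane MatrixGroups CongruenceSubgroup ZMod

namespace Pool.Agent.N974.Gen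

open Pool.Agent.N969.P15 (un)
open Pool.Agent.Y687 (cnt cnt_eq fac rr SS)
open Pool.Agent.N975.LfinE (cnt_twistL sum_unC)

variable {N : ℕ} [NeZero N] {f : CuspForm (Gamma0 N : Subgroup (GL (Fin 2) ℝ)) 2}

/-- the `L`-function of the twist by the positive even discriminant `n = 4 m` -/
theorem exists_fP {a : ℕ → ℤ} (h : Eigen f a) (A B : ℤ) (hΔ : 4 * A ^ 3 + 27 * B ^ 2 ≠ 0)
    (hN : ∀ p : ℕ, p.Prime → p ∣ N → (p : ℤ) ∣ 2 * (4 * A ^ 3 + 27 * B ^ 2))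
    (hE : ∀ p : ℕ, p.Prime → ¬ (p : ℤ) ∣ 2 * (4 * A ^ 3 + 27 * B ^ 2) →
      (p : ℤ) - cnt A B p = a p)
    {n : ℕ} (hEv : ChP.Ev n) :
    ∃ (F : ℂ → ℂ) (g1 : ℂ), Differentiable ℂ F ∧
      (∀ s : ℂ, (3 : ℝ) / 2 < s.re →
        HasProd (fun p : {p : ℕ // p.Prime ∧
            ¬ ((p : ℤ) ∣ 2 * (4 * (A * ((n / 4 : ℕ) : ℤ) ^ 2) ^ 3 +
              27 * (B * ((n / 4 : ℕ) : ℤ) ^ 3) ^ 2))} =>
          fac (A * ((n / 4 : ℕ) : ℤ) ^ 2) (B * ((n / 4 : ℕ) : ℤ) ^ 3) s p) (F s)) ∧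
      (g1 ≠ 0 → F 1 ≠ 0) ∧
      ∃ τ : ℂ, τ * g1 = ∑ u ∈ un n, ((ChP.chE n u : ℤ) : ℂ) * II f ((u : ℚ) / n) := by
  have hn := ChP.ev_mod hEv
  have : NeZero n := ⟨by omega⟩
  have habs : (((n / 4 : ℕ) : ℤ)).natAbs = n / 4 := by rw [Int.natAbs_natCast]
  have hdvd : ∀ p : ℕ, p.Prime → p ≠ 2 → (p ∣ n / 4 ↔ p ∣ n) := by
    intro p hp h2
    have e : n = 4 * (n / 4) := by omega
    have hc : Nat.Coprime p 4 := by
      have : Nat.Coprime p 2 := (Nat.coprime_primes hp Nat.prime_two).2 h2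
      exact Nat.Coprime.mul_right this this
    constructor
    · intro h
      rw [e]
      exact h.mul_left 4
    · intro h
      rw [e] at h
      exact hc.dvd_of_dvd_mul_left h
  have q2 : ∀ p : ℕ, ¬ (p : ℤ) ∣ 2 * (4 * A ^ 3 + 27 * B ^ 2) → p ≠ 2 := by
    rintro p hp rfl
    exact hp (dvd_mul_right _ _)
  obtain ⟨F, g1, k1, k2, k3, k4⟩ := exists_fG h A B hΔ hN ((n / 4 : ℕ) : ℤ) (ChP.chi n hn)
    (ChP.chi_primitive hEv) (fun p => ChP.chE n p) (fun p _ => ChP.chi_nat n hn p)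
    (fun p hp => by
      by_cases hpn : p ∣ n
      · exact Or.inl (ChP.chE_zero hn
          (fun h => hp.one_lt.ne' (Nat.eq_one_of_dvd_coprimes h dvd_rfl hpn)))
      · exact Or.inr (ChP.chE_pm hn ((Nat.Prime.coprime_iff_not_dvd hp).2 hpn)))
    (fun p hp hpΔ hpD => by
      rw [habs, hdvd p hp (q2 p hpΔ)] at hpD
      exact ChP.chE_zero hn (fun h => hp.one_lt.ne' (Nat.eq_one_of_dvd_coprimes h dvd_rfl hpD)))
    (fun p hp hpΔ hpD => by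
      have : Fact p.Prime := ⟨hp⟩
      have h2 := q2 p hpΔ
      rw [habs, hdvd p hp h2] at hpD
      refine ⟨?_, ?_⟩
      · rcases ChP.chE_pm hn ((Nat.Prime.coprime_iff_not_dvd hp).2 hpD) with h | h <;>
          rw [h] <;> norm_num
      · have h5 := cnt_twistL A B ((n / 4 : ℕ) : ℤ) p h2 (by
          rw [Int.natCast_dvd_natCast, hdvd p hp h2]
          exact hpD)
        rw [hE p hp hpΔ, ← ChP.chE_prime hEv hp h2] at h5
        exact h5)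
  refine ⟨F, g1, k1, k2, k3, gaussSum (ChP.chi n hn)⁻¹ (stdAddChar (N := n)), ?_⟩
  rw [k4, ChP.chi_inv n hn, sum_unC]
  refine Finset.sum_congr rfl fun u _ => ?_
  rw [← ChP.chi_nat n hn, ZMod.natCast_zmod_val]

/-- a sum of the integrals does not vanish if its real or its imaginary part does not vanish -/
theorem sum_ne_real {ι : Type} (S : Finset ι) (w : ι → ℤ) (r : ι → ℚ)
    (hne : ∑ a ∈ S, (w a : ℝ) * (II f (r a)).re ≠ 0 ∨ ∑ a ∈ S, (w a : ℝ) * (II f (r a)).im ≠ 0) :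
    ∑ a ∈ S, (w a : ℂ) * II f (r a) ≠ 0 := by
  intro h0
  rcases hne with hne | hne
  · apply hne
    have h1 := congrArg Complex.re h0
    rw [Complex.re_sum, Complex.zero_re] at h1
    rw [← h1]
    exact Finset.sum_congr rfl fun a _ => by simp
  · apply hne
    have h1 := congrArg Complex.im h0
    rw [Complex.im_sum, Complex.zero_im] at h1
    rw [← h1]
    exact Finset.sum_congr rfl fun a _ => by simp

/-- nonvanishing, odd discriminants -/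
theorem neO_real {a : ℕ → ℤ} (h : Eigen f a) (A B : ℤ) (hΔ : 4 * A ^ 3 + 27 * B ^ 2 ≠ 0)
    (hN : ∀ p : ℕ, p.Prime → p ∣ N → (p : ℤ) ∣ 2 * (4 * A ^ 3 + 27 * B ^ 2))
    (hE : ∀ p : ℕ, p.Prime → ¬ (p : ℤ) ∣ 2 * (4 * A ^ 3 + 27 * B ^ 2) →
      (p : ℤ) - cnt A B p = a p)
    (D : ℤ) (hsq : Squarefree D) (h1 : 1 < D.natAbs) (h4 : D % 4 = 1)
    (hne : ∑ u ∈ un D.natAbs, (jacobiSym u D.natAbs : ℝ) * (II f ((u : ℚ) / D.natAbs)).re ≠ 0 ∨
      ∑ u ∈ un D.natAbs, (jacobiSym u D.natAbs : ℝ) * (II f ((u : ℚ) / D.natAbs)).im ≠ 0) :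
    ∃ F : ℂ → ℂ, Differentiable ℂ F ∧
      (∀ s : ℂ, (3 : ℝ) / 2 < s.re →
        HasProd (fun p : {p : ℕ // p.Prime ∧
            ¬ ((p : ℤ) ∣ 2 * (4 * (A * D ^ 2) ^ 3 + 27 * (B * D ^ 3) ^ 2))} =>
          fac (A * D ^ 2) (B * D ^ 3) s p) (F s)) ∧
      F 1 ≠ 0 := by
  obtain ⟨F, g1, hf1, hf2, hf3, τ, hτ⟩ := exists_fO h A B hΔ hN hE D hsq h1 h4
  refine ⟨F, hf1, hf2, hf3 ?_⟩
  rintro rfl
  rw [mul_zero] at hτ
  exact sum_ne_real (rr D.natAbs) (fun u => jacobiSym (u : ℤ) D.natAbs)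
    (fun u => (u : ℚ) / D.natAbs) hne hτ.symm

/-- nonvanishing, negative even discriminants -/
theorem neE_real {a : ℕ → ℤ} (h : Eigen f a) (A B : ℤ) (hΔ : 4 * A ^ 3 + 27 * B ^ 2 ≠ 0)
    (hN : ∀ p : ℕ, p.Prime → p ∣ N → (p : ℤ) ∣ 2 * (4 * A ^ 3 + 27 * B ^ 2))
    (hE : ∀ p : ℕ, p.Prime → ¬ (p : ℤ) ∣ 2 * (4 * A ^ 3 + 27 * B ^ 2) →
      (p : ℤ) - cnt A B p = a p)
    {n : ℕ} (hEv : N969.P15.Ev n)
    (hne : ∑ u ∈ un n, (N969.P15.chE n u : ℝ) * (II f ((u : ℚ) / n)).re ≠ 0 ∨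
      ∑ u ∈ un n, (N969.P15.chE n u : ℝ) * (II f ((u : ℚ) / n)).im ≠ 0) :
    ∃ F : ℂ → ℂ, Differentiable ℂ F ∧
      (∀ s : ℂ, (3 : ℝ) / 2 < s.re →
        HasProd (fun p : {p : ℕ // p.Prime ∧
            ¬ ((p : ℤ) ∣ 2 * (4 * (A * (-((n / 4 : ℕ) : ℤ)) ^ 2) ^ 3 +
              27 * (B * (-((n / 4 : ℕ) : ℤ)) ^ 3) ^ 2))} =>
          fac (A * (-((n / 4 : ℕ) : ℤ)) ^ 2) (B * (-((n / 4 : ℕ) : ℤ)) ^ 3) s p) (F s)) ∧
      F 1 ≠ 0 := by
  obtain ⟨F, g1, hf1, hf2, hf3, τ, hτ⟩ := exists_fE h A B hΔ hN hE hEv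
  refine ⟨F, hf1, hf2, hf3 ?_⟩
  rintro rfl
  rw [mul_zero] at hτ
  exact sum_ne_real (un n) (fun u => N969.P15.chE n u) (fun u => (u : ℚ) / n) hne hτ.symm

/-- nonvanishing, positive even discriminants -/
theorem neP_real {a : ℕ → ℤ} (h : Eigen f a) (A B : ℤ) (hΔ : 4 * A ^ 3 + 27 * B ^ 2 ≠ 0)
    (hN : ∀ p : ℕ, p.Prime → p ∣ N → (p : ℤ) ∣ 2 * (4 * A ^ 3 + 27 * B ^ 2))
    (hE : ∀ p : ℕ, p.Prime → ¬ (p : ℤ) ∣ 2 * (4 * A ^ 3 + 27 * B ^ 2) →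
      (p : ℤ) - cnt A B p = a p)
    {n : ℕ} (hEv : ChP.Ev n)
    (hne : ∑ u ∈ un n, (ChP.chE n u : ℝ) * (II f ((u : ℚ) / n)).re ≠ 0 ∨
      ∑ u ∈ un n, (ChP.chE n u : ℝ) * (II f ((u : ℚ) / n)).im ≠ 0) :
    ∃ F : ℂ → ℂ, Differentiable ℂ F ∧
      (∀ s : ℂ, (3 : ℝ) / 2 < s.re →
        HasProd (fun p : {p : ℕ // p.Prime ∧
            ¬ ((p : ℤ) ∣ 2 * (4 * (A * ((n / 4 : ℕ) : ℤ) ^ 2) ^ 3 +
              27 * (B * ((n / 4 : ℕ) : ℤ) ^ 3) ^ 2))} =>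
          fac (A * ((n / 4 : ℕ) : ℤ) ^ 2) (B * ((n / 4 : ℕ) : ℤ) ^ 3) s p) (F s)) ∧
      F 1 ≠ 0 := by
  obtain ⟨F, g1, hf1, hf2, hf3, τ, hτ⟩ := exists_fP h A B hΔ hN hE hEv
  refine ⟨F, hf1, hf2, hf3 ?_⟩
  rintro rfl
  rw [mul_zero] at hτ
  exact sum_ne_real (un n) (fun u => ChP.chE n u) (fun u => (u : ℚ) / n) hne hτ.symm

/-! ### the real symbols -/

/-- the relations of the real part of the integrals -/
structure SymbP (N : ℕ) (s : ℚ → ℝ) (a : ℕ → ℤ) : Prop where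
  per : ∀ x, s (x + 1) = s x
  neg : ∀ x, s (-x) = s x
  hecke : ∀ q : ℕ, q.Prime → ¬ q ∣ N → ∀ x,
    a q * s x = s (q * x) + ∑ b ∈ Finset.range q, s ((x + b) / q)
  heckeU : ∀ q : ℕ, q.Prime → q ∣ N → ∀ x,
    a q * s x = ∑ b ∈ Finset.range q, s ((x + b) / q)
  aff : ∀ {A B C D : ℤ}, A * D - B * ((N : ℤ) * C) = 1 → ∀ r : ℚ, (N : ℚ) * C * r + D ≠ 0 →
    s ((A * r + B) / ((N : ℚ) * C * r + D)) = s r + s ((B : ℚ) / D) - s 0
  aff_inf : ∀ {A B C D : ℤ}, A * D - B * ((N : ℤ) * C) = 1 → C ≠ 0 →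
    s ((A : ℚ) / ((N : ℚ) * C)) = s ((B : ℚ) / D) - s 0

/-- the relations of the imaginary part of the integrals -/
structure SymbM (N : ℕ) (s : ℚ → ℝ) (a : ℕ → ℤ) : Prop where
  per : ∀ x, s (x + 1) = s x
  neg : ∀ x, s (-x) = -s x
  hecke : ∀ q : ℕ, q.Prime → ¬ q ∣ N → ∀ x,
    a q * s x = s (q * x) + ∑ b ∈ Finset.range q, s ((x + b) / q)
  heckeU : ∀ q : ℕ, q.Prime → q ∣ N → ∀ x,
    a q * s x = ∑ b ∈ Finset.range q, s ((x + b) / q)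
  aff : ∀ {A B C D : ℤ}, A * D - B * ((N : ℤ) * C) = 1 → ∀ r : ℚ, (N : ℚ) * C * r + D ≠ 0 →
    s ((A * r + B) / ((N : ℚ) * C * r + D)) = s r + s ((B : ℚ) / D)
  aff_inf : ∀ {A B C D : ℤ}, A * D - B * ((N : ℤ) * C) = 1 → C ≠ 0 →
    s ((A : ℚ) / ((N : ℚ) * C)) = s ((B : ℚ) / D)

theorem symbP {a : ℕ → ℤ} (h : Eigen f a) (hN : 1 < N) : SymbP N (fun r => (II f r).re) a := by
  refine ⟨?_, ?_, ?_, ?_, ?_, ?_⟩
  · intro x
    simp only [II_add_one]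
  · intro x
    simp only [II_conj f h.real, Complex.conj_re]
  · intro q hq hqN x
    have h1 := congrArg Complex.re (II_hecke f hq (h.hecke' q hq) x)
    rw [if_neg hqN, Complex.add_re, Complex.re_sum] at h1
    simpa using h1
  · intro q hq hqN x
    have h1 := congrArg Complex.re (II_hecke f hq (h.hecke' q hq) x)
    rw [if_pos hqN, zero_add, Complex.re_sum] at h1
    simpa using h1
  · intro A B C D hdet r h0
    have h1 := congrArg Complex.re (II_aff f hN hdet r h0)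
    rwa [Complex.sub_re, Complex.add_re] at h1
  · intro A B C D hdet hC
    have h1 := congrArg Complex.re (II_aff_inf f hN hdet hC)
    rwa [Complex.sub_re] at h1

theorem symbM {a : ℕ → ℤ} (h : Eigen f a) (hN : 1 < N) : SymbM N (fun r => (II f r).im) a := by
  have z0 := II_zero_im f h.real
  refine ⟨?_, ?_, ?_, ?_, ?_, ?_⟩
  · intro x
    simp only [II_add_one]
  · intro x
    simp only [II_conj f h.real, Complex.conj_im]
  · intro q hq hqN x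
    have h1 := congrArg Complex.im (II_hecke f hq (h.hecke' q hq) x)
    rw [if_neg hqN, Complex.add_im, Complex.im_sum] at h1
    simpa using h1
  · intro q hq hqN x
    have h1 := congrArg Complex.im (II_hecke f hq (h.hecke' q hq) x)
    rw [if_pos hqN, zero_add, Complex.im_sum] at h1
    simpa using h1
  · intro A B C D hdet r h0
    have h1 := congrArg Complex.im (II_aff f hN hdet r h0)
    rwa [Complex.sub_im, Complex.add_im, z0, sub_zero] at h1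
  · intro A B C D hdet hC
    have h1 := congrArg Complex.im (II_aff_inf f hN hdet hC)
    rwa [Complex.sub_im, z0, sub_zero] at h1

end Pool.Agent.N974.Gen
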