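import Pool.Agent.N974.Gen.Hor
import Pool.Agent.W97.MT.Asm

/-!
# The action of the group and of the Hecke operators on the integrals
-/

set_option autoImplicit false
set_option linter.unusedSectionVars false

open UpperHalfPlane MatrixGroups CongruenceSubgroup Filter Topology MeasureTheory Set
open scoped ModularForm Pointwise

namespace Pool.Agent.N974.Gen

open Pool.Agent.W97.TW
open Pool.Agent.W97.MT (qq qq_ne norm_qq norm_qq_lt z_ne H_open QV iI iI_pos iI_gt iI_eventually
  tendsto_qq tpi_ne hasDerivAt_qq const_of_deriv line_im line_re tendsto_im prim qq_conj)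
open Pool.Agent.N974.MF (Hor line_hor hor_neBot hor_gt hor_pos ne_of_im mob_hor mob_inf_hor
  mob_hor_inf im_inv iI_neBot den_ne)

variable {N : ℕ} [NeZero N] (f : CuspForm (Gamma0 N : Subgroup (GL (Fin 2) ℝ)) 2)

section mob

variable {A B C D : ℝ} (hN : 0 < A * D - B * C)
include hN

/-- the values under a map which multiplies the form by a constant -/
lemma mob_II {ε p : ℂ} (hF : ∀ z : ℂ, 0 < z.im →
    F f ((A * z + B) / (C * z + D)) = ε * F f z + p)
    (r r' : ℚ) (h0 : C * r + D ≠ 0) (hr' : (r' : ℝ) * (C * r + D) = A * r + B) :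
    II f r' = ε * II f r + p := by
  have h1 := mob_hor hN h0
  have e : (((A * r + B) / (C * r + D) : ℝ) : ℂ) = ((r' : ℝ) : ℂ) := by
    rw [← hr']
    congr 1
    field_simp
  rw [e] at h1
  have h2 := (F_hor f r').comp (y := Hor ((r' : ℝ) : ℂ)) (x := Hor ((r : ℝ) : ℂ)) (by simpa using h1)
  have h3 := ((F_hor f r).const_mul ε).add_const p
  have : (Hor (r : ℂ)).NeBot := hor_neBot _ (by simp)
  refine tendsto_nhds_unique (l := Hor (r : ℂ)) (f := fun z => F f ((A * z + B) / (C * z + D)))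
    (by simpa [Function.comp_def] using h2) (h3.congr' ?_)
  filter_upwards [hor_pos (r : ℂ)] with z hz
  exact (hF z hz).symm

lemma mob_II_inf {ε p : ℂ} (hF : ∀ z : ℂ, 0 < z.im →
    F f ((A * z + B) / (C * z + D)) = ε * F f z + p)
    (r' : ℚ) (hC : C ≠ 0) (hr' : (r' : ℝ) * C = A) : II f r' = p := by
  have h1 := mob_inf_hor hN hC
  have e : ((A / C : ℝ) : ℂ) = ((r' : ℝ) : ℂ) := by
    rw [← hr']
    congr 1
    field_simp
  rw [e] at h1
  have h2 := (F_hor f r').comp (y := Hor ((r' : ℝ) : ℂ)) (x := iI) (by simpa using h1)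
  have h3 := ((F_QV f).tendsto.const_mul ε).add_const p
  rw [mul_zero, zero_add] at h3
  have := iI_neBot
  refine tendsto_nhds_unique h2 (h3.congr' ?_)
  filter_upwards [iI_pos] with z hz
  exact (hF z hz).symm

lemma mob_II_pole {ε p : ℂ} (hF : ∀ z : ℂ, 0 < z.im →
    F f ((A * z + B) / (C * z + D)) = ε * F f z + p)
    (r : ℚ) (hC : C ≠ 0) (h0 : C * r + D = 0) : ε * II f r + p = 0 := by
  have h1 := mob_hor_inf hN hC h0
  have h2 := (F_QV f).tendsto.comp h1
  have h3 := ((F_hor f r).const_mul ε).add_const p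
  have : (Hor (r : ℂ)).NeBot := hor_neBot _ (by simp)
  refine tendsto_nhds_unique (l := Hor (r : ℂ)) (f := fun z => F f ((A * z + B) / (C * z + D)))
    (h3.congr' ?_) (by simpa [Function.comp_def] using h2)
  filter_upwards [hor_pos (r : ℂ)] with z hz
  exact (hF z hz).symm

end mob

section gamma

variable {a b c d : ℤ} (hdet : a * d - b * ((N : ℤ) * c) = 1) {p : ℂ}
  (hp : ∀ z : ℂ, 0 < z.im → F f ((a * z + b) / ((N : ℂ) * c * z + d)) = F f z + p)
include hdet hp

theorem II_gamma (r : ℚ) (h0 : (N : ℚ) * c * r + d ≠ 0) :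
    II f ((a * r + b) / ((N : ℚ) * c * r + d)) = II f r + p := by
  have h := mob_II f (A := a) (B := b) (C := (N : ℝ) * c) (D := d) (ε := 1) (p := p)
    (by
      have : (a : ℝ) * d - b * (N * c) = 1 := by exact_mod_cast hdet
      rw [this]
      norm_num)
    (fun z hz => by
      have := hp z hz
      push_cast
      rw [one_mul]
      exact this) r ((a * r + b) / ((N : ℚ) * c * r + d))
    (by exact_mod_cast h0) (by
      have h0' : ((N : ℝ) * (c : ℝ) * r + d) ≠ 0 := by exact_mod_cast h0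
      push_cast
      rw [div_mul_cancel₀ _ h0'])
  rw [h, one_mul]

theorem II_gamma_inf (hc : c ≠ 0) : II f ((a : ℚ) / ((N : ℚ) * c)) = p := by
  have hc' : (c : ℝ) ≠ 0 := by exact_mod_cast hc
  have hN : (N : ℝ) ≠ 0 := by exact_mod_cast (NeZero.ne N)
  exact mob_II_inf f (A := a) (B := b) (C := (N : ℝ) * c) (D := d) (ε := 1) (p := p)
    (by
      have : (a : ℝ) * d - b * (N * c) = 1 := by exact_mod_cast hdet
      rw [this]
      norm_num)
    (fun z hz => by
      have := hp z hz
      push_cast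
      rw [one_mul]
      exact this) ((a : ℚ) / ((N : ℚ) * c)) (mul_ne_zero hN hc') (by
      push_cast
      field_simp)

theorem II_gamma_pole (r : ℚ) (hc : c ≠ 0) (h0 : (N : ℚ) * c * r + d = 0) : II f r = -p := by
  have hc' : (c : ℝ) ≠ 0 := by exact_mod_cast hc
  have hN : (N : ℝ) ≠ 0 := by exact_mod_cast (NeZero.ne N)
  have := mob_II_pole f (A := a) (B := b) (C := (N : ℝ) * c) (D := d) (ε := 1) (p := p)
    (by
      have : (a : ℝ) * d - b * (N * c) = 1 := by exact_mod_cast hdet
      rw [this]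
      norm_num)
    (fun z hz => by
      have := hp z hz
      push_cast
      rw [one_mul]
      exact this) r (mul_ne_zero hN hc') (by exact_mod_cast h0)
  linear_combination this

end gamma

lemma d_ne {a b c d : ℤ} (hN : 1 < N) (hdet : a * d - b * ((N : ℤ) * c) = 1) : d ≠ 0 := by
  rintro rfl
  have h1 : ((N : ℕ) : ℤ) ∣ 1 := ⟨-(b * c), by linarith⟩
  have h2 : (N : ℤ) ≤ 1 := Int.le_of_dvd one_pos h1
  omega

/-- the cocycle relation -/
theorem II_aff (hN : 1 < N) {a b c d : ℤ} (hdet : a * d - b * ((N : ℤ) * c) = 1) (r : ℚ)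
    (h0 : (N : ℚ) * c * r + d ≠ 0) :
    II f ((a * r + b) / ((N : ℚ) * c * r + d)) = II f r + II f ((b : ℚ) / d) - II f 0 := by
  obtain ⟨p, hp⟩ := F_gamma f hdet
  have hd : (d : ℚ) ≠ 0 := by exact_mod_cast d_ne hN hdet
  have h1 := II_gamma f hdet hp r h0
  have h2 := II_gamma f hdet hp 0 (by simpa using hd)
  rw [mul_zero, mul_zero, zero_add, zero_add] at h2
  rw [h1, h2]
  ring

theorem II_aff_inf (hN : 1 < N) {a b c d : ℤ} (hdet : a * d - b * ((N : ℤ) * c) = 1) (hc : c ≠ 0) :
    II f ((a : ℚ) / ((N : ℚ) * c)) = II f ((b : ℚ) / d) - II f 0 := by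
  obtain ⟨p, hp⟩ := F_gamma f hdet
  have hd : (d : ℚ) ≠ 0 := by exact_mod_cast d_ne hN hdet
  have h1 := II_gamma_inf f hdet hp hc
  have h2 := II_gamma f hdet hp 0 (by simpa using hd)
  rw [mul_zero, mul_zero, zero_add, zero_add] at h2
  rw [h1, h2]
  ring

theorem II_add_one (r : ℚ) : II f (r + 1) = II f r := by
  unfold II
  congr 1
  refine setIntegral_congr_fun measurableSet_Ioi fun t ht => ?_
  have ht' : (0 : ℝ) < t := ht
  have e : qq (((r + 1 : ℚ) : ℂ) + t * Complex.I) = qq ((r : ℂ) + t * Complex.I) := by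
    unfold qq
    push_cast
    have : 2 * (Real.pi : ℂ) * Complex.I * ((r : ℂ) + 1 + t * Complex.I) =
        2 * Real.pi * Complex.I * ((r : ℂ) + t * Complex.I) + 2 * Real.pi * Complex.I := by ring
    rw [this, Complex.exp_add, Complex.exp_two_pi_mul_I, mul_one]
  rw [ff_q f (by simpa using ht'), ff_q f (by simpa using ht'), e]

/-! ### the complex conjugation -/

/-- the form has real coefficients -/
def RealCoef : Prop := ∀ n : ℕ, ((qExpansion 1 f).coeff n).im = 0

lemma hasSum_cusp {q : ℂ} (hq : ‖q‖ < 1) :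
    HasSum (fun n : ℕ => (qExpansion 1 f).coeff n * q ^ n) (cuspFunction 1 f q) := by
  have : Fact (IsCusp OnePoint.infty (Gamma0 N : Subgroup (GL (Fin 2) ℝ))) :=
    ⟨Subgroup.isCusp_of_mem_strictPeriods one_pos one_mem0⟩
  have h := hasSum_qExpansion_of_norm_lt (f := (f : ℍ → ℂ)) one_pos
    (SlashInvariantFormClass.periodic_comp_ofComplex
      (Γ := (Gamma0 N : Subgroup (GL (Fin 2) ℝ))) (k := 2) f one_mem0)
    (ModularFormClass.holo f) (ModularFormClass.bdd_at_infty f) hq
  simpa [smul_eq_mul] using h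

lemma cusp_conj (hr : RealCoef f) {q : ℂ} (hq : ‖q‖ < 1) :
    cuspFunction 1 f (starRingEnd ℂ q) = starRingEnd ℂ (cuspFunction 1 f q) := by
  have h1 := hasSum_cusp f (q := starRingEnd ℂ q) (by simpa using hq)
  have h2 := (hasSum_cusp f hq).map (starRingEnd ℂ) Complex.continuous_conj
  refine h1.unique (h2.congr_fun ?_ |> fun x => x)
  intro n
  simp only [Function.comp_apply, map_mul, map_pow]
  congr 1
  exact (Complex.conj_eq_iff_im.2 (hr n)).symm

lemma ff_conj (hr : RealCoef f) {z : ℂ} (hz : 0 < z.im) :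
    ff f (-(starRingEnd ℂ z)) = starRingEnd ℂ (ff f z) := by
  rw [ff_q f hz, ff_q f (by simpa using hz), qq_conj, ← cusp_eq, ← cusp_eq,
    cusp_conj f hr (norm_qq_lt hz)]

theorem II_conj (hr : RealCoef f) (r : ℚ) : II f (-r) = starRingEnd ℂ (II f r) := by
  unfold II
  rw [map_mul, ← integral_conj]
  have h2 : (starRingEnd ℂ) (2 * (Real.pi : ℂ)) = 2 * Real.pi := by
    rw [map_mul, Complex.conj_ofReal]
    congr 1
    exact Complex.conj_ofNat 2
  rw [h2]
  congr 1
  refine setIntegral_congr_fun measurableSet_Ioi fun t ht => ?_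
  have ht' : (0 : ℝ) < t := ht
  rw [← ff_conj f hr (by rw [line_im]; simpa using ht')]
  congr 1
  simp only [map_add, map_mul, Complex.conj_I, Complex.conj_ofReal]
  have : (starRingEnd ℂ) ((r : ℚ) : ℂ) = r := by
    have e : ((r : ℚ) : ℂ) = (((r : ℚ) : ℝ) : ℂ) := by push_cast; rfl
    rw [e]; exact Complex.conj_ofReal _
  rw [this]
  push_cast
  ring

theorem II_zero_im (hr : RealCoef f) : (II f 0).im = 0 := by
  have h1 := II_conj f hr 0
  rw [neg_zero] at h1
  have h2 := congrArg Complex.im h1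
  rw [Complex.conj_im] at h2
  linarith

/-! ### the Hecke operators -/

lemma prim_rat (r : ℚ) : prim f (r : ℂ) = II f r := rfl

/-- the action of the Hecke operators on the integrals -/
theorem II_hecke {q : ℕ} (hq : q.Prime) {a : ℂ}
    (h : ∀ z : ℍ, Pool.Agent.W97.MT.hecke N q f z = a * f z) (x : ℚ) :
    a * II f x = (if q ∣ N then 0 else II f (q * x)) + ∑ b ∈ Finset.range q, II f ((x + b) / q) :=
  Pool.Agent.W97.MT.hhint N q f a hq (int_rat f) h x

end Pool.Agent.N974.Gen
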