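import Pool.Agent.N974.MF.Act

/-!
# Integrals of a cusp form of weight two for `Γ_0(N)` from the rational points
-/

set_option autoImplicit false
set_option linter.unusedSectionVars false

open UpperHalfPlane MatrixGroups CongruenceSubgroup Filter Topology MeasureTheory Set
open scoped ModularForm Pointwise

namespace Pool.Agent.N974.Gen

open Pool.Agent.W97.TW
open Pool.Agent.W97.MT (qq qq_ne norm_qq norm_qq_lt z_ne H_open QV iI iI_pos iI_gt iI_eventually
  tendsto_qq tpi_ne hasDerivAt_qq const_of_deriv line_im line_re dslope_analytic qParam_one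
  cusp_expansion)

variable {N : ℕ} [NeZero N] (f : CuspForm (Gamma0 N : Subgroup (GL (Fin 2) ℝ)) 2)

/-- the form as a function of a complex variable -/
noncomputable def ff (z : ℂ) : ℂ := f (ofComplex z)

lemma ff_H (z : ℍ) : ff f z = f z := by
  unfold ff
  rw [ofComplex_apply]

lemma ff_diff {z : ℂ} (hz : 0 < z.im) : DifferentiableAt ℂ (ff f) z := by
  have h1 := UpperHalfPlane.mdifferentiable_iff.1 f.holo'
  exact (h1 z hz).differentiableAt (H_open.mem_nhds hz)

lemma ff_cont : ContinuousOn (ff f) {z : ℂ | 0 < z.im} := fun _ hz =>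
  (ff_diff f hz).continuousAt.continuousWithinAt

lemma gam_pos {a b c d : ℤ} (h : a * d - b * ((N : ℤ) * c) = 1) {z : ℂ} (hz : 0 < z.im) :
    0 < ((a * z + b) / ((N : ℂ) * c * z + d)).im ∧ ((N : ℂ) * c * z + d) ≠ 0 := by
  have h1 := im_moebius h hz
  push_cast at h1
  exact h1

lemma ff_gamma {a b c d : ℤ} (h : a * d - b * ((N : ℤ) * c) = 1) {z : ℂ} (hz : 0 < z.im) :
    ff f ((a * z + b) / ((N : ℂ) * c * z + d)) = ((N : ℂ) * c * z + d) ^ 2 * ff f z := by
  obtain ⟨h1, h0⟩ := gam_pos h hz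
  have hm : mkSL a b ((N : ℤ) * c) d h ∈ Gamma0 N := (mkSL_mem _ _ _ _ h N).2 (dvd_mul_right _ _)
  have h2 : (f : ℍ → ℂ) ∣[(2 : ℤ)] (mkSL a b ((N : ℤ) * c) d h) = f :=
    SlashInvariantFormClass.slash_action_eq f _ ⟨_, hm, rfl⟩
  have h3 := congrFun h2 ⟨z, hz⟩
  rw [ModularForm.SL_slash_apply, mkSL_denom] at h3
  have e : ((mkSL a b ((N : ℤ) * c) d h • (⟨z, hz⟩ : ℍ) : ℍ) : ℂ) =
      (a * z + b) / ((N : ℂ) * c * z + d) := by
    rw [mkSL_smul]
    push_cast
    rfl
  have e1 : ff f ((a * z + b) / ((N : ℂ) * c * z + d)) =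
      f (mkSL a b ((N : ℤ) * c) d h • (⟨z, hz⟩ : ℍ)) := by
    rw [← e, ff_H]
  have e2 : ff f z = f ⟨z, hz⟩ := by
    unfold ff
    rw [ofComplex_apply_of_im_pos hz]
  rw [e1, e2, ← h3]
  push_cast
  rw [zpow_neg, show (((N : ℂ) * c * z + d) ^ (2 : ℤ)) = ((N : ℂ) * c * z + d) ^ 2 from
    zpow_ofNat _ 2]
  change _ = ((N : ℂ) * c * z + d) ^ 2 * (_ * (((N : ℂ) * c * z + d) ^ 2)⁻¹)
  field_simp


/-! ### the form as a function of `q` -/

lemma cusp_zero : cuspFunction 1 f 0 = 0 :=
  CuspFormClass.cuspFunction_apply_zero (Γ := (Gamma0 N : Subgroup (GL (Fin 2) ℝ))) (k := 2) f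
    one_pos one_mem0

lemma cusp_diff : DifferentiableOn ℂ (cuspFunction 1 f) (Metric.ball 0 1) := fun q hq =>
  (ModularFormClass.differentiableAt_cuspFunction (Γ := (Gamma0 N : Subgroup (GL (Fin 2) ℝ)))
    (k := 2) f one_pos one_mem0 (by simpa using hq)).differentiableWithinAt

/-- `f / q` as a function of `q` -/
noncomputable def phi (q : ℂ) : ℂ := dslope (cuspFunction 1 f) 0 q

lemma phi_diff : DifferentiableOn ℂ (phi f) (Metric.ball 0 1) :=
  (Complex.differentiableOn_dslope (Metric.ball_mem_nhds _ one_pos)).2 (cusp_diff f)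

lemma phi_zero : phi f 0 = (qExpansion 1 f).coeff 1 := by
  unfold phi
  rw [dslope_same, qExpansion_coeff]
  simp

lemma cusp_eq (q : ℂ) : cuspFunction 1 f q = q * phi f q := by
  unfold phi
  by_cases hq : q = 0
  · rw [hq, cusp_zero, zero_mul]
  · rw [dslope_of_ne _ hq, slope_def_field, cusp_zero, sub_zero, sub_zero]
    field_simp

lemma ff_q {z : ℂ} (hz : 0 < z.im) : ff f z = qq z * phi f (qq z) := by
  rw [← cusp_eq]
  have h3 := SlashInvariantFormClass.eq_cuspFunction
    (Γ := (Gamma0 N : Subgroup (GL (Fin 2) ℝ))) (k := 2) f (ofComplex z) one_mem0 one_ne_zero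
  unfold ff
  rw [← h3, ofComplex_apply_of_im_pos hz]
  change cuspFunction 1 f (Function.Periodic.qParam 1 z) = _
  rw [qParam_one]

lemma exists_Phi : ∃ Φ : ℂ → ℂ, Φ 0 = 0 ∧ ∀ q : ℂ, ‖q‖ < 1 → HasDerivAt Φ (phi f q) q := by
  obtain ⟨g, h0, hg⟩ := (phi_diff f).isExactOn_ball.with_val_at 0 0
  exact ⟨g, h0, fun q hq => hg q (by simpa using hq)⟩

/-- the primitive of `phi` -/
noncomputable def Phi : ℂ → ℂ := (exists_Phi f).choose

lemma Phi_zero : Phi f 0 = 0 := (exists_Phi f).choose_spec.1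

lemma Phi_deriv {q : ℂ} (hq : ‖q‖ < 1) : HasDerivAt (Phi f) (phi f q) q :=
  (exists_Phi f).choose_spec.2 q hq

lemma Phi_diff : DifferentiableOn ℂ (Phi f) (Metric.ball 0 1) := fun q hq =>
  (Phi_deriv f (by simpa using hq)).differentiableAt.differentiableWithinAt

lemma Phi_analytic : AnalyticAt ℂ (Phi f) 0 :=
  (Phi_diff f).analyticAt (Metric.ball_mem_nhds _ one_pos)

/-- the primitive of `2πi ff` -/
noncomputable def F (z : ℂ) : ℂ := Phi f (qq z)

lemma F_deriv {z : ℂ} (hz : 0 < z.im) :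
    HasDerivAt (F f) (2 * Real.pi * Complex.I * ff f z) z := by
  refine ((Phi_deriv f (norm_qq_lt hz)).comp z (hasDerivAt_qq z)).congr_deriv ?_
  rw [ff_q f hz]; ring

lemma F_QV : QV (F f) 0 := (QV.comp (Phi_analytic f)).of_val (Phi_zero f)

lemma F_diff {z : ℂ} (hz : 0 < z.im) : DifferentiableAt ℂ (F f) z := (F_deriv f hz).differentiableAt

lemma F_cont : ContinuousOn (F f) {z : ℂ | 0 < z.im} := fun _ hz =>
  (F_diff f hz).continuousAt.continuousWithinAt

lemma F_analytic {z : ℂ} (hz : 0 < z.im) : AnalyticAt ℂ (F f) z :=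
  (show DifferentiableOn ℂ (F f) {z : ℂ | 0 < z.im} from
    fun w hw => (F_diff f hw).differentiableWithinAt).analyticAt (H_open.mem_nhds hz)

lemma gam_posR {A B C D : ℝ} (hN : 0 < A * D - B * C) {z : ℂ} (hz : 0 < z.im) :
    0 < ((A * z + B) / (C * z + D)).im := by
  have hcd : C ≠ 0 ∨ D ≠ 0 := by
    by_contra h
    push Not at h
    rw [h.1, h.2] at hN
    simp at hN
  have hden := Pool.Agent.N974.MF.den_ne hcd hz
  have h1 : 0 < Complex.normSq (C * z + D) := Complex.normSq_pos.2 hden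
  have e : ((A * z + B) / (C * z + D)).im = (A * D - B * C) * z.im / Complex.normSq (C * z + D) := by
    rw [Complex.div_im]
    simp
    field_simp
    ring
  rw [e]
  positivity

lemma hasDerivAt_mob {A B C D : ℝ} {z : ℂ} (h0 : (C : ℂ) * z + D ≠ 0) :
    HasDerivAt (fun z : ℂ => (A * z + B) / (C * z + D))
      (((A * D - B * C : ℝ) : ℂ) * ((C * z + D) ^ 2)⁻¹) z := by
  have h1 : HasDerivAt (fun w : ℂ => (A : ℂ) * w + B) A z := by
    simpa using ((hasDerivAt_id z).const_mul (A : ℂ)).add_const (B : ℂ)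
  have h2 : HasDerivAt (fun w : ℂ => (C : ℂ) * w + D) C z := by
    simpa using ((hasDerivAt_id z).const_mul (C : ℂ)).add_const (D : ℂ)
  refine (h1.div h2 h0).congr_deriv ?_
  push_cast
  field_simp
  ring

/-- the additive constants for `Γ_0(N)` -/
lemma F_gamma {a b c d : ℤ} (h : a * d - b * ((N : ℤ) * c) = 1) :
    ∃ p : ℂ, ∀ z : ℂ, 0 < z.im → F f ((a * z + b) / ((N : ℂ) * c * z + d)) = F f z + p := by
  obtain ⟨C, hC⟩ := const_of_deriv
    (g := fun z => F f ((a * z + b) / ((N : ℂ) * c * z + d)) - F f z)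
    fun z hz => by
      obtain ⟨h1, h0⟩ := gam_pos h hz
      have h0' : (((N : ℝ) * c : ℝ) : ℂ) * z + ((d : ℝ) : ℂ) ≠ 0 := by
        push_cast
        exact h0
      have h3 := hasDerivAt_mob (A := a) (B := b) (C := (N : ℝ) * c) (D := d) h0'
      have h4 := (F_deriv f h1)
      have e1 : (((a : ℝ) : ℂ) * z + ((b : ℝ) : ℂ)) / ((((N : ℝ) * c : ℝ) : ℂ) * z + ((d : ℝ) : ℂ)) =
          (a * z + b) / ((N : ℂ) * c * z + d) := by push_cast; rfl
      rw [← e1] at h4
      have h2 := (h4.comp z h3).sub (F_deriv f hz)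
      have e2 : (F f ∘ fun z : ℂ => (((a : ℝ) : ℂ) * z + ((b : ℝ) : ℂ)) /
          ((((N : ℝ) * c : ℝ) : ℂ) * z + ((d : ℝ) : ℂ))) - F f =
          fun z => F f ((a * z + b) / ((N : ℂ) * c * z + d)) - F f z := by
        funext w
        simp only [Pi.sub_apply, Function.comp_apply]
        push_cast
        rfl
      rw [e2, e1, ff_gamma f h hz] at h2
      refine h2.congr_deriv ?_
      have h5 : (a : ℂ) * d - b * (N * c) = 1 := by exact_mod_cast h
      push_cast
      rw [h5]
      field_simp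
      ring
  exact ⟨C, fun z hz => by linear_combination hC z hz⟩

/-- exponential decay -/
lemma ff_bound {y : ℝ} (hy : 0 < y) : ∃ C : ℝ, 0 ≤ C ∧ ∀ z : ℂ, y ≤ z.im →
    ‖ff f z‖ ≤ C * Real.exp (-(2 * Real.pi) * z.im) := by
  have hpi := Real.pi_pos
  have hr : Real.exp (-2 * Real.pi * y) < 1 := by
    rw [Real.exp_lt_one_iff]; nlinarith [mul_pos hpi hy]
  have hc : ContinuousOn (phi f) (Metric.closedBall 0 (Real.exp (-2 * Real.pi * y))) :=
    (phi_diff f).continuousOn.mono (Metric.closedBall_subset_ball hr)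
  obtain ⟨C, hC⟩ := (isCompact_closedBall (0 : ℂ) _).exists_bound_of_continuousOn hc
  refine ⟨max C 0, le_max_right _ _, fun z hz => ?_⟩
  rw [ff_q f (lt_of_lt_of_le hy hz), norm_mul, norm_qq, mul_comm]
  have h1 : ‖phi f (qq z)‖ ≤ max C 0 := by
    refine (hC (qq z) ?_).trans (le_max_left _ _)
    rw [mem_closedBall_zero_iff, norm_qq]
    exact Real.exp_le_exp.2 (by nlinarith [mul_le_mul_of_nonneg_left hz hpi.le])
  have e : -2 * Real.pi * z.im = -(2 * Real.pi) * z.im := by ring
  rw [e]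
  exact mul_le_mul_of_nonneg_right h1 (Real.exp_pos _).le

lemma ff_line_cont (z : ℂ) {a : ℝ} (h : 0 < z.im + a) :
    ContinuousOn (fun t : ℝ => ff f (z + t * Complex.I)) (Ici a) := by
  refine (ff_cont f).comp (by fun_prop) ?_
  intro t ht
  change 0 < (z + t * Complex.I).im
  rw [line_im]
  have : a ≤ t := ht
  linarith

/-- integrability near infinity -/
lemma ff_line_int (z : ℂ) {a : ℝ} (h : 0 < z.im + a) :
    IntegrableOn (fun t : ℝ => ff f (z + t * Complex.I)) (Ioi a) := by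
  obtain ⟨C, hC0, hC⟩ := ff_bound f h
  have hpi := Real.pi_pos
  have hcont := ff_line_cont f z h
  refine Integrable.mono' (g := fun t : ℝ => C * Real.exp (-(2 * Real.pi) * z.im) *
    Real.exp (-(2 * Real.pi) * t)) ?_ ?_ ?_
  · exact ((exp_neg_integrableOn_Ioi a (by positivity : 0 < 2 * Real.pi)).const_mul _)
  · exact (hcont.mono Ioi_subset_Ici_self).aestronglyMeasurable measurableSet_Ioi
  · refine (ae_restrict_mem measurableSet_Ioi).mono fun t ht => ?_
    have ht' : a < t := ht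
    refine (hC (z + t * Complex.I) (by rw [line_im]; linarith)).trans (le_of_eq ?_)
    rw [line_im, mul_assoc, ← Real.exp_add]
    ring_nf

lemma F_line_deriv (z : ℂ) {t : ℝ} (ht : 0 < z.im + t) :
    HasDerivAt (fun t : ℝ => F f (z + t * Complex.I))
      (-(2 * Real.pi) * ff f (z + t * Complex.I)) t := by
  have h1 : HasDerivAt (fun t : ℝ => z + (t : ℂ) * Complex.I) Complex.I t := by
    have := ((Complex.ofRealCLM.hasDerivAt (x := t)).mul_const Complex.I).const_add z
    simpa using this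
  have h2 : HasDerivAt (F f) _ (z + t * Complex.I) := F_deriv f (by rw [line_im]; exact ht)
  refine (h2.comp t h1).congr_deriv ?_
  linear_combination (2 * Real.pi * ff f (z + t * Complex.I)) * Complex.I_mul_I

lemma F_line_tendsto (z : ℂ) : Tendsto (fun t : ℝ => F f (z + t * Complex.I)) atTop (𝓝 0) := by
  refine (F_QV f).tendsto.comp ?_
  unfold iI
  rw [tendsto_comap_iff]
  have : Complex.im ∘ (fun t : ℝ => z + (t : ℂ) * Complex.I) = fun t => z.im + t := by
    ext t; exact line_im z t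
  rw [this]
  exact tendsto_atTop_add_const_left _ _ tendsto_id

/-- the integral from a point of the upper half-plane or from a good rational -/
lemma integral_line (z : ℂ) (hz : 0 ≤ z.im) {C : ℂ}
    (hint : IntegrableOn (fun t : ℝ => ff f (z + t * Complex.I)) (Ioi 0))
    (hlim : Tendsto (fun t : ℝ => F f (z + t * Complex.I)) (𝓝[>] 0) (𝓝 C)) :
    2 * Real.pi * ∫ t in Ioi (0 : ℝ), ff f (z + t * Complex.I) = C := by
  set g : ℝ → ℂ := Function.update (fun t : ℝ => F f (z + t * Complex.I)) 0 C with hg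
  have h1 : ContinuousWithinAt g (Ici 0) 0 := by
    rw [continuousWithinAt_update_same]
    convert hlim using 2
    ext t
    simp
  have h2 : ∀ t ∈ Ioi (0 : ℝ), HasDerivAt g (-(2 * Real.pi) * ff f (z + t * Complex.I)) t := by
    intro t ht
    have ht' : 0 < t := ht
    refine (F_line_deriv f z (by linarith)).congr_of_eventuallyEq ?_
    filter_upwards [isOpen_Ioi.mem_nhds ht] with s hs
    have hs' : (0 : ℝ) < s := hs
    rw [hg, Function.update_of_ne hs'.ne']
  have h3 : Tendsto g atTop (𝓝 0) := by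
    refine (F_line_tendsto f z).congr' ?_
    filter_upwards [eventually_gt_atTop 0] with s hs
    rw [hg, Function.update_of_ne hs.ne']
  have h4 := integral_Ioi_of_hasDerivAt_of_tendsto h1 h2 (hint.const_mul _) h3
  have h5 : g 0 = C := by rw [hg, Function.update_self]
  have h6 : (∫ t in Ioi (0 : ℝ), -(2 * Real.pi : ℂ) * ff f (z + t * Complex.I)) =
      -(2 * Real.pi : ℂ) * ∫ t in Ioi (0 : ℝ), ff f (z + t * Complex.I) := integral_const_mul _ _
  rw [h6, h5] at h4
  linear_combination -h4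

/-- the integral from a rational number -/
noncomputable def II (r : ℚ) : ℂ :=
  2 * Real.pi * ∫ t in Ioi (0 : ℝ), ff f ((r : ℂ) + t * Complex.I)

end Pool.Agent.N974.Gen
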