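import Pool.Agent.N974.Gen.Base

/-!
# Limits of the primitive at the rational points along horocycles
-/

set_option autoImplicit false
set_option linter.unusedSectionVars false

open UpperHalfPlane MatrixGroups CongruenceSubgroup Filter Topology MeasureTheory Set
open scoped ModularForm Pointwise

namespace Pool.Agent.N974.Gen

open Pool.Agent.W97.TW
open Pool.Agent.W97.MT (qq qq_ne norm_qq norm_qq_lt z_ne H_open QV iI iI_pos iI_gt iI_eventually
  tendsto_qq tpi_ne hasDerivAt_qq const_of_deriv line_im line_re dslope_analytic qParam_one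
  cusp_expansion)
open Pool.Agent.N974.MF (Hor line_hor hor_neBot hor_gt hor_pos ne_of_im mob_hor mob_inf_hor
  mob_hor_inf im_inv iI_neBot den_ne)

variable {N : ℕ} [NeZero N] (f : CuspForm (Gamma0 N : Subgroup (GL (Fin 2) ℝ)) 2)

lemma strict_one (N : ℕ) {a b c d : ℤ} (h : 0 < a * d - b * c) {a' b' c' d' : ℤ}
    (h' : a' * d' - b' * c' = 1) (hc : (N : ℤ) ∣ c') (e1 : a' * a + b' * c = a)
    (e2 : a' * b + b' * d = a + b) (e3 : c' * a + d' * c = c) (e4 : c' * b + d' * d = c + d) :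
    (1 : ℝ) ∈ (ConjAct.toConjAct (al a b c d h)⁻¹ •
      (Gamma0 N : Subgroup (GL (Fin 2) ℝ))).strictPeriods := by
  rw [Subgroup.mem_strictPeriods_iff, map_inv, Subgroup.mem_inv_pointwise_smul_iff,
    ConjAct.toConjAct_smul]
  refine ⟨mkSL a' b' c' d' h', (mkSL_mem a' b' c' d' h' N).2 hc, ?_⟩
  rw [eq_mul_inv_iff_mul_eq]
  apply Units.ext
  rw [Units.val_mul, Units.val_mul, al_GL]
  have e0 : ((Matrix.SpecialLinearGroup.mapGL ℝ (mkSL a' b' c' d' h') : GL (Fin 2) ℝ) :
    Matrix (Fin 2) (Fin 2) ℝ) = !![(a' : ℝ), (b' : ℝ); (c' : ℝ), (d' : ℝ)] := mkSL_GL a' b' c' d' h'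
  rw [e0]
  have e5 : (a' : ℝ) * a + b' * c = a := by exact_mod_cast e1
  have e6 : (a' : ℝ) * b + b' * d = a + b := by exact_mod_cast e2
  have e7 : (c' : ℝ) * a + d' * c = c := by exact_mod_cast e3
  have e8 : (c' : ℝ) * b + d' * d = c + d := by exact_mod_cast e4
  ext i j
  fin_cases i <;> fin_cases j <;> simp [Matrix.mul_apply, Fin.sum_univ_two, e5, e6, e7, e8]

lemma Npos : (0 : ℤ) < N := by exact_mod_cast Nat.pos_of_ne_zero (NeZero.ne N)

/-- the expansions at all cusps, in the parameter of width `N` -/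
lemma exp_gen {a b c d : ℤ} (h : a * d - b * c = 1) : ∃ k : ℂ → ℂ, AnalyticAt ℂ k 0 ∧
    ∀ z : ℂ, 0 < z.im → ff f ((a * N * z + b) / (c * N * z + d)) *
      (N * ((c * N * z + d) ^ 2)⁻¹) = qq z * k (qq z) := by
  have hN := Npos (N := N)
  have hdet : (0 : ℤ) < (a * N) * d - b * (c * N) := by
    have : (a * N) * d - b * (c * N) = N * (a * d - b * c) := by ring
    rw [this, h, mul_one]
    exact hN
  obtain ⟨k, hk, h1⟩ := cusp_expansion (CuspForm.translate f (al (a * N) b (c * N) d hdet))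
    (strict_one N hdet (a' := 1 - a * c * N) (b' := a ^ 2 * N) (c' := -(c ^ 2 * N))
      (d' := 1 + a * c * N) (by ring) (dvd_neg.2 (dvd_mul_left _ _)) (by ring)
      (by linear_combination (a * N) * h) (by ring) (by linear_combination (c * N) * h))
  refine ⟨k, hk, fun z hz => ?_⟩
  rw [← h1 z hz]
  change _ = ((f : ℍ → ℂ) ∣[(2 : ℤ)] al (a * N) b (c * N) d hdet) (ofComplex z)
  rw [slash_al, ofComplex_apply_of_im_pos hz]
  have e0 : ((((a * N) * d - b * (c * N) : ℤ) : ℂ)) = N := by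
    have : (a * N) * d - b * (c * N) = N * (a * d - b * c) := by ring
    rw [this, h, mul_one]
    push_cast
    rfl
  rw [e0]
  have e1 : ((2 : ℤ) - 1) = 1 := by norm_num
  rw [e1, zpow_one, zpow_neg, show ((((c * N : ℤ) : ℂ) * z + d) ^ (2 : ℤ)) =
    (((c * N : ℤ) : ℂ) * z + d) ^ 2 from zpow_ofNat _ 2]
  unfold ff
  push_cast
  ring

/-- the value of the map -/
lemma mob_real {A B C D : ℝ} {z : ℂ} :
    ((A : ℂ) * z + B) / (C * z + D) = (A * z + B) / (C * z + D) := rfl

/-- the limit of the primitive at the cusps -/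
lemma exists_lim {a b c d : ℤ} (h : a * d - b * c = 1) :
    ∃ C : ℂ, Tendsto (fun z : ℂ => F f ((a * N * z + b) / (c * N * z + d))) iI (𝓝 C) := by
  obtain ⟨k, hk, h1⟩ := exp_gen f h
  -- the primitive near zero
  obtain ⟨r, hr, hkr⟩ := hk.exists_ball_analyticOnNhd
  obtain ⟨g, h0, hg⟩ := (hkr.differentiableOn).isExactOn_ball.with_val_at 0 0
  have hN := Npos (N := N)
  have hNr : (0 : ℝ) < N := by exact_mod_cast hN
  have hdet : (0 : ℝ) < (a * N) * d - b * (c * N) := by
    have e : ((a : ℝ) * N) * d - b * (c * N) = N * (a * d - b * c) := by ring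
    have e' : (a : ℝ) * d - b * c = 1 := by exact_mod_cast h
    rw [e, e', mul_one]
    exact hNr
  have hcd : ((c : ℝ) * N) ≠ 0 ∨ (d : ℝ) ≠ 0 := by
    by_contra h2
    push Not at h2
    rw [h2.1, h2.2] at hdet
    simp at hdet
  obtain ⟨T, hT, hq⟩ := iI_eventually.1 (tendsto_qq.eventually (Metric.ball_mem_nhds (0 : ℂ) hr))
  set G : ℂ → ℂ := fun z => F f ((a * N * z + b) / (c * N * z + d)) - g (qq z) with hG
  have hder : ∀ z : ℂ, T < z.im → HasDerivAt G 0 z := by
    intro z hz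
    have hz0 : 0 < z.im := lt_of_le_of_lt hT hz
    have hden : (((c : ℝ) * N : ℝ) : ℂ) * z + ((d : ℝ) : ℂ) ≠ 0 := den_ne hcd hz0
    have h3 := hasDerivAt_mob (A := (a : ℝ) * N) (B := b) (C := (c : ℝ) * N) (D := d) hden
    have him : 0 < ((a * N * z + b) / (c * N * z + d) : ℂ).im := by
      have h4 := gam_posR (A := (a : ℝ) * N) (B := b) (C := (c : ℝ) * N) (D := d) hdet hz0
      push_cast at h4
      exact h4
    have e1 : ((((a : ℝ) * N : ℝ) : ℂ) * z + ((b : ℝ) : ℂ)) /
        ((((c : ℝ) * N : ℝ) : ℂ) * z + ((d : ℝ) : ℂ)) = (a * N * z + b) / (c * N * z + d) := by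
      push_cast; rfl
    have h4 := F_deriv f him
    rw [← e1] at h4
    have h5 := (h4.comp z h3).sub (((hg (qq z) (hq z hz))).comp z (hasDerivAt_qq z))
    have e2 : (F f ∘ fun z : ℂ => ((((a : ℝ) * N : ℝ) : ℂ) * z + ((b : ℝ) : ℂ)) /
        ((((c : ℝ) * N : ℝ) : ℂ) * z + ((d : ℝ) : ℂ))) - g ∘ qq = G := by
      funext w
      simp only [Pi.sub_apply, Function.comp_apply, hG]
      push_cast
      rfl
    rw [e2, e1] at h5
    refine h5.congr_deriv ?_
    have h6 := h1 z hz0
    have e3 : (((a : ℝ) * N * d - b * (c * N) : ℝ) : ℂ) = N := by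
      have e : ((a : ℝ) * N) * d - b * (c * N) = N * (a * d - b * c) := by ring
      have e' : (a : ℝ) * d - b * c = 1 := by exact_mod_cast h
      rw [e, e', mul_one]
      push_cast
      rfl
    rw [e3]
    push_cast
    linear_combination (2 * Real.pi * Complex.I) * h6
  -- constant on the half-plane
  have hopen : IsOpen {z : ℂ | T < z.im} := isOpen_lt continuous_const Complex.continuous_im
  have hconv : Convex ℝ {z : ℂ | T < z.im} := convex_halfSpace_im_gt T
  obtain ⟨z0, hz0⟩ : ∃ z0 : ℂ, T < z0.im := ⟨((T + 1 : ℝ) : ℂ) * Complex.I, by simp⟩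
  have hconst : ∀ z : ℂ, T < z.im → G z = G z0 := by
    intro z hz
    refine hconv.is_const_of_fderivWithin_eq_zero (𝕜 := ℂ) (f := G)
      (fun w hw => (hder w hw).differentiableAt.differentiableWithinAt) (fun w hw => ?_) hz hz0
    rw [fderivWithin_of_isOpen hopen hw]
    have := (hder w hw).hasFDerivAt.fderiv
    rw [this]
    ext
    simp
  refine ⟨G z0 + 0, ?_⟩
  have hgc : Tendsto (fun z => g (qq z)) iI (𝓝 0) := by
    have h7 : ContinuousAt g 0 := (hg 0 (by simpa using hr)).continuousAt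
    have := h7.tendsto.comp tendsto_qq
    rw [h0] at this
    exact this
  refine (tendsto_const_nhds.add hgc).congr' ?_
  filter_upwards [iI_gt T] with z hz
  have := hconst z hz
  rw [hG] at this ⊢
  simp only at this ⊢
  rw [← this]
  ring

end Pool.Agent.N974.Gen
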