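import Pool.Agent.N974.Gen.Cusp

/-!
# The integrals from the rational points
-/

set_option autoImplicit false
set_option linter.unusedSectionVars false

open UpperHalfPlane MatrixGroups CongruenceSubgroup Filter Topology MeasureTheory Set
open scoped ModularForm Pointwise

namespace Pool.Agent.N974.Gen

open Pool.Agent.W97.TW
open Pool.Agent.W97.MT (qq qq_ne norm_qq norm_qq_lt z_ne H_open QV iI iI_pos iI_gt iI_eventually
  tendsto_qq tpi_ne hasDerivAt_qq const_of_deriv line_im line_re tendsto_im)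
open Pool.Agent.N974.MF (Hor line_hor hor_neBot hor_gt hor_pos ne_of_im mob_hor mob_inf_hor
  mob_hor_inf im_inv iI_neBot den_ne)

variable {N : ℕ} [NeZero N] (f : CuspForm (Gamma0 N : Subgroup (GL (Fin 2) ℝ)) 2)

lemma qk_zero {k : ℂ → ℂ} (hk : AnalyticAt ℂ k 0) :
    Tendsto (fun w : ℂ => w.im ^ 2 * ‖qq w * k (qq w)‖) iI (𝓝 0) := by
  have h1 : Tendsto (fun w : ℂ => ‖k (qq w)‖) iI (𝓝 ‖k 0‖) :=
    (hk.continuousAt.tendsto.comp tendsto_qq).norm
  have h2 : Tendsto (fun w : ℂ => w.im ^ 2 * ‖qq w‖) iI (𝓝 0) := by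
    have h3 := (Real.tendsto_pow_mul_exp_neg_atTop_nhds_zero 2).comp
      (tendsto_im.const_mul_atTop (by positivity : (0 : ℝ) < 2 * Real.pi))
    have h4 := h3.const_mul ((2 * Real.pi) ^ 2)⁻¹
    rw [mul_zero] at h4
    refine h4.congr fun w => ?_
    simp only [Function.comp_apply]
    rw [norm_qq]
    have hpi := Real.pi_pos
    have e : -2 * Real.pi * w.im = -(2 * Real.pi * w.im) := by ring
    rw [e]
    field_simp
  have h5 := h2.mul h1
  rw [zero_mul] at h5
  refine h5.congr fun w => ?_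
  rw [norm_mul]
  ring

lemma aux_u {A B M u X : ℂ} (hM : M ≠ 0) (hu : u ≠ 0) :
    (A * M * (X / (M * u)) + B) * u = A * X + B * u := by
  field_simp

section cusp

variable {a b c d : ℤ} (h : a * d - b * c = 1) (hc : c ≠ 0)
include h hc

lemma W_hor {r : ℚ} (hr : (c : ℚ) * r = a) :
    Tendsto (fun z : ℂ => ((d : ℝ) * z + ((-b : ℝ) : ℝ)) / (((-(c * N) : ℝ) : ℝ) * z +
      ((a * N : ℝ) : ℝ))) (Hor (r : ℂ)) iI := by
  have hN := Npos (N := N)
  have hNr : (0 : ℝ) < N := by exact_mod_cast hN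
  have hr' : (c : ℝ) * (r : ℝ) = a := by exact_mod_cast hr
  have hdet : (0 : ℝ) < (d : ℝ) * (a * N) - (-b) * (-(c * N)) := by
    have e : (d : ℝ) * (a * N) - (-b) * (-(c * N)) = N * (a * d - b * c) := by ring
    have e' : (a : ℝ) * d - b * c = 1 := by exact_mod_cast h
    rw [e, e', mul_one]
    exact hNr
  have hc' : (c : ℝ) ≠ 0 := by exact_mod_cast hc
  have := mob_hor_inf (A := (d : ℝ)) (B := (-b : ℝ)) (C := (-(c * N) : ℝ)) (D := (a * N : ℝ))
    hdet (r := (r : ℝ)) (by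
      rw [neg_ne_zero]
      exact mul_ne_zero hc' hNr.ne') (by
      rw [← hr']
      ring)
  simpa using this

omit [NeZero N] h hc in
lemma W_den (hc : c ≠ 0) {z : ℂ} (hz : 0 < z.im) :
    (a : ℂ) - c * z ≠ 0 := by
  intro h0
  have h1 := congrArg Complex.im h0
  simp at h1
  rcases h1 with h1 | h1
  · exact hc h1
  · exact hz.ne' h1

omit hc in
lemma M_W {z : ℂ} (h0 : (a : ℂ) - c * z ≠ 0) :
    (a * N * ((d * z + -b) / (-(c * N) * z + a * N)) + b) /
      (c * N * ((d * z + -b) / (-(c * N) * z + a * N)) + d) = z ∧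
    c * N * ((d * z + -b) / (-(c * N) * z + a * N)) + d = ((a : ℂ) - c * z)⁻¹ := by
  have hN : (N : ℂ) ≠ 0 := by exact_mod_cast (NeZero.ne N)
  have h' : (a : ℂ) * d - b * c = 1 := by exact_mod_cast h
  have e : (-(c * N) * z + a * N : ℂ) = N * (a - c * z) := by ring
  have e2 : c * N * ((d * z + -b) / (-(c * N) * z + a * N)) + d = ((a : ℂ) - c * z)⁻¹ := by
    rw [e]
    refine eq_inv_of_mul_eq_one_left ?_
    rw [aux_u hN h0]
    linear_combination h'
  have e1 : (a * N * ((d * z + -b) / (-(c * N) * z + a * N)) + b) = z * ((a : ℂ) - c * z)⁻¹ := by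
    rw [e, eq_mul_inv_iff_mul_eq₀ h0, aux_u hN h0]
    linear_combination z * h'
  refine ⟨?_, e2⟩
  rw [e1, e2]
  exact mul_div_cancel_right₀ z (inv_ne_zero h0)

/-- the limit along the horocycles -/
lemma F_lim {r : ℚ} (hr : (c : ℚ) * r = a) : ∃ C : ℂ, Tendsto (F f) (Hor (r : ℂ)) (𝓝 C) := by
  obtain ⟨C, hC⟩ := exists_lim f h
  refine ⟨C, ?_⟩
  have h1 := hC.comp (W_hor (N := N) h hc hr)
  refine h1.congr' ?_
  filter_upwards [hor_pos (r : ℂ)] with z hz
  have h2 := (M_W (N := N) h (W_den (a := a) hc hz)).1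
  simp only [Function.comp_apply]
  push_cast
  rw [h2]

/-- the size of the form near a rational point -/
lemma ff_size {k : ℂ → ℂ} (h1 : ∀ z : ℂ, 0 < z.im → ff f ((a * N * z + b) / (c * N * z + d)) *
      (N * ((c * N * z + d) ^ 2)⁻¹) = qq z * k (qq z)) {r : ℚ} (hr : (c : ℚ) * r = a) {t : ℝ}
    (ht0 : 0 < t) : ∃ w : ℂ, w.im = ((N : ℝ) * c ^ 2 * t)⁻¹ ∧
    ‖ff f ((r : ℂ) + t * Complex.I)‖ = ((N : ℝ) * c ^ 2) * (((N : ℝ) * c ^ 2 * t)⁻¹ ^ 2 *
      ‖qq w * k (qq w)‖) ∧ w = (d * ((r : ℂ) + t * Complex.I) + -b) /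
        (-(c * N) * ((r : ℂ) + t * Complex.I) + a * N) := by
  have hN := Npos (N := N)
  have hNr : (0 : ℝ) < N := by exact_mod_cast hN
  have hNc : (N : ℂ) ≠ 0 := by exact_mod_cast hN.ne'
  have hc' : (c : ℝ) ≠ 0 := by exact_mod_cast hc
  have hr' : (c : ℂ) * (r : ℂ) = a := by exact_mod_cast hr
  set z : ℂ := (r : ℂ) + t * Complex.I with hz
  have hzim : 0 < z.im := by rw [hz]; simpa using ht0
  have h0 := W_den (a := a) hc hzim
  obtain ⟨e1, e2⟩ := M_W (N := N) h h0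
  set w : ℂ := (d * z + -b) / (-(c * N) * z + a * N) with hw
  have hacz : (a : ℂ) - c * z = -(c * (t * Complex.I)) := by
    rw [hz, ← hr']
    ring
  -- the imaginary part of `w`
  have hwim : w.im = ((N : ℝ) * c ^ 2 * t)⁻¹ := by
    have e3 : w = ((-(d / (c * N) : ℝ) : ℝ) : ℂ) + (((N : ℝ) * c ^ 2 * t)⁻¹ : ℝ) * Complex.I := by
      have e4 : (-(c * N) * z + a * N : ℂ) = N * (a - c * z) := by ring
      rw [hw, e4, hacz, hz]
      have hcc : (c : ℂ) ≠ 0 := by exact_mod_cast hc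
      have htc : (t : ℂ) ≠ 0 := by exact_mod_cast ht0.ne'
      have hI := Complex.I_ne_zero
      have hI2 := Complex.I_sq
      have h' : (a : ℂ) * d - b * c = 1 := by exact_mod_cast h
      push_cast
      field_simp
      linear_combination (-1 : ℂ) * h' - (d : ℂ) * hr' - hI2
    rw [e3, Complex.add_im, Complex.ofReal_im, Complex.im_ofReal_mul, Complex.I_im, mul_one,
      zero_add]
  refine ⟨w, hwim, ?_, rfl⟩
  have hwpos : 0 < w.im := by
    rw [hwim]
    positivity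
  have h4 := h1 w hwpos
  rw [e1, e2] at h4
  rw [← h4, norm_mul, norm_mul, norm_inv, norm_pow, norm_inv, hacz, norm_neg, norm_mul, norm_mul,
    Complex.norm_I, Complex.norm_real, Complex.norm_intCast, Complex.norm_natCast, mul_one,
    Real.norm_of_nonneg ht0.le]
  have e5 : ‖ff f z‖ * ((N : ℝ) * (((|(c : ℝ)| * t)⁻¹ ^ 2))⁻¹) = ‖ff f z‖ * ((N : ℝ) * c ^ 2 * t ^ 2) := by
    rw [inv_pow, inv_inv, mul_pow, sq_abs]
    ring
  rw [e5]
  field_simp

/-- the form tends to zero -/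
lemma ff_lim {r : ℚ} (hr : (c : ℚ) * r = a) :
    Tendsto (fun t : ℝ => ff f ((r : ℂ) + t * Complex.I)) (𝓝[>] 0) (𝓝 0) := by
  obtain ⟨k, hk, h1⟩ := exp_gen f h
  have hl := line_hor (r : ℂ) (by simp)
  have h2 := (qk_zero hk).comp ((W_hor (N := N) h hc hr).comp hl)
  have h3 := h2.const_mul ((N : ℝ) * c ^ 2)
  rw [mul_zero] at h3
  rw [tendsto_zero_iff_norm_tendsto_zero]
  refine h3.congr' ?_
  filter_upwards [self_mem_nhdsWithin] with t ht
  have ht0 : (0 : ℝ) < t := ht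
  obtain ⟨w, hw, h4, h5⟩ := ff_size f h hc h1 hr ht0
  simp only [Function.comp_apply]
  push_cast
  rw [h4, ← h5, hw]

/-- integrability -/
lemma ff_int {r : ℚ} (hr : (c : ℚ) * r = a) :
    IntegrableOn (fun t : ℝ => ff f ((r : ℂ) + t * Complex.I)) (Ioi 0) := by
  have hlim := ff_lim f h hc hr
  rw [← Ioc_union_Ioi_eq_Ioi (zero_le_one : (0 : ℝ) ≤ 1)]
  refine IntegrableOn.union ?_ (ff_line_int f r (by simp))
  set g : ℝ → ℂ := fun t => ff f ((r : ℂ) + t * Complex.I) with hg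
  have hcg : ∀ t : ℝ, 0 < t → ContinuousAt g t := by
    intro t ht
    have h1 : DifferentiableAt ℂ (ff f) ((r : ℂ) + t * Complex.I) := ff_diff f (by simpa using ht)
    exact ContinuousAt.comp (g := ff f) (f := fun t : ℝ => (r : ℂ) + t * Complex.I)
      h1.continuousAt (by fun_prop)
  have hcont : ContinuousOn (Function.update g 0 0) (Icc 0 1) := by
    intro t ht
    rcases eq_or_lt_of_le ht.1 with h0 | h0
    · rw [← h0]
      rw [continuousWithinAt_update_same]
      refine hlim.mono_left (nhdsWithin_mono 0 ?_)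
      rintro s ⟨hs, hs0⟩
      exact lt_of_le_of_ne hs.1 (Ne.symm hs0)
    · have h1 : Function.update g 0 0 =ᶠ[𝓝 t] g := by
        filter_upwards [isOpen_Ioi.mem_nhds h0] with s hs
        have hs' : (0 : ℝ) < s := hs
        rw [Function.update_of_ne hs'.ne']
      exact ((hcg t h0).congr h1.symm).continuousWithinAt
  have h2 := (hcont.integrableOn_Icc (μ := volume)).mono_set Ioc_subset_Icc_self
  refine h2.congr_fun ?_ measurableSet_Ioc
  intro t ht
  rw [Function.update_of_ne ht.1.ne']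

end cusp

lemma rat_bez (r : ℚ) : ∃ a b c d : ℤ, a * d - b * c = 1 ∧ c ≠ 0 ∧ (c : ℚ) * r = a ∧
    c = r.den ∧ a = r.num := by
  have h1 : IsCoprime r.num (r.den : ℤ) := by
    rw [Int.isCoprime_iff_gcd_eq_one, Int.gcd_eq_natAbs, Int.natAbs_natCast]
    exact r.reduced
  obtain ⟨u, v, huv⟩ := h1
  refine ⟨r.num, -v, r.den, u, by linear_combination huv, by exact_mod_cast r.den_ne_zero, ?_, rfl,
    rfl⟩
  rw [mul_comm]
  exact_mod_cast Rat.mul_den_eq_num r

/-- integrability at all rational points -/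
theorem int_rat (r : ℚ) : IntegrableOn (fun t : ℝ => ff f ((r : ℂ) + t * Complex.I)) (Ioi 0) := by
  obtain ⟨a, b, c, d, h, hc, hr, -, -⟩ := rat_bez r
  exact ff_int f h hc hr

/-- the primitive tends to the integral along horocycles -/
theorem F_hor (r : ℚ) : Tendsto (F f) (Hor (r : ℂ)) (𝓝 (II f r)) := by
  obtain ⟨a, b, c, d, h, hc, hr, -, -⟩ := rat_bez r
  obtain ⟨C, hC⟩ := F_lim f h hc hr
  have h1 := integral_line f (r : ℂ) (by simp) (int_rat f r) (hC.comp (line_hor (r : ℂ) (by simp)))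
  have h2 : II f r = C := h1
  rw [h2]
  exact hC

end Pool.Agent.N974.Gen
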