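import Pool.Agent.N974.Gen.Mel
import Pool.Agent.N974.MF.LfinG

/-!
# The `L`-functions of the quadratic twists of an elliptic curve attached to an eigenform
-/

set_option autoImplicit false
set_option linter.unusedSectionVars false
set_option linter.style.haveILetI false

open Complex Filter Topology Set UpperHalfPlane MatrixGroups CongruenceSubgroup ZMod

namespace Pool.Agent.N974.Gen

open Pool.Agent.H491R3.J (OS)
open Pool.Agent.Y687 (cnt cnt_eq fac p_cpow hasProd_transfer nrm ne_zero_of_norm sum_rrC rr mem_rr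
  jacD cnt_twistD SS)

/-- the Euler factor at `p` of the twisted `L`-function -/
noncomputable def bf (a : ℕ → ℤ) (N : ℕ) (x : ℤ) (p : ℕ) (s : ℂ) : ℂ :=
  1 - (a p : ℂ) * (x : ℂ) * (p : ℂ) ^ (-s) +
    (if p ∣ N then 0 else (p : ℂ)) * (x : ℂ) ^ 2 * (p : ℂ) ^ (-2 * s)

theorem bf_diff (a : ℕ → ℤ) (N : ℕ) (x : ℤ) {p : ℕ} (hp : p ≠ 0) :
    Differentiable ℂ (bf a N x p) := by
  have hp' : (p : ℂ) ≠ 0 := by exact_mod_cast hp
  unfold bf
  refine Differentiable.add (Differentiable.sub (differentiable_const _) ?_) ?_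
  · exact (Differentiable.const_cpow (by fun_prop) (Or.inl hp')).const_mul _
  · exact (Differentiable.const_cpow (by fun_prop) (Or.inl hp')).const_mul _

theorem quad_ne {a p : ℝ} (hp : 1 < p) (ha : |a| ≤ 2 * Real.sqrt p) {Y : ℂ} (hY : ‖Y‖ ≤ p⁻¹) :
    1 - (a : ℂ) * Y + (p : ℂ) * Y ^ 2 ≠ 0 := by
  intro h
  have hp0 : 0 < p := by linarith
  have ha2 : a ^ 2 ≤ 4 * p := by
    have h1 : |a| ^ 2 ≤ (2 * Real.sqrt p) ^ 2 := pow_le_pow_left₀ (abs_nonneg a) ha 2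
    rw [sq_abs, mul_pow, Real.sq_sqrt hp0.le] at h1
    linarith
  have hre := congrArg Complex.re h
  have him := congrArg Complex.im h
  have e2 : Y ^ 2 = Y * Y := sq Y
  rw [e2] at hre him
  simp only [Complex.add_re, Complex.sub_re, Complex.one_re, Complex.mul_re, Complex.ofReal_re,
    Complex.ofReal_im, Complex.mul_im, Complex.zero_re, Complex.add_im, Complex.sub_im,
    Complex.one_im, Complex.zero_im] at hre him
  have hn : Y.re ^ 2 + Y.im ^ 2 ≤ (p⁻¹) ^ 2 := by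
    have h1 : ‖Y‖ ^ 2 ≤ (p⁻¹) ^ 2 := pow_le_pow_left₀ (norm_nonneg _) hY 2
    rw [← Complex.normSq_eq_norm_sq, Complex.normSq_apply] at h1
    nlinarith
  have key : 2 * p * Y.re = a := by
    by_cases hv : Y.im = 0
    · rw [hv] at hre
      have h1 : (2 * p * Y.re - a) ^ 2 = 0 := by
        apply le_antisymm _ (sq_nonneg _)
        nlinarith
      have := pow_eq_zero_iff (two_ne_zero) |>.1 h1
      linarith
    · have h1 : Y.im * (2 * p * Y.re - a) = 0 := by linarith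
      have := (mul_eq_zero.1 h1).resolve_left hv
      linarith
  have h3 : p * (Y.re ^ 2 + Y.im ^ 2) = 1 := by
    rw [← key] at hre
    linarith
  have h4 : p * (p⁻¹) ^ 2 = p⁻¹ := by
    field_simp
  have h5 : p⁻¹ < 1 := inv_lt_one_of_one_lt₀ hp
  have h6 : p * (Y.re ^ 2 + Y.im ^ 2) ≤ p * (p⁻¹) ^ 2 := mul_le_mul_of_nonneg_left hn hp0.le
  linarith

theorem bf_ne {a : ℕ → ℤ} {N : ℕ} {x : ℤ} (hx : x = 0 ∨ x = 1 ∨ x = -1) {p : ℕ} (hp : p.Prime)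
    (hg : ¬ p ∣ N → |((a p : ℤ) : ℝ)| ≤ 2 * Real.sqrt p)
    (hb : p ∣ N → |((a p : ℤ) : ℝ)| ≤ 1) {s : ℂ} (hs : 1 ≤ s.re) : bf a N x p s ≠ 0 := by
  have hp1 : (1 : ℝ) < p := by exact_mod_cast hp.one_lt
  have hp0 : (0 : ℝ) < p := by linarith
  set Y : ℂ := (x : ℂ) * (p : ℂ) ^ (-s) with hY
  have hX : ‖(p : ℂ) ^ (-s)‖ ≤ (p : ℝ)⁻¹ := by
    rw [Complex.norm_natCast_cpow_of_pos hp.pos, Complex.neg_re, ← Real.rpow_neg_one]
    exact Real.rpow_le_rpow_of_exponent_le hp1.le (by linarith)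
  have hxn : ‖(x : ℂ)‖ ≤ 1 := by
    rcases hx with rfl | rfl | rfl <;> simp
  have hYn : ‖Y‖ ≤ (p : ℝ)⁻¹ := by
    rw [hY, norm_mul]
    calc ‖(x : ℂ)‖ * ‖(p : ℂ) ^ (-s)‖ ≤ 1 * (p : ℝ)⁻¹ := by gcongr
      _ = (p : ℝ)⁻¹ := one_mul _
  have e : bf a N x p s = 1 - ((a p : ℝ) : ℂ) * Y + (if p ∣ N then 0 else (p : ℂ)) * Y ^ 2 := by
    unfold bf
    have h1 : (p : ℂ) ^ (-2 * s) = ((p : ℂ) ^ (-s)) ^ 2 := by
      rw [← Complex.cpow_nat_mul]
      congr 1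
      push_cast
      ring
    rw [h1, hY]
    push_cast
    ring
  rw [e]
  by_cases hN : p ∣ N
  · rw [if_pos hN, zero_mul, add_zero]
    intro h
    have h1 : ((a p : ℝ) : ℂ) * Y = 1 := by linear_combination -h
    have h2 := congrArg norm h1
    rw [norm_mul, norm_one, Complex.norm_real, Real.norm_eq_abs] at h2
    have h3 : |(a p : ℝ)| * ‖Y‖ ≤ 1 * (p : ℝ)⁻¹ := by
      have := hb hN
      gcongr
    have h5 : (p : ℝ)⁻¹ < 1 := inv_lt_one_of_one_lt₀ hp1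
    linarith
  · rw [if_neg hN]
    have := quad_ne (a := (a p : ℝ)) (p := (p : ℝ)) hp1 (hg hN) hYn
    push_cast at this ⊢
    exact this

/-- the primes of bad reduction of the twisted model -/
theorem bad_iff {A B D : ℤ} {p : ℕ} (hp : p.Prime) :
    ((p : ℤ) ∣ 2 * (4 * (A * D ^ 2) ^ 3 + 27 * (B * D ^ 3) ^ 2)) ↔
      (p : ℤ) ∣ 2 * (4 * A ^ 3 + 27 * B ^ 2) ∨ p ∣ D.natAbs := by
  have e : 2 * (4 * (A * D ^ 2) ^ 3 + 27 * (B * D ^ 3) ^ 2) =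
      (2 * (4 * A ^ 3 + 27 * B ^ 2)) * D ^ 6 := by ring
  have hpZ : Prime (p : ℤ) := Nat.prime_iff_prime_int.1 hp
  have e3 : p ∣ D.natAbs ↔ (p : ℤ) ∣ D := Int.natCast_dvd.symm
  rw [e, hpZ.dvd_mul, e3]
  constructor
  · rintro (h | h)
    · exact Or.inl h
    · exact Or.inr (hpZ.dvd_of_dvd_pow h)
  · rintro (h | h)
    · exact Or.inl h
    · exact Or.inr (dvd_pow h (by norm_num))

variable {N : ℕ} [NeZero N] {f : CuspForm (Gamma0 N : Subgroup (GL (Fin 2) ℝ)) 2}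

/-- the `L`-function of the quadratic twist, for a primitive character whose values at the primes
are those of the twist -/
theorem exists_fG {a : ℕ → ℤ} (h : Eigen f a) (A B : ℤ) (hΔ : 4 * A ^ 3 + 27 * B ^ 2 ≠ 0)
    (hN : ∀ p : ℕ, p.Prime → p ∣ N → (p : ℤ) ∣ 2 * (4 * A ^ 3 + 27 * B ^ 2)) (D : ℤ)
    {q : ℕ} [NeZero q] (χ : DirichletCharacter ℂ q)
    (hχ : χ.IsPrimitive) (x : ℕ → ℤ) (hx : ∀ p : ℕ, p.Prime → χ (p : ZMod q) = (x p : ℂ))
    (hv : ∀ p : ℕ, p.Prime → x p = 0 ∨ x p = 1 ∨ x p = -1)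
    (hbad : ∀ p : ℕ, p.Prime → ¬ (p : ℤ) ∣ 2 * (4 * A ^ 3 + 27 * B ^ 2) → p ∣ D.natAbs → x p = 0)
    (hgood : ∀ p : ℕ, p.Prime → ¬ (p : ℤ) ∣ 2 * (4 * A ^ 3 + 27 * B ^ 2) → ¬ p ∣ D.natAbs →
      x p ^ 2 = 1 ∧ (p : ℤ) - cnt (A * D ^ 2) (B * D ^ 3) p = x p * a p) :
    ∃ (F : ℂ → ℂ) (g1 : ℂ), Differentiable ℂ F ∧
      (∀ s : ℂ, (3 : ℝ) / 2 < s.re →
        HasProd (fun p : {p : ℕ // p.Prime ∧
            ¬ ((p : ℤ) ∣ 2 * (4 * (A * D ^ 2) ^ 3 + 27 * (B * D ^ 3) ^ 2))} =>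
          fac (A * D ^ 2) (B * D ^ 3) s p) (F s)) ∧
      (g1 ≠ 0 → F 1 ≠ 0) ∧
      gaussSum χ⁻¹ (stdAddChar (N := q)) * g1 =
        ∑ u : (ZMod q)ˣ, χ⁻¹ (u : ZMod q) * II f (((u : ZMod q).val : ℚ) / q) := by
  classical
  obtain ⟨g, hg1, hg2, hg3⟩ := exists_L_all f h χ hχ
  set Δ : ℤ := 2 * (4 * A ^ 3 + 27 * B ^ 2) with hΔ'
  have hΔ0 : Δ.natAbs ≠ 0 := by
    rw [Int.natAbs_ne_zero]
    exact mul_ne_zero two_ne_zero hΔ
  set S : Finset Nat.Primes := (Δ.natAbs.primeFactors).subtype Nat.Prime with hS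
  have memS : ∀ p : Nat.Primes, p ∈ S ↔ ((p : ℕ) : ℤ) ∣ Δ := by
    intro p
    have e : p ∈ S ↔ (p : ℕ) ∈ Δ.natAbs.primeFactors := Finset.mem_subtype
    rw [e, Nat.mem_primeFactors, Int.natCast_dvd]
    exact ⟨fun h => h.2.1, fun h => ⟨p.2, h, hΔ0⟩⟩
  have hne : ∀ p : Nat.Primes, ∀ s : ℂ, 1 ≤ s.re → bf a N (x p) p s ≠ 0 := fun p s hs =>
    bf_ne (hv p p.2) p.2 (h.good p p.2) (h.bad p p.2) hs
  refine ⟨fun s => g s * ∏ p ∈ S, bf a N (x p) p s, g 1,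
    hg1.mul (Differentiable.fun_finsetProd fun p _ => bf_diff a N (x p) p.2.ne_zero), ?_, ?_, hg3⟩
  · intro s hs
    have hs' : 3 / 2 < s.re := hs
    have e1 := hg2 s hs'
    -- the finite product
    set k : Nat.Primes → ℂ := fun p => if p ∈ S then bf a N (x p) p s else 1 with hk
    have e2 : HasProd k (∏ p ∈ S, k p) := hasProd_prod_of_ne_finset_one (fun p hp => if_neg hp)
    have e3 : ∏ p ∈ S, k p = ∏ p ∈ S, bf a N (x p) p s :=
      Finset.prod_congr rfl fun p hp => if_pos hp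
    rw [e3] at e2
    have e4 := e1.mul e2
    refine hasProd_transfer _ _ _ ?_
    refine (congrArg (fun g => HasProd g _) (funext fun p => ?_)).mp e4
    have hpp : (p : ℕ).Prime := p.2
    have hF : (1 - (a p : ℂ) * χ ((p : ℕ) : ZMod q) * ((p : ℕ) : ℂ) ^ (-s) +
          (if (p : ℕ) ∣ N then 0 else ((p : ℕ) : ℂ)) * (χ ((p : ℕ) : ZMod q)) ^ 2 *
            ((p : ℕ) : ℂ) ^ (-2 * s)) = bf a N (x p) p s := by
      unfold bf
      rw [hx p hpp]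
    rw [hF]
    by_cases hin : p ∈ S
    · have hk1 : k p = bf a N (x p) p s := if_pos hin
      rw [hk1]
      have hb : ((p : ℕ) : ℤ) ∣ 2 * (4 * (A * D ^ 2) ^ 3 + 27 * (B * D ^ 3) ^ 2) := by
        rw [bad_iff hpp]
        exact Or.inl ((memS p).1 hin)
      rw [if_neg (not_not.2 hb)]
      exact inv_mul_cancel₀ (hne p s (by linarith))
    · have hk1 : k p = 1 := if_neg hin
      rw [hk1, mul_one]
      rw [memS] at hin
      by_cases hpM : (p : ℕ) ∣ D.natAbs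
      · have hb : ((p : ℕ) : ℤ) ∣ 2 * (4 * (A * D ^ 2) ^ 3 + 27 * (B * D ^ 3) ^ 2) := by
          rw [bad_iff hpp]
          exact Or.inr hpM
        rw [if_neg (not_not.2 hb), hbad p hpp hin hpM]
        unfold bf
        simp
      · have hgood' : ¬ ((p : ℕ) : ℤ) ∣ 2 * (4 * (A * D ^ 2) ^ 3 + 27 * (B * D ^ 3) ^ 2) := by
          rw [bad_iff hpp]
          push Not
          exact ⟨hin, hpM⟩
        rw [if_pos hgood']
        obtain ⟨hx2, h5⟩ := hgood p hpp hin hpM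
        have hx2' : (x p : ℂ) ^ 2 = 1 := by exact_mod_cast hx2
        have hN' : ¬ (p : ℕ) ∣ N := fun hd => hin (hN p hpp hd)
        unfold bf fac
        congr 1
        rw [hx2', if_neg hN', mul_one, p_cpow hpp.ne_zero]
        have h6 : (((p : ℕ) : ℤ) - (Nat.card {q : ZMod p × ZMod p //
                  q.2 ^ 2 = q.1 ^ 3 + ((A * D ^ 2 : ℤ) : ZMod p) * q.1 +
                    ((B * D ^ 3 : ℤ) : ZMod p)} : ℤ)) =
                x p * a p := h5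
        rw [h6]
        push_cast
        ring
  · intro hg
    exact mul_ne_zero hg (Finset.prod_ne_zero_iff.2 fun p _ => hne p 1 (by simp))

/-- odd discriminants -/
theorem exists_fO {a : ℕ → ℤ} (h : Eigen f a) (A B : ℤ) (hΔ : 4 * A ^ 3 + 27 * B ^ 2 ≠ 0)
    (hN : ∀ p : ℕ, p.Prime → p ∣ N → (p : ℤ) ∣ 2 * (4 * A ^ 3 + 27 * B ^ 2))
    (hE : ∀ p : ℕ, p.Prime → ¬ (p : ℤ) ∣ 2 * (4 * A ^ 3 + 27 * B ^ 2) →
      (p : ℤ) - cnt A B p = a p)
    (D : ℤ) (hsq : Squarefree D) (h1 : 1 < D.natAbs) (h4 : D % 4 = 1) :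
    ∃ (F : ℂ → ℂ) (g1 : ℂ), Differentiable ℂ F ∧
      (∀ s : ℂ, (3 : ℝ) / 2 < s.re →
        HasProd (fun p : {p : ℕ // p.Prime ∧
            ¬ ((p : ℤ) ∣ 2 * (4 * (A * D ^ 2) ^ 3 + 27 * (B * D ^ 3) ^ 2))} =>
          fac (A * D ^ 2) (B * D ^ 3) s p) (F s)) ∧
      (g1 ≠ 0 → F 1 ≠ 0) ∧
      ∃ τ : ℂ, τ * g1 = ∑ u ∈ rr D.natAbs, ((jacobiSym (u : ℤ) D.natAbs : ℤ) : ℂ) *
        II f ((u : ℚ) / D.natAbs) := by
  classical
  obtain ⟨M, hM⟩ : ∃ M : ℕ, M = D.natAbs := ⟨_, rfl⟩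
  have hsqM : Squarefree M := by rw [hM]; exact Int.squarefree_natAbs.2 hsq
  have hodd : Odd M := by
    rw [hM]
    refine Nat.odd_iff.2 ?_
    omega
  rw [← hM] at h1
  haveI : NeZero M := ⟨by omega⟩
  set d : OS := ⟨M, hodd, hsqM, h1⟩ with hd
  have hchi : ∀ m : ℕ, H491R3.J.chi d (m : ZMod M) = ((jacobiSym (m : ℤ) M : ℤ) : ℂ) :=
    H491R3.J.chi_natCast d
  have hpm : ∀ m : ℕ, Nat.Coprime m M → jacobiSym (m : ℤ) M = 1 ∨ jacobiSym (m : ℤ) M = -1 := by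
    intro m hm
    refine jacobiSym.eq_one_or_neg_one ?_
    rw [Int.gcd_natCast_natCast]
    exact hm
  have hz : ∀ p : ℕ, p.Prime → p ∣ M → jacobiSym (p : ℤ) M = 0 := by
    intro p hpp hpM
    rw [jacobiSym.eq_zero_iff_not_coprime, Int.gcd_natCast_natCast]
    intro hg
    have := Nat.dvd_gcd (dvd_refl p) hpM
    rw [hg] at this
    exact hpp.one_lt.ne' (Nat.dvd_one.1 this)
  have q2 : ∀ p : ℕ, ¬ (p : ℤ) ∣ 2 * (4 * A ^ 3 + 27 * B ^ 2) → p ≠ 2 := by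
    rintro p hp rfl
    exact hp (dvd_mul_right _ _)
  obtain ⟨F, g1, k1, k2, k3, k4⟩ := exists_fG h A B hΔ hN D (H491R3.J.chi d)
    (H491R3.J.chi_primitive d)
    (fun p => jacobiSym (p : ℤ) M) (fun p _ => hchi p)
    (fun p hp => by
      by_cases hpM : p ∣ M
      · exact Or.inl (hz p hp hpM)
      · exact Or.inr (hpm p ((Nat.Prime.coprime_iff_not_dvd hp).2 hpM)))
    (fun p hp _ hpD => hz p hp (by rw [hM]; exact hpD))
    (fun p hp hpΔ hpD => by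
      haveI : Fact p.Prime := ⟨hp⟩
      refine ⟨?_, ?_⟩
      · rcases hpm p ((Nat.Prime.coprime_iff_not_dvd hp).2 (by rw [hM]; exact hpD)) with h | h <;>
          rw [h] <;> norm_num
      · have h5 := cnt_twistD A B h4 p (q2 p hpΔ) hpD
        rw [hE p hp hpΔ, ← hM] at h5
        exact h5)
  refine ⟨F, g1, k1, k2, k3, gaussSum (H491R3.J.chi d)⁻¹ (stdAddChar (N := M)), ?_⟩
  have hinv : (H491R3.J.chi d)⁻¹ = H491R3.J.chi d := H491R3.J.chi_inv d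
  rw [k4, hinv, ← hM, sum_rrC]
  refine Finset.sum_congr rfl fun u _ => ?_
  rw [← hchi, ZMod.natCast_zmod_val]

end Pool.Agent.N974.Gen
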