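import Pool.Agent.N974.Gen.Lfin
import Pool.Agent.W97.MT.Defs
import Pool.Agent.W165.CE.FF

/-!
# Point counts: Weierstrass equations, short equations and isogenies of degree two
-/

set_option autoImplicit false

open Finset

namespace Pool.Agent.N974.Gen

open Pool.Agent.W97.MT (ap affCount)
open Pool.Agent.Y687 (cnt cnt_eq)

section

variable {p : ℕ} [Fact p.Prime] (hp : p ≠ 2)
include hp

lemma two_ne : (2 : ZMod p) ≠ 0 := by
  have hpp : p.Prime := Fact.out
  intro h
  have h1 : ((2 : ℕ) : ZMod p) = 0 := by exact_mod_cast h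
  rw [ZMod.natCast_eq_zero_iff] at h1
  exact hp ((Nat.prime_dvd_prime_iff_eq hpp Nat.prime_two).1 h1)

lemma rc : ringChar (ZMod p) ≠ 2 := by rw [ZMod.ringChar_zmod_n]; exact hp

/-- the number of points of a general equation -/
theorem ap_char (W : WeierstrassCurve ℤ) : ap W p = -∑ x : ZMod p, quadraticChar (ZMod p)
    (4 * x ^ 3 + (W.b₂ : ZMod p) * x ^ 2 + 2 * (W.b₄ : ZMod p) * x + (W.b₆ : ZMod p)) := by
  have n2 := two_ne hp
  have h := Pool.Agent.H82R3.EK.card_points (rc hp)
    (fun x : ZMod p => 4 * x ^ 3 + (W.b₂ : ZMod p) * x ^ 2 + 2 * (W.b₄ : ZMod p) * x + (W.b₆ : ZMod p))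
  have e : affCount W p = Nat.card {q : ZMod p × ZMod p // q.2 ^ 2 =
      4 * q.1 ^ 3 + (W.b₂ : ZMod p) * q.1 ^ 2 + 2 * (W.b₄ : ZMod p) * q.1 + (W.b₆ : ZMod p)} := by
    unfold affCount
    refine Nat.card_congr
      { toFun := fun x => ⟨(x.1.1, 2 * x.1.2 + (W.a₁ : ZMod p) * x.1.1 + (W.a₃ : ZMod p)), ?_⟩
        invFun := fun x => ⟨(x.1.1, (x.1.2 - (W.a₁ : ZMod p) * x.1.1 - (W.a₃ : ZMod p)) / 2), ?_⟩
        left_inv := ?_
        right_inv := ?_ }
    · have h := x.2
      rw [WeierstrassCurve.Affine.equation_iff] at h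
      simp only [WeierstrassCurve.map, WeierstrassCurve.b₂, WeierstrassCurve.b₄,
        WeierstrassCurve.b₆, eq_intCast] at h ⊢
      push_cast at h ⊢
      linear_combination 4 * h
    · have h := x.2
      rw [WeierstrassCurve.Affine.equation_iff]
      simp only [WeierstrassCurve.map, WeierstrassCurve.b₂, WeierstrassCurve.b₄,
        WeierstrassCurve.b₆, eq_intCast] at h ⊢
      push_cast at h ⊢
      have h4 : (4 : ZMod p) ≠ 0 := by
        rw [show (4 : ZMod p) = 2 * 2 by norm_num]
        exact mul_ne_zero n2 n2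
      have e2 : x.1.2 = 2 * ((x.1.2 - (W.a₁ : ZMod p) * x.1.1 - (W.a₃ : ZMod p)) / 2) +
          (W.a₁ : ZMod p) * x.1.1 + (W.a₃ : ZMod p) := by
        field_simp
        ring
      set y := (x.1.2 - (W.a₁ : ZMod p) * x.1.1 - (W.a₃ : ZMod p)) / 2 with hy
      rw [e2] at h
      refine mul_left_cancel₀ h4 ?_
      linear_combination h
    · intro x
      apply Subtype.ext
      apply Prod.ext
      · rfl
      · show (2 * x.1.2 + (W.a₁ : ZMod p) * x.1.1 + (W.a₃ : ZMod p) - (W.a₁ : ZMod p) * x.1.1 -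
          (W.a₃ : ZMod p)) / 2 = x.1.2
        field_simp
        ring
    · intro x
      apply Subtype.ext
      apply Prod.ext
      · rfl
      · show 2 * ((x.1.2 - (W.a₁ : ZMod p) * x.1.1 - (W.a₃ : ZMod p)) / 2) + (W.a₁ : ZMod p) * x.1.1 +
          (W.a₃ : ZMod p) = x.1.2
        field_simp
        ring
  unfold ap
  rw [e, h, ZMod.card]
  ring

/-- change of coordinates -/
theorem char_aff {g k : ZMod p → ZMod p} {m t u : ZMod p} (hm : m ≠ 0) (hu : u ≠ 0)
    (h : ∀ x, u ^ 2 * g x = k (m * x + t)) :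
    ∑ x : ZMod p, quadraticChar (ZMod p) (g x) = ∑ x : ZMod p, quadraticChar (ZMod p) (k x) := by
  refine Fintype.sum_bijective (fun x => m * x + t) ?_ _ _ fun x => ?_
  · refine Function.bijective_iff_has_inverse.2 ⟨fun y => (y - t) / m, fun x => ?_, fun y => ?_⟩
    · simp only
      field_simp
      ring
    · simp only
      field_simp
      ring
  · rw [← h x, map_mul, quadraticChar_sq_one' hu, one_mul]

/-- the short equation of a general equation -/
theorem ap_short (W : WeierstrassCurve ℤ) (A B : ℤ) {m t u : ZMod p} (hm : m ≠ 0) (hu : u ≠ 0)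
    (h : ∀ x : ZMod p, u ^ 2 * (4 * x ^ 3 + (W.b₂ : ZMod p) * x ^ 2 + 2 * (W.b₄ : ZMod p) * x +
      (W.b₆ : ZMod p)) = (m * x + t) ^ 3 + (A : ZMod p) * (m * x + t) + (B : ZMod p)) :
    (p : ℤ) - cnt A B p = ap W p := by
  rw [cnt_eq A B p hp, ap_char hp W]
  congr 1
  exact (char_aff hp (g := fun x => 4 * x ^ 3 + (W.b₂ : ZMod p) * x ^ 2 + 2 * (W.b₄ : ZMod p) * x +
      (W.b₆ : ZMod p)) (k := fun x => x ^ 3 + (A : ZMod p) * x + (B : ZMod p)) hm hu h).symm

/-- an isogeny of degree two preserves the number of points -/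
theorem char_isog {a b : ZMod p} (hb : b ≠ 0) :
    ∑ x : ZMod p, quadraticChar (ZMod p) (x * (x ^ 2 + a * x + b)) =
      ∑ x : ZMod p, quadraticChar (ZMod p) (x * (x ^ 2 - 2 * a * x + (a ^ 2 - 4 * b))) := by
  classical
  have n2 := two_ne hp
  -- the number of solutions of `x + b / x = t`
  have key : ∀ t : ZMod p, (((univ : Finset (ZMod p)).filter fun x => x ≠ 0 ∧ x + b / x = t).card : ℤ) =
      quadraticChar (ZMod p) (t ^ 2 - 4 * b) + 1 := by
    intro t
    rw [← quadraticChar_card_sqrts (rc hp)]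
    congr 1
    refine Finset.card_bij (fun x _ => 2 * x - t) ?_ ?_ ?_
    · intro x hx
      obtain ⟨hx0, hx1⟩ := (Finset.mem_filter.1 hx).2
      have h1 : x ^ 2 + b = t * x := by
        rw [← hx1]
        field_simp
      simp only [Set.mem_toFinset, Set.mem_ofPred_eq]
      linear_combination 4 * h1
    · intro x _ y _ h
      have : 2 * (x - y) = 0 := by linear_combination h
      have := (mul_eq_zero.1 this).resolve_left n2
      exact sub_eq_zero.1 this
    · intro y hy
      simp only [Set.mem_toFinset, Set.mem_ofPred_eq] at hy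
      have h4 : ((y + t) / 2) ^ 2 + b = t * ((y + t) / 2) := by
        have h4 : (4 : ZMod p) ≠ 0 := by
          rw [show (4 : ZMod p) = 2 * 2 by norm_num]
          exact mul_ne_zero n2 n2
        refine mul_left_cancel₀ h4 ?_
        have e : 4 * (((y + t) / 2) ^ 2 + b) = (y + t) ^ 2 + 4 * b := by
          field_simp
          ring
        have e' : 4 * (t * ((y + t) / 2)) = 2 * t * (y + t) := by
          field_simp
          ring
        rw [e, e']
        linear_combination hy
      have hx0 : (y + t) / 2 ≠ 0 := by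
        intro h0
        rw [h0] at h4
        apply hb
        linear_combination h4
      refine ⟨(y + t) / 2, Finset.mem_filter.2 ⟨Finset.mem_univ _, hx0, ?_⟩, ?_⟩
      · have h5 : (y + t) / 2 * ((y + t) / 2 + b / ((y + t) / 2)) = (y + t) / 2 * t := by
          rw [mul_add, mul_div_cancel₀ _ hx0]
          linear_combination h4
        exact mul_left_cancel₀ hx0 h5
      · field_simp
        ring
  have s1 : ∑ x : ZMod p, quadraticChar (ZMod p) (x * (x ^ 2 + a * x + b)) =
      ∑ x ∈ (univ : Finset (ZMod p)).filter (fun x => x ≠ 0),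
        quadraticChar (ZMod p) (x + b / x + a) := by
    rw [Finset.sum_filter]
    refine Finset.sum_congr rfl fun x _ => ?_
    split_ifs with hx
    · have e : x * (x ^ 2 + a * x + b) = x ^ 2 * (x + b / x + a) := by
        field_simp
        ring
      rw [e, map_mul, quadraticChar_sq_one' hx, one_mul]
    · rw [not_not.1 hx, zero_mul, quadraticChar_zero]
  have s2 : ∑ x ∈ (univ : Finset (ZMod p)).filter (fun x => x ≠ 0),
        quadraticChar (ZMod p) (x + b / x + a) =
      ∑ t : ZMod p, (quadraticChar (ZMod p) (t ^ 2 - 4 * b) + 1) * quadraticChar (ZMod p) (t + a) := by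
    rw [← Finset.sum_fiberwise_of_maps_to (s := (univ : Finset (ZMod p)).filter (fun x => x ≠ 0))
      (t := (univ : Finset (ZMod p))) (g := fun x => x + b / x) (fun _ _ => Finset.mem_univ _)]
    refine Finset.sum_congr rfl fun t _ => ?_
    rw [← key t, Finset.filter_filter]
    have : ∀ x ∈ (univ : Finset (ZMod p)).filter (fun x => x ≠ 0 ∧ x + b / x = t),
        quadraticChar (ZMod p) (x + b / x + a) = quadraticChar (ZMod p) (t + a) := by
      intro x hx
      rw [(Finset.mem_filter.1 hx).2.2]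
    rw [Finset.sum_congr rfl this, Finset.sum_const, nsmul_eq_mul]
  rw [s1, s2]
  simp_rw [add_mul, one_mul]
  rw [Finset.sum_add_distrib]
  have s3 : ∑ t : ZMod p, quadraticChar (ZMod p) (t + a) = 0 := by
    rw [← quadraticChar_sum_zero (rc hp)]
    exact Fintype.sum_equiv (Equiv.addRight a) _ _ fun x => rfl
  rw [s3, add_zero]
  refine Fintype.sum_equiv (Equiv.addRight a) _ _ fun x => ?_
  rw [← map_mul]
  congr 1
  simp only [Equiv.coe_addRight]
  ring

/-- Hasse's bound for a curve with a short equation -/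
theorem hasse_short (A B : ℤ) : |(((p : ℤ) - cnt A B p : ℤ) : ℝ)| ≤ 2 * Real.sqrt p := by
  have h := W165.CE.hasse (k := ZMod p) (rc hp) (A : ZMod p) (B : ZMod p)
  rw [ZMod.card] at h
  unfold cnt
  exact_mod_cast h

end

end Pool.Agent.N974.Gen
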